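import Mathlib

set_option autoImplicit false

/-!
# Stirling's formula for the complex Gamma function with an explicit error bound
-/

namespace Pool.Agent.H401R2

open Complex Filter Topology

/-- one step of the Stirling remainder -/
noncomputable def mB (z : ℂ) : ℂ := (z + 1/2) * (log (z + 1) - log z) - 1

lemma slit_add {z : ℂ} (hz : 0 < z.re) {x : ℝ} (hx : 0 ≤ x) : z + x ∈ slitPlane := by
  left; simp; linarith

lemma mB_eq {z : ℂ} (hz : 0 < z.re) :
    mB z = ∫ x in (0:ℝ)..1, ((x * (1 - x) / 2 : ℝ) : ℂ) / (z + x) ^ 2 := by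
  have hne : ∀ x : ℝ, 0 ≤ x → z + x ≠ 0 := fun x hx => slitPlane_ne_zero (slit_add hz hx)
  set G : ℝ → ℂ := fun x => (z + 1/2) * log (z + x) - x / 2 + z * (z + 1) / 2 * (z + x)⁻¹ with hG
  have hd : ∀ x ∈ Set.uIcc (0:ℝ) 1, HasDerivAt G (((x * (1 - x) / 2 : ℝ) : ℂ) / (z + x) ^ 2) x := by
    intro x hx
    rw [Set.uIcc_of_le zero_le_one] at hx
    have hx0 := hne x hx.1
    have h1 : HasDerivAt (fun x : ℝ => z + (x : ℂ)) 1 x := by
      simpa using (Complex.ofRealCLM.hasDerivAt (x := x)).const_add z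
    have h2 : HasDerivAt (fun x : ℝ => log (z + (x:ℂ))) (1 / (z + x)) x :=
      h1.clog_real (slit_add hz hx.1)
    have h3 : HasDerivAt (fun x : ℝ => (z + (x:ℂ))⁻¹) (-1 / (z + x) ^ 2) x := h1.inv hx0
    have h4 : HasDerivAt (fun x : ℝ => (x:ℂ) / 2) (1 / 2) x := by
      have := (Complex.ofRealCLM.hasDerivAt (x := x)).div_const (2:ℂ)
      simpa using this
    have h5 := ((h2.const_mul (z + 1/2)).sub h4).add (h3.const_mul (z * (z + 1) / 2))
    refine h5.congr_deriv ?_
    push_cast
    field_simp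
    ring
  have hcont : ContinuousOn (fun x : ℝ => ((x * (1 - x) / 2 : ℝ) : ℂ) / (z + x) ^ 2) (Set.uIcc (0:ℝ) 1) := by
    apply ContinuousOn.div
    · fun_prop
    · fun_prop
    · intro x hx
      rw [Set.uIcc_of_le zero_le_one] at hx
      exact pow_ne_zero 2 (hne x hx.1)
  rw [intervalIntegral.integral_eq_sub_of_hasDerivAt hd hcont.intervalIntegrable]
  simp only [hG, mB]
  have h0 : z ≠ 0 := by simpa using hne 0 le_rfl
  have h1 : z + 1 ≠ 0 := by simpa using hne 1 zero_le_one
  push_cast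
  rw [add_zero]
  field_simp
  ring

lemma norm_mB_le {z : ℂ} (hz : 0 < z.re) (hv : 0 < z.im) :
    ‖mB z‖ ≤ 1 / (8 * z.im) * (Real.arctan ((z.re + 1) / z.im) - Real.arctan (z.re / z.im)) := by
  rw [mB_eq hz]
  set u := z.re
  set v := z.im
  have hb : ∀ x ∈ Set.Ioc (0:ℝ) 1, ‖((x * (1 - x) / 2 : ℝ) : ℂ) / (z + x) ^ 2‖ ≤
      1 / (8 * v) * ((1 / v) / (1 + ((u + x) / v) ^ 2)) := by
    intro x hx
    have hn : ‖z + x‖ ^ 2 = (u + x) ^ 2 + v ^ 2 := by
      rw [← Complex.normSq_eq_norm_sq, Complex.normSq_apply]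
      simp only [add_re, ofReal_re, add_im, ofReal_im, add_zero]
      ring
    rw [norm_div, norm_pow, hn, Complex.norm_real, Real.norm_eq_abs,
      abs_of_nonneg (by nlinarith [hx.1, hx.2])]
    have e : 1 / (8 * v) * ((1 / v) / (1 + ((u + x) / v) ^ 2)) = (1/8) / ((u + x) ^ 2 + v ^ 2) := by
      field_simp
      ring
    rw [e]
    apply div_le_div_of_nonneg_right _ (by positivity)
    nlinarith [sq_nonneg (x - 1/2)]
  have hd : ∀ x ∈ Set.uIcc (0:ℝ) 1, HasDerivAt (fun x : ℝ => 1 / (8 * v) * Real.arctan ((u + x) / v))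
      (1 / (8 * v) * ((1 / v) / (1 + ((u + x) / v) ^ 2))) x := by
    intro x _
    have h1 : HasDerivAt (fun x : ℝ => (u + x) / v) (1 / v) x := by
      simpa using ((hasDerivAt_id x).const_add u).div_const v
    have h2 := (h1.arctan).const_mul (1 / (8 * v))
    refine h2.congr_deriv ?_
    field_simp
  have hcont : ContinuousOn (fun x : ℝ => 1 / (8 * v) * ((1 / v) / (1 + ((u + x) / v) ^ 2)))
      (Set.uIcc (0:ℝ) 1) := by
    apply ContinuousOn.mul continuousOn_const
    apply ContinuousOn.div continuousOn_const (by fun_prop)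
    intro x _
    positivity
  have h := intervalIntegral.norm_integral_le_of_norm_le (μ := MeasureTheory.volume) zero_le_one
    (MeasureTheory.ae_of_all _ hb) hcont.intervalIntegrable
  refine h.trans ?_
  rw [intervalIntegral.integral_eq_sub_of_hasDerivAt hd hcont.intervalIntegrable]
  simp only [add_zero]
  rw [← mul_sub]

/-- Gamma divided by its Stirling main term (without the constant) -/
noncomputable def sA (z : ℂ) : ℂ := Gamma z * exp (-((z - 1/2) * log z - z))

lemma sA_add_one {z : ℂ} (hz : 0 < z.re) : sA (z + 1) = sA z * exp (- mB z) := by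
  have h0 : z ≠ 0 := by intro h; rw [h] at hz; simp at hz
  unfold sA mB
  rw [Gamma_add_one z h0, mul_assoc (Gamma z), ← exp_add]
  have : z * Gamma z * exp (-((z + 1 - 1/2) * log (z + 1) - (z + 1))) =
      Gamma z * (exp (log z) * exp (-((z + 1 - 1/2) * log (z + 1) - (z + 1)))) := by
    rw [exp_log h0]; ring
  rw [this, ← exp_add]
  congr 2
  ring

lemma sA_add_nat {z : ℂ} (hz : 0 < z.re) (n : ℕ) :
    sA (z + n) = sA z * exp (- ∑ k ∈ Finset.range n, mB (z + k)) := by
  induction n with
  | zero => simp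
  | succ n ih =>
    have hz' : 0 < (z + n).re := by simp; positivity
    have := sA_add_one hz'
    push_cast
    rw [← add_assoc, this, ih, Finset.sum_range_succ, mul_assoc, ← exp_add]
    congr 2
    ring

lemma sum_mB_le {z : ℂ} (hz : 0 < z.re) (hv : 0 < z.im) (n : ℕ) :
    ‖∑ k ∈ Finset.range n, mB (z + k)‖ ≤ Real.pi / (16 * z.im) := by
  have h1 : ‖∑ k ∈ Finset.range n, mB (z + k)‖ ≤
      1 / (8 * z.im) * (Real.arctan ((z.re + n) / z.im) - Real.arctan (z.re / z.im)) := by
    induction n with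
    | zero => simp
    | succ n ih =>
      rw [Finset.sum_range_succ]
      refine (norm_add_le _ _).trans ?_
      have hz' : 0 < (z + n).re := by simp; positivity
      have h := norm_mB_le hz' (by simpa using hv)
      simp only [add_re, natCast_re, add_im, natCast_im, add_zero] at h
      push_cast
      have e : z.re + (n + 1 : ℝ) = z.re + n + 1 := by ring
      rw [e]
      calc _ ≤ _ := add_le_add ih h
        _ = _ := by ring
  refine h1.trans ?_
  have h2 : Real.arctan ((z.re + n) / z.im) ≤ Real.pi / 2 := (Real.arctan_lt_pi_div_two _).le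
  have h3 : 0 ≤ Real.arctan (z.re / z.im) := Real.arctan_nonneg.2 (by positivity)
  calc _ ≤ 1 / (8 * z.im) * (Real.pi / 2) := by gcongr; linarith
    _ = _ := by field_simp; ring


lemma tendsto_one_add_log {z : ℂ} :
    Tendsto (fun n : ℕ => (z + n + 1/2) * log (1 + z / n)) atTop (𝓝 z) := by
  have hg : Tendsto (fun n : ℕ => (n : ℂ) * (z / n)) atTop (𝓝 z) := by
    refine tendsto_const_nhds.congr' ?_
    filter_upwards [eventually_ne_atTop 0] with n hn
    have : (n : ℂ) ≠ 0 := by exact_mod_cast hn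
    field_simp
  have h1 := Complex.tendsto_nat_mul_log_one_add_of_tendsto hg
  have hz0 : Tendsto (fun n : ℕ => z / (n : ℂ)) atTop (𝓝 0) := tendsto_const_div_atTop_nhds_zero_nat z
  have h2 : Tendsto (fun n : ℕ => log (1 + z / n)) atTop (𝓝 0) := by
    have h3 : Tendsto (fun n : ℕ => 1 + z / (n:ℂ)) atTop (𝓝 1) := by
      simpa using hz0.const_add 1
    have h4 := (continuousAt_clog (show (1:ℂ) ∈ slitPlane by simp)).tendsto.comp h3
    rw [log_one] at h4
    exact h4
  have h3 := (h2.const_mul (z + 1/2)).add h1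
  simp only [mul_zero, zero_add] at h3
  refine h3.congr fun n => ?_
  ring

lemma tendsto_sA {z : ℂ} (hz : 0 < z.re) :
    Tendsto (fun n : ℕ => sA (z + n)) atTop (𝓝 ((√(2 * Real.pi) : ℝ) : ℂ)) := by
  have hz0 : ∀ n : ℕ, z + n ≠ 0 := by
    intro n h
    have := congrArg Complex.re h
    simp at this
    have hn : (0:ℝ) ≤ n := Nat.cast_nonneg n
    linarith
  have hG : Gamma z ≠ 0 := Gamma_ne_zero_of_re_pos hz
  have key : ∀ᶠ n : ℕ in atTop, (Gamma z / GammaSeq z n) * ((Stirling.stirlingSeq n : ℝ) : ℂ) *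
      ((√2 : ℝ) : ℂ) * exp (z - (z + n + 1/2) * log (1 + z / n)) = sA (z + n) := by
    filter_upwards [eventually_gt_atTop 0] with n hn
    have hn0 : (0:ℝ) < n := by exact_mod_cast hn
    have hnc : (n : ℂ) ≠ 0 := by exact_mod_cast hn.ne'
    have hprod : ∀ m : ℕ, Gamma (z + m) = Gamma z * ∏ j ∈ Finset.range m, (z + j) := by
      intro m
      induction m with
      | zero => simp
      | succ m ih =>
        push_cast
        rw [← add_assoc, Gamma_add_one _ (hz0 m), ih, Finset.prod_range_succ]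
        ring
    have hP : ∏ j ∈ Finset.range n, (z + (j:ℂ)) ≠ 0 := Finset.prod_ne_zero_iff.2 fun j _ => hz0 j
    have hlog : log (z + n) = Real.log n + log (1 + z / n) := by
      have h1 : z + n = ((n : ℝ) : ℂ) * (1 + z / n) := by
        push_cast
        field_simp
        ring
      have h2 : 1 + z / (n:ℂ) ≠ 0 := by
        intro h
        apply hz0 n
        rw [h1, h, mul_zero]
      rw [h1, log_ofReal_mul hn0 h2]
    have hfac : ((n.factorial : ℕ) : ℂ) = ((Stirling.stirlingSeq n : ℝ) : ℂ) * ((√2 : ℝ) : ℂ) *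
        exp ((n + 1/2) * Real.log n - n) := by
      have h1 : (n.factorial : ℝ) = Stirling.stirlingSeq n * √2 *
          Real.exp ((n + 1/2) * Real.log n - n) := by
        unfold Stirling.stirlingSeq
        have h2 : Real.exp ((n + 1/2) * Real.log n - n) = √n * (n / Real.exp 1) ^ n := by
          rw [Real.exp_sub, add_mul, Real.exp_add, mul_comm (n:ℝ) (Real.log n), Real.exp_mul,
            Real.exp_log hn0, Real.rpow_natCast, mul_comm (1/2 : ℝ), Real.exp_mul, Real.exp_log hn0,
            ← Real.sqrt_eq_rpow, div_pow, ← Real.exp_nat_mul, mul_one]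
          ring
        rw [h2, Real.sqrt_mul (by norm_num)]
        have h3 : √(n:ℝ) ≠ 0 := by positivity
        have h4 : √(2:ℝ) ≠ 0 := by positivity
        have h5 : (n / Real.exp 1) ^ n ≠ 0 := by positivity
        field_simp
      have := congrArg (fun x : ℝ => (x : ℂ)) h1
      push_cast at this
      rw [this]
      push_cast
      rfl
    have hcp : (n : ℂ) ^ z = exp (z * Real.log n) := by
      rw [cpow_def_of_ne_zero hnc, natCast_log, mul_comm]
    have hseq : GammaSeq z n * ((∏ j ∈ Finset.range n, (z + (j:ℂ))) * (z + n)) =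
        (n : ℂ) ^ z * n.factorial := by
      unfold GammaSeq
      rw [Finset.prod_range_succ]
      have := hz0 n
      field_simp
    have hGS : GammaSeq z n ≠ 0 := by
      intro h
      rw [h, zero_mul] at hseq
      have h1 : (n : ℂ) ^ z ≠ 0 := by rw [hcp]; exact exp_ne_zero _
      have h2 : ((n.factorial : ℕ) : ℂ) ≠ 0 := by exact_mod_cast n.factorial_ne_zero
      exact (mul_ne_zero h1 h2) hseq.symm
    have hGn : Gamma (z + n) = Gamma z / GammaSeq z n * ((n : ℂ) ^ z * n.factorial) / (z + n) := by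
      rw [hprod, ← hseq]
      have := hz0 n
      field_simp
    unfold sA
    rw [hGn, hfac, hcp]
    have e1 : (z + n) = exp (log (z + n)) := (exp_log (hz0 n)).symm
    have e2 : Gamma z / GammaSeq z n * (exp (z * Real.log n) * (((Stirling.stirlingSeq n : ℝ) : ℂ) *
        ((√2 : ℝ) : ℂ) * exp ((n + 1/2) * Real.log n - n))) / (z + n) *
        exp (-((z + n - 1/2) * log (z + n) - (z + n))) =
        Gamma z / GammaSeq z n * ((Stirling.stirlingSeq n : ℝ) : ℂ) * ((√2 : ℝ) : ℂ) *
        (exp (z * Real.log n) * exp ((n + 1/2) * Real.log n - n) * exp (- log (z + n)) *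
        exp (-((z + n - 1/2) * log (z + n) - (z + n)))) := by
      rw [exp_neg (log (z + n)), exp_log (hz0 n)]
      ring
    rw [e2, ← exp_add, ← exp_add, ← exp_add]
    congr 2
    rw [hlog]
    ring
  have hlim1 : Tendsto (fun n : ℕ => Gamma z / GammaSeq z n) atTop (𝓝 1) := by
    have := (tendsto_const_nhds (x := Gamma z)).div (GammaSeq_tendsto_Gamma z) hG
    rwa [div_self hG] at this
  have hlim2 : Tendsto (fun n : ℕ => ((Stirling.stirlingSeq n : ℝ) : ℂ)) atTop
      (𝓝 ((√Real.pi : ℝ) : ℂ)) :=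
    (Complex.continuous_ofReal.tendsto _).comp Stirling.tendsto_stirlingSeq_sqrt_pi
  have hlim3 : Tendsto (fun n : ℕ => exp (z - (z + n + 1/2) * log (1 + z / n))) atTop (𝓝 1) := by
    have h1 := (tendsto_const_nhds (x := z)).sub (tendsto_one_add_log (z := z))
    rw [sub_self] at h1
    have := (Complex.continuous_exp.tendsto _).comp h1
    rw [exp_zero] at this
    exact this
  have hall := ((hlim1.mul hlim2).mul_const ((√2 : ℝ) : ℂ)).mul hlim3
  have hval : 1 * ((√Real.pi : ℝ) : ℂ) * ((√2 : ℝ) : ℂ) * 1 = ((√(2 * Real.pi) : ℝ) : ℂ) := by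
    rw [Real.sqrt_mul (by norm_num)]
    push_cast
    ring
  rw [hval] at hall
  exact hall.congr' key

/-- Stirling's formula with explicit error -/
theorem stirling {z : ℂ} (hz : 0 < z.re) (hv : 1 ≤ z.im) :
    ‖sA z / ((√(2 * Real.pi) : ℝ) : ℂ) - 1‖ ≤ Real.pi / (8 * z.im) := by
  have hv0 : 0 < z.im := by linarith
  have hs : ((√(2 * Real.pi) : ℝ) : ℂ) ≠ 0 := by
    have : √(2 * Real.pi) ≠ 0 := by positivity
    exact_mod_cast this
  have h1 : ∀ n : ℕ, ‖sA z / sA (z + n) - 1‖ ≤ Real.pi / (8 * z.im) := by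
    intro n
    rw [sA_add_nat hz]
    have hA : sA z ≠ 0 := mul_ne_zero (Gamma_ne_zero_of_re_pos hz) (exp_ne_zero _)
    have e : sA z / (sA z * exp (-∑ k ∈ Finset.range n, mB (z + k))) =
        exp (∑ k ∈ Finset.range n, mB (z + k)) := by
      rw [exp_neg]
      have := exp_ne_zero (∑ k ∈ Finset.range n, mB (z + k))
      field_simp
    rw [e]
    have h5 := sum_mB_le hz hv0 n
    have h6 : Real.pi / (16 * z.im) ≤ 1 := by
      rw [div_le_one (by positivity)]
      have := Real.pi_le_four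
      nlinarith
    refine (norm_exp_sub_one_le (h5.trans h6)).trans ?_
    calc _ ≤ 2 * (Real.pi / (16 * z.im)) := by gcongr
      _ = _ := by field_simp; ring
  have h2 : Tendsto (fun n : ℕ => ‖sA z / sA (z + n) - 1‖) atTop
      (𝓝 ‖sA z / ((√(2 * Real.pi) : ℝ) : ℂ) - 1‖) := by
    exact (((tendsto_const_nhds (x := sA z)).div (tendsto_sA hz) hs).sub_const 1).norm
  exact le_of_tendsto' h2 h1

end Pool.Agent.H401R2
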