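import Pool.Agent.H401R2.Zero

set_option autoImplicit false

namespace Pool.Agent.H401R2

open Complex Finset XiTrunc

/-- the real function -/
noncomputable def fR (x : ℝ) : ℝ := (XiN 27 x).re

lemma continuous_fR : Continuous fR := by
  unfold fR
  have h : Continuous (XiN 27) := (differentiable_XiN 27).continuous
  exact continuous_re.comp (h.comp continuous_ofReal)

/-- sign criterion -/
lemma fR_formula {x : ℝ} (h1 : 3143 ≤ x) (h2 : x ≤ 3151) : ∃ e1 ε : ℂ, ‖e1‖ ≤ 16 ∧ ‖ε‖ ≤ 0.0036 ∧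
    Real.exp (784 * Real.pi) * fR x = ((7000 + e1) *
      (riemannZeta (((0.5:ℝ):ℂ) + (x:ℂ) * I) * (exp (-(bf 0.5 x)) / (1 + ε)) - 1)).re := by
  obtain ⟨ε, hε, hB⟩ := Bf_model (σ := 0.5) (t := x) (by norm_num) (by norm_num) h1 h2
  set s : ℂ := ((0.5:ℝ):ℂ) + (x:ℂ) * I with hs
  have hz : zOf s = x := by
    rw [hs]
    unfold zOf
    push_cast
    have : ((1/2 : ℂ)) = 0.5 := by norm_num
    rw [this]
    linear_combination (-(x:ℂ)) * I_sq
  have htail := tail_main (z := (x:ℂ)) (by simpa using h1) (by simpa using h2) (by simp)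
  set e1 : ℂ := ((Real.exp (784 * Real.pi) : ℝ) : ℂ) * Tl x - 7000 with he1
  refine ⟨e1, ε, htail, hε, ?_⟩
  have hs0 : 0 < s.re := by rw [hs]; simp; norm_num
  have hs1 : s ≠ 1 := by
    intro h
    have : s.im = 0 := by rw [h]; simp
    rw [hs] at this
    simp at this
    linarith
  have hX := XiN_eq_Hf hs0 hs1
  rw [hz] at hX
  have h1ε : 1 + ε ≠ 0 := by
    intro h
    have : ε = -1 := by linear_combination h
    rw [this, norm_neg, norm_one] at hε
    norm_num at hε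
  have hBne : Bf s ≠ 0 := by rw [hB]; exact mul_ne_zero (exp_ne_zero _) h1ε
  have hTl : Tl x = chi s * Bf s := by
    unfold Bf
    rw [hz, mul_div_cancel₀ _ (chi_ne_zero hs0 hs1)]
  have hinv : exp (-(bf 0.5 x)) / (1 + ε) = (Bf s)⁻¹ := by
    rw [hB, exp_neg]
    field_simp
  rw [hinv]
  have e2 : (7000 + e1) * (riemannZeta s * (Bf s)⁻¹ - 1) = ((Real.exp (784 * Real.pi) : ℝ) : ℂ) * XiN 27 x := by
    rw [hX, he1, hTl]
    unfold Hf
    field_simp
    ring
  rw [e2, re_ofReal_mul]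
  rfl

lemma sum_inv_sqrt (N : ℕ) : ∑ n ∈ Icc (1:ℕ) N, (n:ℝ) ^ (-(0.5:ℝ)) ≤ 2 * √N := by
  induction N with
  | zero => simp
  | succ N ih =>
    rw [sum_Icc_succ_top (by omega)]
    have h1 : ((N + 1 : ℕ) : ℝ) ^ (-(0.5:ℝ)) = 1 / √((N + 1 : ℕ) : ℝ) := by
      rw [Real.rpow_neg (Nat.cast_nonneg _), Real.sqrt_eq_rpow, one_div]
      norm_num
    rw [h1]
    have h2 : 0 < √((N + 1 : ℕ) : ℝ) := by
      rw [Real.sqrt_pos]; positivity
    have h3 : √((N + 1 : ℕ) : ℝ) ^ 2 = N + 1 := by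
      rw [Real.sq_sqrt (by positivity)]; push_cast; ring
    have h4 : √(N : ℝ) ^ 2 = N := Real.sq_sqrt (by positivity)
    have h5 : 0 ≤ √(N : ℝ) := Real.sqrt_nonneg _
    have h6 : 1 / √((N + 1 : ℕ) : ℝ) ≤ 2 * √((N + 1 : ℕ) : ℝ) - 2 * √(N : ℝ) := by
      rw [div_le_iff₀ h2]
      nlinarith [sq_nonneg (√((N + 1 : ℕ) : ℝ) - √(N : ℝ))]
    linarith

lemma rpow_1296 : (1296:ℝ) ^ (-(0.5:ℝ)) = 1 / 36 := by
  rw [Real.rpow_neg (by norm_num), show (0.5:ℝ) = 1 / 2 by norm_num, ← Real.sqrt_eq_rpow,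
    show (1296:ℝ) = 36 ^ 2 by norm_num, Real.sqrt_sq (by norm_num)]
  norm_num

lemma zeta_half {x : ℝ} (h1 : 3143 ≤ x) (h2 : x ≤ 3151) :
    ‖riemannZeta (((0.5:ℝ):ℂ) + (x:ℂ) * I) - ZU.DN 1296 (((0.5:ℝ):ℂ) + (x:ℂ) * I)‖ ≤ 0.63 := by
  set s : ℂ := ((0.5:ℝ):ℂ) + (x:ℂ) * I with hs
  have hre : s.re = 0.5 := by rw [hs]; simp
  have him : s.im = x := by rw [hs]; simp
  have h := zeta_DN (N := 1296) (by norm_num) (s := s) (P := 1 / 36) (M := 3151.1) (m := 3143)
    (by rw [hre]; norm_num) (by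
      rw [hre]
      push_cast
      rw [rpow_1296]) (by
      rw [hre, him]
      have : x ^ 2 ≤ 3151 ^ 2 := by gcongr
      norm_num at this ⊢
      linarith) (by norm_num) (by rw [him]; exact h1.trans (le_abs_self _)) (by norm_num)
  refine h.trans ?_
  push_cast
  norm_num

lemma fR_neg : fR 3150 < 0 := by
  obtain ⟨e1, ε, he1, hε, hf⟩ := fR_formula (x := 3150) (by norm_num) (by norm_num)
  set s : ℂ := ((0.5:ℝ):ℂ) + ((3150:ℝ):ℂ) * I with hs
  have hz : ‖riemannZeta s‖ ≤ 73 := by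
    have h1 := zeta_half (x := 3150) (by norm_num) (by norm_num)
    have h2 : ‖ZU.DN 1296 s‖ ≤ 72 := by
      unfold ZU.DN
      refine (norm_sum_le _ _).trans ?_
      have h3 : ∀ n ∈ Icc (1:ℕ) 1296, ‖(n:ℂ) ^ (-s)‖ = (n:ℝ) ^ (-(0.5:ℝ)) := by
        intro n hn
        have hn1 := (Finset.mem_Icc.1 hn).1
        rw [Complex.norm_natCast_cpow_of_pos (by omega)]
        congr 1
        rw [hs]; simp
      rw [sum_congr rfl h3]
      refine (sum_inv_sqrt 1296).trans ?_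
      have : √((1296:ℕ):ℝ) = 36 := by
        rw [show ((1296:ℕ):ℝ) = 36 ^ 2 by norm_num, Real.sqrt_sq (by norm_num)]
      rw [this]; norm_num
    have e : riemannZeta s = (riemannZeta s - ZU.DN 1296 s) + ZU.DN 1296 s := by ring
    rw [e]
    refine (norm_add_le _ _).trans ((add_le_add h1 h2).trans ?_)
    norm_num
  have hbf : 5.6 ≤ (bf 0.5 3150).re := by
    have p1 := Real.pi_gt_d6
    have l1 := Real.log_two_gt_d9
    have l7 := l7_d
    have le := ell_d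
    have e : (bf 0.5 3150).re = Real.log 7000 + Real.log 2 / 2 - 784 * Real.pi - 2 * Real.log 3150 + Real.pi * 3150 / 4 +
        (1 - 0.5) / 2 * Real.log (3150 / (2 * Real.pi)) := by
      unfold bf
      simp only [add_re, mul_re, ofReal_re, ofReal_im, I_re, I_im]
      ring
    rw [e]
    norm_num at p1 l1 l7 le ⊢
    linarith
  have hexp : ‖exp (-(bf 0.5 3150))‖ ≤ 1 / 260 := by
    rw [norm_exp, neg_re]
    have e1 : Real.exp 5.6 = Real.exp 1 ^ 5 * Real.exp 0.6 := by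
      rw [← Real.exp_nat_mul, ← Real.exp_add]; norm_num
    have h3 := Real.exp_one_gt_d9
    have h4 : (2.7182818283:ℝ) ^ 5 ≤ Real.exp 1 ^ 5 := by gcongr
    have h5 : (1.78:ℝ) ≤ Real.exp 0.6 := by
      have := Real.quadratic_le_exp_of_nonneg (x := 0.6) (by norm_num)
      refine le_trans ?_ this
      norm_num
    have h6 : 260 ≤ Real.exp 5.6 := by
      rw [e1]
      calc (260:ℝ) ≤ 2.7182818283 ^ 5 * 1.78 := by norm_num
        _ ≤ _ := by gcongr
    calc Real.exp (-(bf 0.5 3150).re) ≤ Real.exp (-5.6) := Real.exp_le_exp.2 (by linarith)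
      _ = 1 / Real.exp 5.6 := by rw [Real.exp_neg, one_div]
      _ ≤ 1 / 260 := by gcongr
  have h1ε : 0.99 ≤ ‖1 + ε‖ := by
    have := norm_sub_norm_le (1:ℂ) (-ε)
    rw [norm_one, norm_neg, sub_neg_eq_add] at this
    norm_num at hε this ⊢
    linarith
  set q : ℂ := riemannZeta s * (exp (-(bf 0.5 3150)) / (1 + ε)) with hq
  have hqn : ‖q‖ ≤ 0.3 := by
    rw [hq, norm_mul, norm_div]
    calc ‖riemannZeta s‖ * (‖exp (-(bf 0.5 3150))‖ / ‖1 + ε‖) ≤ 73 * ((1 / 260) / 0.99) := by gcongr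
      _ ≤ 0.3 := by norm_num
  have hre : ((7000 + e1) * (q - 1)).re ≤ -4000 := by
    have e : ((7000 + e1) * (q - 1)).re = -7000 + 7000 * q.re + (e1 * (q - 1)).re := by
      rw [add_mul, add_re]
      congr 1
      rw [show (7000:ℂ) = ((7000:ℝ):ℂ) by norm_num, re_ofReal_mul, sub_re, one_re]
      ring
    rw [e]
    have h1 : q.re ≤ 0.3 := (re_le_norm q).trans hqn
    have h2 : (e1 * (q - 1)).re ≤ 16 * 1.3 := by
      refine (re_le_norm _).trans ?_
      rw [norm_mul]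
      have : ‖q - 1‖ ≤ 1.3 := by
        refine (norm_sub_le _ _).trans ?_
        rw [norm_one]
        norm_num at hqn ⊢
        linarith
      gcongr
    norm_num at h1 h2 ⊢
    linarith
  have h3 : Real.exp (784 * Real.pi) * fR 3150 ≤ -4000 := by
    rw [hf]; exact hre
  by_contra hc
  push Not at hc
  have := mul_nonneg (Real.exp_pos (784 * Real.pi)).le hc
  linarith

lemma fR_pos : 0 < fR 3145.25 := by
  obtain ⟨e1, ε, he1, hε, hf⟩ := fR_formula (x := 3145.25) (by norm_num) (by norm_num)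
  set s : ℂ := ((0.5:ℝ):ℂ) + ((3145.25:ℝ):ℂ) * I with hs
  set Z0 : ℂ := (((7.178203:ℝ):ℂ) + ((5.34407:ℝ):ℂ) * I) with hZ0
  have hz : ‖riemannZeta s - Z0‖ ≤ 0.64 := by
    have h1 := zeta_half (x := 3145.25) (by norm_num) (by norm_num)
    have h2 := Sb_num
    have h2' : ‖ZU.DN 1296 s - Z0‖ ≤ 6e-5 := h2
    have e : riemannZeta s - Z0 = (riemannZeta s - ZU.DN 1296 s) + (ZU.DN 1296 s - Z0) := by ring
    rw [e]
    refine (norm_add_le _ _).trans ((add_le_add h1 h2').trans ?_)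
    norm_num
  set x0 : ℂ := (((-239/125) : ℝ) : ℂ) + (((-319/500) : ℝ) : ℂ) * I with hx0
  set E0 : ℂ := (((0.11870:ℝ):ℂ) + ((-0.08801:ℝ):ℂ) * I) with hE0
  have hx : ‖exp x0 - E0‖ ≤ 5e-4 := by
    have h := exp_num_b
    have e : E0 = (((1187/10000 : ℝ) : ℂ) + ((-8801/100000 : ℝ) : ℂ) * I) := by
      rw [hE0]; congr 3 <;> norm_num
    rw [e]
    exact h
  have hE0n : ‖E0‖ ≤ 0.148 := norm_le_of_sq (by norm_num) (by norm_num)
  set δ : ℂ := -(bf 0.5 3145.25) - (1305:ℕ) * (2 * Real.pi * I) - x0 with hδ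
  have hδn : ‖δ‖ ≤ 1e-3 := by
    have p1 := Real.pi_gt_d20
    have p2 := Real.pi_lt_d20
    have l1 := Real.log_two_gt_d9
    have l2 := Real.log_two_lt_d9
    have hl := abs_le.1 ell_b
    have h7 := abs_le.1 l7_b
    have e2 : δ = ((-(Real.log 7000 + Real.log 2 / 2 - 784 * Real.pi - 2 * Real.log 3145.25 + Real.pi * 3145.25 / 4 +
      (1 - 0.5) / 2 * Real.log (3145.25 / (2 * Real.pi))) + 1.912 : ℝ) : ℂ) +
      ((-(Real.pi - 3145.25 / 2 * (Real.log (3145.25 / (2 * Real.pi)) - 1) + (1 - 0.5) * Real.pi / 4) - 2610 * Real.pi + 0.638: ℝ) : ℂ) * I := by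
      rw [hδ, hx0]
      unfold bf
      push_cast
      ring
    rw [e2]
    refine (norm_add_le _ _).trans ?_
    rw [norm_mul, norm_I, mul_one, norm_real, norm_real, Real.norm_eq_abs, Real.norm_eq_abs]
    have h1 : |-(Real.log 7000 + Real.log 2 / 2 - 784 * Real.pi - 2 * Real.log 3145.25 + Real.pi * 3145.25 / 4 +
      (1 - 0.5) / 2 * Real.log (3145.25 / (2 * Real.pi))) + 1.912| ≤ 3e-4 := by
      rw [abs_le]
      norm_num at p1 p2 l1 l2 hl h7 ⊢
      constructor <;> linarith [hl.1, hl.2, h7.1, h7.2]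
    have h2 : |-(Real.pi - 3145.25 / 2 * (Real.log (3145.25 / (2 * Real.pi)) - 1) + (1 - 0.5) * Real.pi / 4) - 2610 * Real.pi + 0.638| ≤ 6e-4 := by
      rw [abs_le]
      norm_num at p1 p2 l1 l2 hl h7 ⊢
      constructor <;> linarith [hl.1, hl.2, h7.1, h7.2]
    norm_num at h1 h2 ⊢
    linarith
  have hexp : ‖exp (-(bf 0.5 3145.25)) - E0‖ ≤ 9e-4 := by
    have e1 : exp (-(bf 0.5 3145.25)) = exp x0 * exp δ := by
      have e3 : -(bf 0.5 3145.25) = (x0 + δ) + (1305:ℕ) * (2 * Real.pi * I) := by rw [hδ]; ring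
      rw [e3, exp_add (x0 + δ), exp_nat_mul_two_pi_mul_I, mul_one, exp_add]
    have h3 := norm_exp_sub_one_le (x := δ) (hδn.trans (by norm_num))
    have h4 : ‖exp x0‖ ≤ 0.149 := by
      have e : exp x0 = (exp x0 - E0) + E0 := by ring
      rw [e]
      refine (norm_add_le _ _).trans ((add_le_add hx hE0n).trans ?_)
      norm_num
    have e4 : exp (-(bf 0.5 3145.25)) - E0 = exp x0 * (exp δ - 1) + (exp x0 - E0) := by rw [e1]; ring
    rw [e4]
    refine (norm_add_le _ _).trans ?_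
    rw [norm_mul]
    have h5 : ‖exp x0‖ * ‖exp δ - 1‖ ≤ 0.149 * (2 * 1e-3) := by
      gcongr
      exact h3.trans (by gcongr)
    refine (add_le_add h5 hx).trans ?_
    norm_num
  have h1ε : 0.99 ≤ ‖1 + ε‖ := by
    have := norm_sub_norm_le (1:ℂ) (-ε)
    rw [norm_one, norm_neg, sub_neg_eq_add] at this
    norm_num at hε this ⊢
    linarith
  have h1ε0 : 1 + ε ≠ 0 := by
    intro h; rw [h, norm_zero] at h1ε; norm_num at h1ε
  set E : ℂ := exp (-(bf 0.5 3145.25)) with hE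
  set q : ℂ := riemannZeta s * (E / (1 + ε)) with hq
  -- the explicit product
  have hprod : Z0 * E0 = ((1.322385 + (7.178203 * 0.11870 + 5.34407 * 0.08801 - 1.322385) : ℝ) : ℂ) +
      ((5.34407 * 0.11870 - 7.178203 * 0.08801 : ℝ) : ℂ) * I := by
    rw [hZ0, hE0]
    push_cast
    linear_combination (-(5.34407:ℂ) * 0.08801) * I_sq
  have hP : ‖riemannZeta s * E - Z0 * E0‖ ≤ 0.11 := by
    have e : riemannZeta s * E - Z0 * E0 = (riemannZeta s - Z0) * E + Z0 * (E - E0) := by ring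
    rw [e]
    have hEn : ‖E‖ ≤ 0.149 := by
      have e : E = (E - E0) + E0 := by ring
      rw [e]
      refine (norm_add_le _ _).trans ((add_le_add hexp hE0n).trans ?_)
      norm_num
    have hZ0n : ‖Z0‖ ≤ 8.95 := norm_le_of_sq (by norm_num) (by norm_num)
    refine (norm_add_le _ _).trans ?_
    rw [norm_mul, norm_mul]
    calc ‖riemannZeta s - Z0‖ * ‖E‖ + ‖Z0‖ * ‖E - E0‖ ≤ 0.64 * 0.149 + 8.95 * 9e-4 := by gcongr
      _ ≤ 0.11 := by norm_num
  have hZE : ‖Z0 * E0‖ ≤ 1.33 := by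
    rw [hprod]; exact norm_le_of_sq (by norm_num) (by norm_num)
  have hqd : ‖q - Z0 * E0‖ ≤ 0.12 := by
    have e : q - Z0 * E0 = (riemannZeta s * E - Z0 * E0) / (1 + ε) - Z0 * E0 * ε / (1 + ε) := by
      rw [hq]; field_simp; ring
    rw [e]
    refine (norm_sub_le _ _).trans ?_
    rw [norm_div, norm_div, norm_mul (Z0 * E0) ε]
    calc ‖riemannZeta s * E - Z0 * E0‖ / ‖1 + ε‖ + ‖Z0 * E0‖ * ‖ε‖ / ‖1 + ε‖ ≤ 0.11 / 0.99 + 1.33 * 0.0036 / 0.99 := by
          gcongr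
      _ ≤ 0.12 := by norm_num
  have hqre : 1.2 ≤ q.re := by
    have h1 := abs_re_le_norm (q - Z0 * E0)
    rw [sub_re] at h1
    have h2 : (Z0 * E0).re = 7.178203 * 0.11870 + 5.34407 * 0.08801 := by
      rw [hprod]; simp
    rw [h2] at h1
    have h3 := abs_le.1 (h1.trans hqd)
    norm_num at h3 ⊢
    linarith [h3.1]
  have hqn : ‖q - 1‖ ≤ 1 := by
    have e : q - 1 = (q - Z0 * E0) + (Z0 * E0 - 1) := by ring
    rw [e]
    have h2 : ‖Z0 * E0 - 1‖ ≤ 0.4 := by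
      have e2 : Z0 * E0 - 1 = ((1.322385 + (7.178203 * 0.11870 + 5.34407 * 0.08801 - 1.322385) - 1 : ℝ) : ℂ) +
        ((5.34407 * 0.11870 - 7.178203 * 0.08801 : ℝ) : ℂ) * I := by
        rw [hprod]; push_cast; ring
      rw [e2]; exact norm_le_of_sq (by norm_num) (by norm_num)
    refine (norm_add_le _ _).trans ((add_le_add hqd h2).trans ?_)
    norm_num
  have hre : 1000 ≤ ((7000 + e1) * (q - 1)).re := by
    have e : ((7000 + e1) * (q - 1)).re = -7000 + 7000 * q.re + (e1 * (q - 1)).re := by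
      rw [add_mul, add_re]
      congr 1
      rw [show (7000:ℂ) = ((7000:ℝ):ℂ) by norm_num, re_ofReal_mul, sub_re, one_re]
      ring
    rw [e]
    have h2 : -(16 * 1) ≤ (e1 * (q - 1)).re := by
      have h3 := abs_re_le_norm (e1 * (q - 1))
      have h4 : ‖e1 * (q - 1)‖ ≤ 16 * 1 := by
        rw [norm_mul]
        gcongr
      exact (abs_le.1 (h3.trans h4)).1
    norm_num at hqre h2 ⊢
    linarith
  have h3 : 1000 ≤ Real.exp (784 * Real.pi) * fR 3145.25 := by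
    rw [hf]; exact hre
  by_contra hc
  push Not at hc
  have := mul_nonpos_of_nonneg_of_nonpos (Real.exp_pos (784 * Real.pi)).le hc
  linarith

theorem exists_real_zero : ∃ x : ℝ, 3145.25 ≤ x ∧ x ≤ 3150 ∧ XiN 27 (x : ℂ) = 0 := by
  have h := intermediate_value_Icc' (f := fR) (a := 3145.25) (b := 3150) (by norm_num) continuous_fR.continuousOn
  obtain ⟨x, hx, hx0⟩ := h ⟨fR_neg.le, fR_pos.le⟩
  refine ⟨x, hx.1, hx.2, ?_⟩
  rw [← XiN_real]
  have : (XiN 27 (x:ℂ)).re = 0 := hx0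
  rw [this]
  simp

end Pool.Agent.H401R2
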