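import Pool.Agent.H401R2.NumLog

set_option autoImplicit false

namespace Pool.Agent.H401R2

open Complex Finset

/-- the model value at the centre -/
noncomputable def Bc : ℂ := exp (bf 0.815 3143.2207)

noncomputable def ellc : ℝ := Real.log (3143.2207 / (2 * Real.pi))

/-- the logarithmic derivative of the model -/
noncomputable def lam : ℂ := ((-ellc / 2 : ℝ) : ℂ) + ((-Real.pi / 4 : ℝ) : ℂ) * I

lemma Bc_num : ‖Bc - (((0.47326:ℝ):ℂ) + ((0.20808:ℝ):ℂ) * I)‖ ≤ 2e-4 := by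
  have p1 := Real.pi_gt_d20
  have p2 := Real.pi_lt_d20
  have l1 := Real.log_two_gt_d9
  have l2 := Real.log_two_lt_d9
  have hl := abs_le.1 ell_c
  have h7 := abs_le.1 l7_c
  have hexp := exp_num_c
  set x0 : ℂ := (((-32987/50000:ℝ)):ℂ) + (((2589/6250:ℝ)):ℂ) * I with hx0
  set δ : ℂ := bf 0.815 3143.2207 + (1304:ℕ) * (2 * Real.pi * I) - x0 with hδ
  have e1 : Bc = exp x0 * exp δ := by
    unfold Bc
    rw [← exp_add, show x0 + δ = bf 0.815 3143.2207 + (1304:ℕ) * (2 * Real.pi * I) by rw [hδ]; ring,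
      exp_add, exp_nat_mul_two_pi_mul_I, mul_one]
  have e2 : δ = ((Real.log 7000 + Real.log 2 / 2 - 784 * Real.pi - 2 * Real.log 3143.2207 + Real.pi * 3143.2207 / 4 +
    (1 - 0.815) / 2 * Real.log (3143.2207 / (2 * Real.pi)) + 0.65974 : ℝ) : ℂ) +
    ((Real.pi - 3143.2207 / 2 * (Real.log (3143.2207 / (2 * Real.pi)) - 1) + (1 - 0.815) * Real.pi / 4 + 2608 * Real.pi - 0.41424: ℝ) : ℂ) * I := by
    rw [hδ, hx0]
    unfold bf
    push_cast
    ring
  have hδn : ‖δ‖ ≤ 1.5e-4 := by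
    rw [e2]
    refine (norm_add_le _ _).trans ?_
    rw [norm_mul, norm_I, mul_one, norm_real, norm_real, Real.norm_eq_abs, Real.norm_eq_abs]
    have h1 : |Real.log 7000 + Real.log 2 / 2 - 784 * Real.pi - 2 * Real.log 3143.2207 + Real.pi * 3143.2207 / 4 +
        (1 - 0.815) / 2 * Real.log (3143.2207 / (2 * Real.pi)) + 0.65974| ≤ 3e-5 := by
      rw [abs_le]
      norm_num at p1 p2 l1 l2 hl h7 ⊢
      constructor <;> linarith [hl.1, hl.2, h7.1, h7.2]
    have h2 : |Real.pi - 3143.2207 / 2 * (Real.log (3143.2207 / (2 * Real.pi)) - 1) + (1 - 0.815) * Real.pi / 4 + 2608 * Real.pi - 0.41424| ≤ 1.2e-4 := by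
      rw [abs_le]
      norm_num at p1 p2 l1 l2 hl h7 ⊢
      constructor <;> linarith [hl.1, hl.2, h7.1, h7.2]
    norm_num at h1 h2 ⊢
    linarith
  have h3 := norm_exp_sub_one_le (x := δ) (by norm_num at hδn ⊢; linarith)
  have hx0n : ‖exp x0‖ ≤ 0.52 := by
    have h4 : ‖(((0.47326:ℝ):ℂ) + ((0.20808:ℝ):ℂ) * I)‖ ≤ 0.5171 := norm_le_of_sq (by norm_num) (by norm_num)
    have h5 : exp x0 = (exp x0 - ((((23663/50000) : ℝ) : ℂ) + (((2601/12500) : ℝ) : ℂ) * I)) + ((((23663/50000) : ℝ) : ℂ) + (((2601/12500) : ℝ) : ℂ) * I) := by ring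
    rw [h5]
    refine (norm_add_le _ _).trans ?_
    have h6 : ((((23663/50000) : ℝ) : ℂ) + (((2601/12500) : ℝ) : ℂ) * I) = (((0.47326:ℝ):ℂ) + ((0.20808:ℝ):ℂ) * I) := by
      congr 3 <;> norm_num
    rw [h6] at hexp ⊢
    refine (add_le_add hexp h4).trans ?_
    norm_num
  have h6 : ((((23663/50000) : ℝ) : ℂ) + (((2601/12500) : ℝ) : ℂ) * I) = (((0.47326:ℝ):ℂ) + ((0.20808:ℝ):ℂ) * I) := by
    congr 3 <;> norm_num
  rw [h6] at hexp
  have e3 : Bc - (((0.47326:ℝ):ℂ) + ((0.20808:ℝ):ℂ) * I) = exp x0 * (exp δ - 1) +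
      (exp x0 - (((0.47326:ℝ):ℂ) + ((0.20808:ℝ):ℂ) * I)) := by rw [e1]; ring
  rw [e3]
  refine (norm_add_le _ _).trans ?_
  rw [norm_mul]
  have h7 : ‖exp x0‖ * ‖exp δ - 1‖ ≤ 0.52 * (2 * 1.5e-4) := by
    gcongr
    exact h3.trans (by gcongr)
  refine (add_le_add h7 hexp).trans ?_
  norm_num

lemma bf_shift {h1 h2 : ℝ} (hh : h1 ^ 2 + h2 ^ 2 ≤ 0.0009) :
    ‖bf (0.815 + h1) (3143.2207 + h2) - bf 0.815 3143.2207 - lam * ((h1 : ℂ) + (h2 : ℂ) * I)‖ ≤ 2.5e-5 := by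
  have hp := Real.pi_pos
  have hh1 : |h1| ≤ 0.03 := abs_le_of_sq_le_sq (by nlinarith) (by norm_num)
  have hh2 : |h2| ≤ 0.03 := abs_le_of_sq_le_sq (by nlinarith) (by norm_num)
  obtain ⟨a1, a2⟩ := abs_le.1 hh1
  obtain ⟨b1, b2⟩ := abs_le.1 hh2
  set t : ℝ := 3143.2207 with ht
  have ht0 : 0 < t := by rw [ht]; norm_num
  have ht' : 0 < t + h2 := by norm_num at b1 ht ⊢; linarith
  set d : ℝ := Real.log (t + h2) - Real.log t with hd
  have hl1 : Real.log (t / (2 * Real.pi)) = Real.log t - Real.log (2 * Real.pi) := Real.log_div ht0.ne' (by positivity)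
  have hl2 : Real.log ((t + h2) / (2 * Real.pi)) = Real.log t + d - Real.log (2 * Real.pi) := by
    rw [Real.log_div ht'.ne' (by positivity), hd]; ring
  have hd1 : d * t ≤ h2 := by
    have h3 := Real.log_le_sub_one_of_pos (x := (t + h2) / t) (by positivity)
    rw [Real.log_div ht'.ne' ht0.ne', ← hd] at h3
    have h4 : (t + h2) / t - 1 = h2 / t := by field_simp; ring
    rw [h4, le_div_iff₀ ht0] at h3
    exact h3
  have hd2 : h2 ≤ d * (t + h2) := by
    have h3 := Real.log_le_sub_one_of_pos (x := t / (t + h2)) (by positivity)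
    rw [Real.log_div ht0.ne' ht'.ne'] at h3
    have h4 : t / (t + h2) - 1 = -h2 / (t + h2) := by field_simp; ring
    rw [h4, le_div_iff₀ ht'] at h3
    have h5 : Real.log t - Real.log (t + h2) = -d := by rw [hd]; ring
    rw [h5] at h3
    linarith
  have hdabs : |d| ≤ 9.6e-6 := by
    rw [abs_le]
    constructor
    · by_contra hc
      push Not at hc
      have : d * (t + h2) < (-9.6e-6) * (t + h2) := mul_lt_mul_of_pos_right hc ht'
      norm_num at this b1 b2 ht hd2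
      linarith
    · by_contra hc
      push Not at hc
      have : (9.6e-6) * t < d * t := mul_lt_mul_of_pos_right hc ht0
      norm_num at this b1 b2 ht hd1
      linarith
  obtain ⟨c1, c2⟩ := abs_le.1 hdabs
  have e : bf (0.815 + h1) (t + h2) - bf 0.815 t - lam * ((h1 : ℂ) + (h2 : ℂ) * I) =
      ((-2 * d + (0.185 - h1) / 2 * d : ℝ) : ℂ) + ((-((t + h2) * d) / 2 + h2 / 2 : ℝ) : ℂ) * I := by
    unfold bf lam ellc
    rw [← ht, hl2, hl1]
    have hlt : Real.log (t + h2) = Real.log t + d := by rw [hd]; ring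
    rw [hlt]
    push_cast
    linear_combination ((Real.pi : ℂ) / 4 * h2) * I_sq
  rw [e]
  refine (norm_add_le _ _).trans ?_
  rw [norm_mul, norm_I, mul_one, norm_real, norm_real, Real.norm_eq_abs, Real.norm_eq_abs]
  have k1 : |-2 * d + (0.185 - h1) / 2 * d| ≤ 2.0 * 9.6e-6 := by
    rw [show -2 * d + (0.185 - h1) / 2 * d = (-2 + (0.185 - h1) / 2) * d by ring, abs_mul]
    gcongr
    rw [abs_le]
    norm_num at a1 a2 ⊢
    constructor <;> linarith
  have k2 : |-((t + h2) * d) / 2 + h2 / 2| ≤ 1e-6 := by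
    have h5 : 0 ≤ (t + h2) * d - h2 := by linarith
    have h6 : (t + h2) * d - h2 ≤ h2 * d := by linarith
    have h7 : h2 * d ≤ 0.03 * 9.6e-6 := by
      calc h2 * d ≤ |h2 * d| := le_abs_self _
        _ = |h2| * |d| := abs_mul _ _
        _ ≤ 0.03 * 9.6e-6 := by gcongr
    have h8 : h2 * d ≤ 1e-6 := h7.trans (by norm_num)
    have h10 : ∀ K A B : ℝ, 0 ≤ K - A → K - A ≤ B → B ≤ 1e-6 → |-K / 2 + A / 2| ≤ 1e-6 := by
      intro K A B q1 q2 q3
      have h9 : (0:ℝ) ≤ 1e-6 := by norm_num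
      rw [abs_le]
      constructor <;> linarith
    exact h10 _ _ _ h5 h6 h8
  refine (add_le_add k1 k2).trans ?_
  norm_num

end Pool.Agent.H401R2
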