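import Pool.Agent.H401R2.Stir

set_option autoImplicit false

/-!
# Asymptotics with explicit error for the factor `s(s-1)/2 π^(-s/2) Γ(s/2)`
-/

namespace Pool.Agent.H401R2

open Complex Filter Topology

noncomputable def chi (s : ℂ) : ℂ := s * (s - 1) / 2 * (Real.pi : ℂ) ^ (-s / 2) * Gamma (s / 2)

/-- the exponent of the main term -/
noncomputable def Lam (σ t : ℝ) : ℂ :=
  ((-(Real.pi * t / 4) - (1 - σ) / 2 * Real.log (t / (2 * Real.pi)) : ℝ) : ℂ) +
  ((t / 2 * (Real.log (t / (2 * Real.pi)) - 1) - (1 - σ) * Real.pi / 4 : ℝ) : ℂ) * I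

lemma log_half {σ t : ℝ} (h0 : 0 < σ) (h1 : σ ≤ 1) (ht : 100 ≤ t) :
    ∃ e : ℂ, ‖e‖ ≤ 1 / t ^ 2 ∧ log (((σ : ℂ) + t * I) / 2) =
      Real.log (t / 2) + Real.pi / 2 * I - σ / t * I + e := by
  have ht0 : 0 < t := by linarith
  have htc : (t : ℂ) ≠ 0 := by exact_mod_cast ht0.ne'
  set x : ℂ := -(σ / t) * I with hx
  have hxn : ‖x‖ = σ / t := by
    rw [hx, norm_mul, norm_I, mul_one, norm_neg]
    rw [show ((σ : ℂ) / t) = ((σ / t : ℝ) : ℂ) by push_cast; rfl, Complex.norm_real,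
      Real.norm_of_nonneg (by positivity)]
  have hxle : σ / t ≤ 1 / 100 := by
    rw [div_le_div_iff₀ ht0 (by norm_num)]; linarith
  have hy : (1 + x) ≠ 0 := by
    intro h
    have h2 : x = -1 := by linear_combination h
    have : ‖x‖ = 1 := by rw [h2]; simp
    rw [hxn] at this
    linarith
  have hw : ((σ : ℂ) + t * I) / 2 = ((t / 2 : ℝ) : ℂ) * (I * (1 + x)) := by
    rw [hx]
    push_cast
    field_simp
    ring_nf
    rw [I_sq]
    ring
  have hre : 0 < (1 + x).re := by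
    have : (1 + x).re = 1 := by simp [hx]
    rw [this]; norm_num
  have harg : |(1 + x).arg| < Real.pi / 2 := Complex.abs_arg_lt_pi_div_two_iff.2 (Or.inl hre)
  rw [abs_lt] at harg
  have hlog : log (I * (1 + x)) = Real.pi / 2 * I + log (1 + x) := by
    rw [Complex.log_mul I_ne_zero hy, log_I]
    rw [arg_I]
    have := Real.pi_pos
    constructor <;> linarith [harg.1, harg.2]
  refine ⟨log (1 + x) - x, ?_, ?_⟩
  · have h := norm_log_one_add_sub_self_le (z := x) (by rw [hxn]; linarith)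
    refine h.trans ?_
    rw [hxn]
    have h3 : (1 - σ / t)⁻¹ ≤ 2 := by
      rw [inv_le_comm₀ (by linarith) (by norm_num)]
      linarith
    have h4 : (σ / t) ^ 2 ≤ 1 / t ^ 2 := by
      rw [div_pow]
      gcongr
      nlinarith
    have h5 : 0 ≤ (1 - σ / t)⁻¹ := by
      apply inv_nonneg.2; linarith
    calc (σ / t) ^ 2 * (1 - σ / t)⁻¹ / 2 ≤ 1 / t ^ 2 * 2 / 2 := by gcongr
      _ = _ := by ring
  · rw [hw, log_ofReal_mul (by positivity) (mul_ne_zero I_ne_zero hy), hlog, hx]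
    ring

theorem chi_asymp {σ t : ℝ} (h0 : 0 < σ) (h1 : σ ≤ 1) (ht : 100 ≤ t) :
    ∃ e : ℂ, ‖e‖ ≤ 4 / t ∧
      chi ((σ : ℂ) + t * I) = -((t ^ 2 / √2 : ℝ) : ℂ) * exp (Lam σ t) * (1 + e) := by
  have ht0 : 0 < t := by linarith
  have htc : (t : ℂ) ≠ 0 := by exact_mod_cast ht0.ne'
  obtain ⟨e, he, hlog⟩ := log_half h0 h1 ht
  set s : ℂ := (σ : ℂ) + t * I with hs
  set w : ℂ := s / 2 with hw
  have hwre : w.re = σ / 2 := by simp [hw, hs]
  have hwim : w.im = t / 2 := by simp [hw, hs]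
  have hst := stirling (z := w) (by rw [hwre]; linarith) (by rw [hwim]; linarith)
  rw [hwim] at hst
  set e1 : ℂ := sA w / ((√(2 * Real.pi) : ℝ) : ℂ) - 1 with he1
  have he1' : ‖e1‖ ≤ 0.8 / t := by
    refine hst.trans ?_
    have : Real.pi / (8 * (t / 2)) = (Real.pi / 4) / t := by field_simp; ring
    rw [this]
    gcongr
    linarith [Real.pi_lt_d2]
  set e3 : ℂ := ((((σ ^ 2 - σ) / t ^ 2 : ℝ) : ℂ) + ((2 * σ - 1) / t : ℝ) * I) * (-1) with he3
  have he3' : ‖e3‖ ≤ 1.01 / t := by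
    rw [he3, norm_mul, norm_neg, norm_one, mul_one]
    refine (norm_add_le _ _).trans ?_
    rw [norm_mul, norm_I, mul_one, Complex.norm_real, Complex.norm_real, Real.norm_eq_abs,
      Real.norm_eq_abs, abs_div, abs_div, abs_of_pos ht0, abs_of_pos (pow_pos ht0 2)]
    have a1 : |σ ^ 2 - σ| ≤ 1 := by rw [abs_le]; constructor <;> nlinarith
    have a2 : |2 * σ - 1| ≤ 1 := by rw [abs_le]; constructor <;> linarith
    calc |σ ^ 2 - σ| / t ^ 2 + |2 * σ - 1| / t ≤ 1 / t ^ 2 + 1 / t := by gcongr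
      _ ≤ 0.01 / t + 1 / t := by
        have : 1 / t ^ 2 ≤ 0.01 / t := by
          rw [div_le_div_iff₀ (by positivity) ht0]
          nlinarith
        linarith
      _ = _ := by ring
  set e2 : ℂ := (w - 1/2) * e - ((σ * (σ - 1) / (2 * t) : ℝ) : ℂ) * I with he2
  have he2' : ‖e2‖ ≤ 0.8 / t := by
    have b1 : ‖w - 1/2‖ ≤ (1 + t) / 2 := by
      have : w - 1/2 = (((σ - 1) / 2 : ℝ) : ℂ) + ((t / 2 : ℝ) : ℂ) * I := by
        rw [hw, hs]; push_cast; ring
      rw [this]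
      refine (norm_add_le _ _).trans ?_
      rw [norm_mul, norm_I, mul_one, Complex.norm_real, Complex.norm_real, Real.norm_eq_abs,
        Real.norm_eq_abs, abs_of_pos (by positivity : (0:ℝ) < t / 2)]
      have : |(σ - 1) / 2| ≤ 1 / 2 := by rw [abs_le]; constructor <;> linarith
      linarith
    rw [he2]
    refine (norm_sub_le _ _).trans ?_
    rw [norm_mul, norm_mul, norm_I, mul_one, Complex.norm_real, Real.norm_eq_abs, abs_div,
      abs_of_pos (by positivity : (0:ℝ) < 2 * t)]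
    have a1 : |σ * (σ - 1)| ≤ 1 / 4 := by rw [abs_le]; constructor <;> nlinarith [sq_nonneg (σ - 1/2)]
    calc ‖w - 1/2‖ * ‖e‖ + |σ * (σ - 1)| / (2 * t) ≤ (1 + t) / 2 * (1 / t ^ 2) + (1/4) / (2 * t) := by
          gcongr
      _ ≤ 0.6 / t + 0.2 / t := by
        have c1 : (1 + t) / 2 * (1 / t ^ 2) ≤ 0.6 / t := by
          rw [div_mul_div_comm, div_le_div_iff₀ (by positivity) ht0]
          nlinarith
        have c2 : (1/4) / (2 * t) ≤ 0.2 / t := by
          rw [div_le_div_iff₀ (by positivity) ht0]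
          nlinarith
        linarith
      _ = _ := by ring
  -- identity
  have hid : chi s = -((t ^ 2 / √2 : ℝ) : ℂ) * exp (Lam σ t) * ((1 + e3) * (1 + e1) * exp e2) := by
    have hpi0 : (Real.pi : ℂ) ≠ 0 := by exact_mod_cast Real.pi_ne_zero
    have hsq : ((√(2 * Real.pi) : ℝ) : ℂ) ≠ 0 := by
      have : √(2 * Real.pi) ≠ 0 := by positivity
      exact_mod_cast this
    have hG : Gamma w = sA w * exp ((w - 1/2) * log w - w) := by
      unfold sA
      rw [mul_assoc, ← exp_add, neg_add_cancel, exp_zero, mul_one]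
    have hsA : sA w = ((√(2 * Real.pi) : ℝ) : ℂ) * (1 + e1) := by
      rw [he1]; field_simp; ring
    have hss : s * (s - 1) / 2 = -((t ^ 2 / 2 : ℝ) : ℂ) * (1 + e3) := by
      rw [he3, hs]
      push_cast
      field_simp
      ring_nf
      rw [I_sq]
      ring
    have hp : (Real.pi : ℂ) ^ (-s / 2) = exp (-(s / 2) * Real.log Real.pi) := by
      rw [cpow_def_of_ne_zero hpi0, ← ofReal_log Real.pi_pos.le]
      congr 1; ring
    have hsq2 : ((√(2 * Real.pi) : ℝ) : ℂ) = ((√2 : ℝ) : ℂ) * exp (1/2 * Real.log Real.pi) := by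
      have : √(2 * Real.pi) = √2 * Real.exp (1/2 * Real.log Real.pi) := by
        rw [Real.sqrt_mul (by norm_num), mul_comm (1/2 : ℝ), Real.exp_mul, Real.exp_log Real.pi_pos,
          ← Real.sqrt_eq_rpow]
      rw [this]
      push_cast
      rfl
    have hell : Real.log (t / (2 * Real.pi)) = Real.log (t / 2) - Real.log Real.pi := by
      rw [← Real.log_div (by positivity) Real.pi_ne_zero]
      congr 1
      field_simp
    have hexp : exp (-(s / 2) * Real.log Real.pi) * exp (1/2 * Real.log Real.pi) *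
        exp ((w - 1/2) * log w - w) = exp (Lam σ t) * exp e2 := by
      rw [← exp_add, ← exp_add, ← exp_add]
      congr 1
      rw [hlog, he2]
      unfold Lam
      rw [hell]
      have hw2 : w = (σ : ℂ) / 2 + t / 2 * I := by rw [hw, hs]; ring
      rw [← hw, hw2]
      push_cast
      field_simp
      ring_nf
      rw [I_sq]
      ring
    have h2 : ((√2 : ℝ) : ℂ) * ((√2 : ℝ) : ℂ) = 2 := by
      rw [← ofReal_mul, Real.mul_self_sqrt (by norm_num)]
      push_cast; rfl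
    have h2' : ((√2 : ℝ) : ℂ) ≠ 0 := by
      intro h; rw [h] at h2; norm_num at h2
    unfold chi
    rw [← hw, hG, hsA, hss, hp, hsq2]
    calc _ = -((t ^ 2 / 2 : ℝ) : ℂ) * ((√2 : ℝ) : ℂ) * ((1 + e3) * (1 + e1)) *
        (exp (-(s / 2) * Real.log Real.pi) * exp (1/2 * Real.log Real.pi) *
        exp ((w - 1/2) * log w - w)) := by ring
      _ = _ := by
        rw [hexp]
        push_cast
        field_simp
        rw [pow_two, h2]
  refine ⟨(1 + e3) * (1 + e1) * exp e2 - 1, ?_, by rw [hid]; ring⟩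
  have ht1 : 0 ≤ 1 / t := by positivity
  have ht2 : 1 / t ≤ 1 / 100 := by
    rw [div_le_div_iff₀ ht0 (by norm_num)]; linarith
  set τ := 1 / t with hτ
  have f1 : ‖e1‖ ≤ 0.8 * τ := by rw [hτ]; refine he1'.trans (le_of_eq (by ring))
  have f3 : ‖e3‖ ≤ 1.01 * τ := by rw [hτ]; refine he3'.trans (le_of_eq (by ring))
  have f2 : ‖e2‖ ≤ 0.8 * τ := by rw [hτ]; refine he2'.trans (le_of_eq (by ring))
  have f2' : ‖exp e2 - 1‖ ≤ 1.6 * τ := by
    refine (norm_exp_sub_one_le (by linarith)).trans ?_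
    linarith
  have e4 : (1 + e3) * (1 + e1) * exp e2 - 1 =
      e3 + e1 + (exp e2 - 1) + e3 * e1 + (e3 + e1 + e3 * e1) * (exp e2 - 1) := by ring
  have g1 : ‖e3 * e1‖ ≤ 0.01 * τ := by
    rw [norm_mul]
    calc ‖e3‖ * ‖e1‖ ≤ (1.01 * τ) * (0.8 * τ) := by gcongr
      _ ≤ _ := by nlinarith
  have g2 : ‖e3 + e1 + e3 * e1‖ ≤ 2 * τ := by
    refine (norm_add_le _ _).trans ?_
    have := norm_add_le e3 e1
    linarith
  have g3 : ‖(e3 + e1 + e3 * e1) * (exp e2 - 1)‖ ≤ 0.04 * τ := by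
    rw [norm_mul]
    calc _ ≤ (2 * τ) * (1.6 * τ) := by gcongr
      _ ≤ _ := by nlinarith
  rw [e4, show (4:ℝ) / t = 4 * τ by rw [hτ]; ring]
  have k1 := norm_add_le e3 e1
  have k2 := norm_add_le (e3 + e1) (exp e2 - 1)
  have k3 := norm_add_le (e3 + e1 + (exp e2 - 1)) (e3 * e1)
  have k4 := norm_add_le (e3 + e1 + (exp e2 - 1) + e3 * e1) ((e3 + e1 + e3 * e1) * (exp e2 - 1))
  linarith

end Pool.Agent.H401R2
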