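import Pool.Agent.H401R2.Center

set_option autoImplicit false

namespace Pool.Agent.H401R2

open Complex Finset
open XiTrunc

lemma pow3000 {σ : ℝ} (h : 0.785 ≤ σ) : (3000:ℝ) ^ (-σ) ≤ 0.00187 := by
  have h1 : (3000:ℝ) ^ (-σ) ≤ (3000:ℝ) ^ (-(0.785:ℝ)) := by
    apply Real.rpow_le_rpow_of_exponent_le (by norm_num)
    linarith
  refine h1.trans ?_
  rw [Real.rpow_neg (by norm_num)]
  have hlog : 8.006 ≤ Real.log 3000 := by
    rw [Real.le_log_iff_exp_le (by norm_num)]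
    have e1 : Real.exp 8.006 = Real.exp 1 ^ 8 * Real.exp 0.006 := by
      rw [← Real.exp_nat_mul, ← Real.exp_add]; norm_num
    have h3 := Real.exp_one_lt_d9
    have h4 : Real.exp 1 ^ 8 ≤ (2.7182818286:ℝ) ^ 8 := by gcongr
    have h5 : Real.exp 0.006 ≤ 1.0061 := by
      have h6 := Real.exp_bound' (x := 0.006) (by norm_num) (by norm_num) (n := 2) (by norm_num)
      refine h6.trans ?_
      simp only [sum_range_succ, sum_range_zero]
      norm_num [Nat.factorial]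
    rw [e1]
    calc Real.exp 1 ^ 8 * Real.exp 0.006 ≤ 2.7182818286 ^ 8 * 1.0061 := by gcongr
      _ ≤ 3000 := by norm_num
  have h2 : 535 ≤ (3000:ℝ) ^ (0.785:ℝ) := by
    rw [Real.rpow_def_of_pos (by norm_num)]
    have h3 : (6.28471:ℝ) ≤ Real.log 3000 * 0.785 := by
      norm_num at hlog ⊢
      linarith
    have e1 : Real.exp 6.28471 = Real.exp 1 ^ 6 * (Real.exp 0.142355) ^ 2 := by
      rw [← Real.exp_nat_mul, ← Real.exp_nat_mul, ← Real.exp_add]; norm_num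
    have h4 := Real.exp_one_gt_d9
    have h5 : (2.7182818283:ℝ) ^ 6 ≤ Real.exp 1 ^ 6 := by gcongr
    have h6 : (1.1524:ℝ) ≤ Real.exp 0.142355 := by
      have := Real.quadratic_le_exp_of_nonneg (x := 0.142355) (by norm_num)
      refine le_trans ?_ this
      norm_num
    calc (535:ℝ) ≤ 2.7182818283 ^ 6 * 1.1524 ^ 2 := by norm_num
      _ ≤ Real.exp 1 ^ 6 * (Real.exp 0.142355) ^ 2 := by gcongr
      _ = Real.exp 6.28471 := e1.symm
      _ ≤ _ := Real.exp_le_exp.2 h3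
  calc ((3000:ℝ) ^ (0.785:ℝ))⁻¹ ≤ (535:ℝ)⁻¹ := by gcongr
    _ ≤ 0.00187 := by norm_num

/-- general Euler-Maclaurin bound with the crude sum -/
lemma zeta_DN {N : ℕ} (hN : 2 ≤ N) {s : ℂ} {P M m : ℝ} (hs : 0 < s.re)
    (hP : (N:ℝ) ^ (-s.re) ≤ P) (hM : s.im ^ 2 + (s.re + 3) ^ 2 ≤ M ^ 2) (hM0 : 0 ≤ M)
    (hm : m ≤ |s.im|) (hm0 : 0 < m) :
    ‖riemannZeta s - ZU.DN N s‖ ≤ M ^ 4 / 720 * P * (1 / (3 * ((N : ℝ) - 1) ^ 3)) + P / 2 +
      N * P / m + M * (P / N) / 12 := by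
  have hN0 : (0:ℝ) < N := by
    have : 0 < N := by omega
    exact_mod_cast this
  have hN2 : (2:ℝ) ≤ N := by exact_mod_cast hN
  have hNc : (N:ℂ) ≠ 0 := by exact_mod_cast hN0.ne'
  have hP0 : 0 ≤ P := (Real.rpow_nonneg hN0.le _).trans hP
  have hs1 : s ≠ 1 := by
    intro h
    rw [h] at hm
    simp at hm
    linarith
  have hk : ∀ k : ℝ, 0 ≤ k → k ≤ 3 → ‖s + k‖ ≤ M := by
    intro k h0 h3
    apply abs_le_of_sq_le_sq' _ hM0 |>.2
    rw [Complex.sq_norm, normSq_apply]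
    simp only [add_re, ofReal_re, add_im, ofReal_im, add_zero]
    nlinarith
  have k0 : ‖s‖ ≤ M := by have := hk 0 le_rfl (by norm_num); simpa using this
  have k1 : ‖s + 1‖ ≤ M := by have := hk 1 (by norm_num) (by norm_num); simpa using this
  have k2 : ‖s + 2‖ ≤ M := by have := hk 2 (by norm_num) (by norm_num); simpa using this
  have k3 : ‖s + 3‖ ≤ M := by have := hk 3 (by norm_num) (by norm_num); simpa using this
  have hem := zeta_em N hN s hs hs1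
  have hem2 : ‖riemannZeta s - emE N s‖ ≤ M ^ 4 / 720 * P * (1 / (3 * ((N : ℝ) - 1) ^ 3)) := by
    refine hem.trans ?_
    have h3 : 0 < (N:ℝ) - 1 := by linarith
    have h4 : ‖s * (s + 1) * (s + 2) * (s + 3)‖ ≤ M ^ 4 := by
      rw [norm_mul, norm_mul, norm_mul]
      calc ‖s‖ * ‖s + 1‖ * ‖s + 2‖ * ‖s + 3‖ ≤ M * M * M * M := by gcongr
        _ = M ^ 4 := by ring
    gcongr
  have n1 : ‖(N:ℂ) ^ (-s) / 2‖ ≤ P / 2 := by
    rw [norm_div, Complex.norm_natCast_cpow_of_pos (by omega)]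
    have : ‖(2:ℂ)‖ = 2 := by simp
    rw [this, neg_re]
    gcongr
  have n2 : ‖(N:ℂ) ^ (1 - s) / (s - 1)‖ ≤ N * P / m := by
    rw [norm_div]
    have h5 : (N:ℂ) ^ (1 - s) = N * (N:ℂ) ^ (-s) := by
      rw [sub_eq_add_neg, cpow_add _ _ hNc, cpow_one]
    rw [h5, norm_mul, Complex.norm_natCast_cpow_of_pos (by omega), neg_re, Complex.norm_natCast]
    have h6 : m ≤ ‖s - 1‖ := by
      refine hm.trans ?_
      have := abs_im_le_norm (s - 1)
      simpa using this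
    gcongr
  have n3 : ‖s * (N:ℂ) ^ (-s - 1) / 12‖ ≤ M * (P / N) / 12 := by
    rw [norm_div, norm_mul]
    have h5 : (N:ℂ) ^ (-s - 1) = (N:ℂ) ^ (-s) / N := by
      rw [cpow_sub _ _ hNc, cpow_one]
    rw [h5, norm_div, Complex.norm_natCast_cpow_of_pos (by omega), neg_re, Complex.norm_natCast]
    have : ‖(12:ℂ)‖ = 12 := by simp
    rw [this]
    gcongr
  have e : riemannZeta s - ZU.DN N s = (riemannZeta s - emE N s) - (N:ℂ) ^ (-s) / 2 +
      (N:ℂ) ^ (1 - s) / (s - 1) + s * (N:ℂ) ^ (-s - 1) / 12 := by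
    unfold emE; ring
  rw [e]
  refine (norm_add_le _ _).trans (add_le_add ((norm_add_le _ _).trans (add_le_add ((norm_sub_le _ _).trans
    (add_le_add hem2 n1)) n2)) n3)

lemma zeta_near {s : ℂ} (h1 : 0.785 ≤ s.re) (h2 : s.re ≤ 0.845) (h3 : 3143.19 ≤ s.im) (h4 : s.im ≤ 3143.2508) :
    ‖riemannZeta s - ZU.DN 3000 s‖ ≤ 0.0061 := by
  have h := zeta_DN (N := 3000) (by norm_num) (s := s) (P := 0.00187) (M := 3143.26) (m := 3143.19)
    (by norm_num at h1 ⊢; linarith) (by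
      have := pow3000 h1
      push_cast
      exact this) (by
      have k1 : s.im ^ 2 ≤ 3143.2508 ^ 2 := by
        apply pow_le_pow_left₀ _ h4
        norm_num at h3 ⊢; linarith
      have k2 : (s.re + 3) ^ 2 ≤ 3.845 ^ 2 := by
        apply pow_le_pow_left₀
        · norm_num at h1 ⊢; linarith
        · norm_num at h2 ⊢; linarith
      refine (add_le_add k1 k2).trans ?_
      norm_num) (by norm_num) (h3.trans (le_abs_self _)) (by norm_num)
  refine h.trans ?_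
  push_cast
  norm_num

lemma D_taylor {h : ℂ} (hh : ‖h‖ ≤ 0.03) :
    ‖ZU.DN 3000 (sc + h) - (Sw 0 - Sw 1 * h + Sw 2 * h ^ 2 / 2)‖ ≤ 768 * ‖h‖ ^ 3 := by
  have e : ZU.DN 3000 (sc + h) - (Sw 0 - Sw 1 * h + Sw 2 * h ^ 2 / 2) =
      ∑ n ∈ Icc (1:ℕ) 3000, (n : ℂ) ^ (-sc) * (exp (-(h * (Real.log (n:ℝ) : ℂ))) -
        ∑ m ∈ range 3, (-(h * (Real.log (n:ℝ) : ℂ))) ^ m / (m.factorial : ℂ)) := by
    unfold ZU.DN Sw
    have e1 : ∀ n ∈ Icc (1:ℕ) 3000, (n : ℂ) ^ (-(sc + h)) = (n : ℂ) ^ (-sc) * exp (-(h * (Real.log (n:ℝ) : ℂ))) := by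
      intro n hn
      have hn1 := (Finset.mem_Icc.1 hn).1
      have hn0 : (0:ℝ) < n := by exact_mod_cast hn1
      have hnc : (n:ℂ) ≠ 0 := by exact_mod_cast hn0.ne'
      rw [neg_add, cpow_add _ _ hnc]
      congr 1
      rw [cpow_def_of_ne_zero hnc]
      have hl : Complex.log (n:ℂ) = ((Real.log n : ℝ) : ℂ) := by
        rw [ofReal_log hn0.le]; norm_num
      rw [hl]
      congr 1
      ring
    rw [sum_congr rfl e1, sum_mul, sum_mul, sum_div, ← sum_sub_distrib, ← sum_add_distrib, ← sum_sub_distrib]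
    refine sum_congr rfl fun n _ => ?_
    simp only [sum_range_succ, sum_range_zero, Nat.factorial]
    push_cast
    ring
  rw [e]
  have h2 : ∀ n ∈ Icc (1:ℕ) 3000, ‖(n : ℂ) ^ (-sc) * (exp (-(h * (Real.log (n:ℝ) : ℂ))) -
        ∑ m ∈ range 3, (-(h * (Real.log (n:ℝ) : ℂ))) ^ m / (m.factorial : ℂ))‖ ≤
        (n : ℝ) ^ (-(0.815:ℝ)) * Real.log (n : ℝ) ^ 3 * (2 / 9 * ‖h‖ ^ 3) := by
    intro n hn
    have hn1 := (Finset.mem_Icc.1 hn).1
    obtain ⟨l0, l1⟩ := Ker.log_bound hn1 (Finset.mem_Icc.1 hn).2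
    rw [norm_mul, Complex.norm_natCast_cpow_of_pos (by omega)]
    have hre : (-sc).re = -(0.815:ℝ) := by simp [sc]
    rw [hre]
    have hw : ‖-(h * (Real.log (n:ℝ) : ℂ))‖ = ‖h‖ * Real.log n := by
      rw [norm_neg, norm_mul, norm_real, Real.norm_of_nonneg l0]
    have hb := Complex.exp_bound (x := -(h * (Real.log (n:ℝ) : ℂ))) (by
      rw [hw]
      calc ‖h‖ * Real.log n ≤ 0.03 * 8.2 := by gcongr
        _ ≤ 1 := by norm_num) (n := 3) (by norm_num)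
    rw [hw] at hb
    calc _ ≤ (n : ℝ) ^ (-(0.815:ℝ)) * ((‖h‖ * Real.log n) ^ 3 * (((Nat.succ 3 : ℕ) : ℝ) * (((Nat.factorial 3 : ℕ) * (3:ℕ) : ℝ))⁻¹)) := by
          gcongr
      _ = _ := by
          norm_num [Nat.factorial]
          ring
  refine (norm_sum_le _ _).trans ((sum_le_sum h2).trans ?_)
  rw [← sum_mul]
  calc (∑ n ∈ Icc (1:ℕ) 3000, (n : ℝ) ^ (-(0.815:ℝ)) * Real.log (n : ℝ) ^ 3) * (2 / 9 * ‖h‖ ^ 3)
      ≤ 3452 * (2 / 9 * ‖h‖ ^ 3) := by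
        gcongr
        exact A3_num
    _ ≤ 768 * ‖h‖ ^ 3 := by
        have : 0 ≤ ‖h‖ ^ 3 := by positivity
        linarith

end Pool.Agent.H401R2
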