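import Pool.Agent.Helper240.ZU.A1

set_option autoImplicit false

/-!
# Euler-Maclaurin for the zeta function with explicit remainder
-/

namespace Pool.Agent.H401R2

open Complex Filter Topology MeasureTheory

lemma hasDerivAt_cp (c : ℂ) {x : ℝ} (hx : 0 < x) :
    HasDerivAt (fun y : ℝ => (y : ℂ) ^ c) (c * (x : ℂ) ^ (c - 1)) x := by
  have h1 : HasDerivAt (fun z : ℂ => z ^ c) (c * (x : ℂ) ^ (c - 1) * 1) (x : ℂ) :=
    (hasDerivAt_id (x : ℂ)).cpow_const (Or.inl (by simpa using hx))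
  rw [mul_one] at h1
  exact h1.comp_ofReal

/-- Euler-Maclaurin approximation -/
noncomputable def emE (N : ℕ) (s : ℂ) : ℂ :=
  ZU.DN N s - (N : ℂ) ^ (-s) / 2 + (N : ℂ) ^ (1 - s) / (s - 1) + s * (N : ℂ) ^ (-s - 1) / 12

noncomputable def emF (N : ℝ) (s : ℂ) (x : ℝ) : ℂ :=
  (((x - N) ^ 2 * (1 - (x - N)) ^ 2 : ℝ) : ℂ) * (-(s * (s + 1) * (s + 2)) * (x : ℂ) ^ (-s - 3))
  - ((2 * (x - N) * (1 - (x - N)) * (1 - 2 * (x - N)) : ℝ) : ℂ) * (s * (s + 1) * (x : ℂ) ^ (-s - 2))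
  + ((2 - 12 * (x - N) + 12 * (x - N) ^ 2 : ℝ) : ℂ) * (-s * (x : ℂ) ^ (-s - 1))
  - ((-12 + 24 * (x - N) : ℝ) : ℂ) * (x : ℂ) ^ (-s)
  + 24 * ((x : ℂ) ^ (1 - s) / (1 - s))

lemma emF_deriv (N : ℝ) (s : ℂ) (hs1 : s ≠ 1) {x : ℝ} (hx : 0 < x) :
    HasDerivAt (emF N s) ((((x - N) ^ 2 * (1 - (x - N)) ^ 2 : ℝ) : ℂ) *
      (s * (s + 1) * (s + 2) * (s + 3) * (x : ℂ) ^ (-s - 4))) x := by
  have d1 : HasDerivAt (fun x : ℝ => (((x - N) ^ 2 * (1 - (x - N)) ^ 2 : ℝ) : ℂ))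
      ((2 * (x - N) * (1 - (x - N)) * (1 - 2 * (x - N)) : ℝ) : ℂ) x := by
    have h : HasDerivAt (fun x : ℝ => (x - N) ^ 2 * (1 - (x - N)) ^ 2)
        (2 * (x - N) * (1 - (x - N)) * (1 - 2 * (x - N))) x := by
      have h1 := (((hasDerivAt_id x).sub_const N).pow 2).mul
        ((((hasDerivAt_id x).sub_const N).const_sub 1).pow 2)
      refine h1.congr_deriv ?_
      simp
      ring
    exact h.ofReal_comp
  have d2 : HasDerivAt (fun x : ℝ => ((2 * (x - N) * (1 - (x - N)) * (1 - 2 * (x - N)) : ℝ) : ℂ))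
      ((2 - 12 * (x - N) + 12 * (x - N) ^ 2 : ℝ) : ℂ) x := by
    have h : HasDerivAt (fun x : ℝ => 2 * (x - N) * (1 - (x - N)) * (1 - 2 * (x - N)))
        (2 - 12 * (x - N) + 12 * (x - N) ^ 2) x := by
      have h0 := (hasDerivAt_id x).sub_const N
      have h1 := ((h0.const_mul 2).mul (h0.const_sub 1)).mul ((h0.const_mul 2).const_sub 1)
      refine h1.congr_deriv ?_
      simp
      ring
    exact h.ofReal_comp
  have d3 : HasDerivAt (fun x : ℝ => ((2 - 12 * (x - N) + 12 * (x - N) ^ 2 : ℝ) : ℂ))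
      ((-12 + 24 * (x - N) : ℝ) : ℂ) x := by
    have h : HasDerivAt (fun x : ℝ => 2 - 12 * (x - N) + 12 * (x - N) ^ 2)
        (-12 + 24 * (x - N)) x := by
      have h0 := (hasDerivAt_id x).sub_const N
      have h1 := ((h0.const_mul 12).const_sub 2).add ((h0.pow 2).const_mul 12)
      refine h1.congr_deriv ?_
      simp
      ring
    exact h.ofReal_comp
  have d4 : HasDerivAt (fun x : ℝ => ((-12 + 24 * (x - N) : ℝ) : ℂ)) ((24 : ℝ) : ℂ) x := by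
    have h : HasDerivAt (fun x : ℝ => -12 + 24 * (x - N)) 24 x := by
      have h0 := (hasDerivAt_id x).sub_const N
      have h1 := (h0.const_mul 24).const_add (-12)
      refine h1.congr_deriv ?_
      simp
    exact h.ofReal_comp
  have c3 := (hasDerivAt_cp (-s - 3) hx).const_mul (-(s * (s + 1) * (s + 2)))
  have c2 := (hasDerivAt_cp (-s - 2) hx).const_mul (s * (s + 1))
  have c1 := (hasDerivAt_cp (-s - 1) hx).const_mul (-s)
  have c0 := hasDerivAt_cp (-s) hx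
  have cm := ((hasDerivAt_cp (1 - s) hx).div_const (1 - s)).const_mul (24 : ℂ)
  have h := ((((d1.mul c3).sub (d2.mul c2)).add (d3.mul c1)).sub (d4.mul c0)).add cm
  refine h.congr_deriv ?_
  have hne : 1 - s ≠ 0 := sub_ne_zero.2 hs1.symm
  have e1 : -s - 3 - 1 = -s - 4 := by ring
  have e2 : -s - 2 - 1 = -s - 3 := by ring
  have e3 : -s - 1 - 1 = -s - 2 := by ring
  have e4 : (1:ℂ) - s - 1 = -s := by ring
  rw [e1, e2, e3, e4]
  generalize (x : ℂ) ^ (-s - 4) = A4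
  generalize (x : ℂ) ^ (-s - 3) = A3
  generalize (x : ℂ) ^ (-s - 2) = A2
  generalize (x : ℂ) ^ (-s - 1) = A1
  generalize (x : ℂ) ^ (-s) = A0
  push_cast
  field_simp
  ring

lemma emE_step (N : ℕ) (hN : 1 ≤ N) (s : ℂ) (hs1 : s ≠ 1) :
    emE (N + 1) s - emE N s = -(1/24) * (s * (s + 1) * (s + 2) * (s + 3) *
      ∫ x in (N : ℝ)..(N + 1 : ℝ), (((x - N) ^ 2 * (1 - (x - N)) ^ 2 : ℝ) : ℂ) * (x : ℂ) ^ (-s - 4)) := by
  have hN0 : (0:ℝ) < N := by exact_mod_cast hN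
  have hle : (N:ℝ) ≤ (N:ℝ) + 1 := by linarith
  have hI : ∫ x in (N : ℝ)..(N + 1 : ℝ), ((((x - N) ^ 2 * (1 - (x - N)) ^ 2 : ℝ) : ℂ) *
      (s * (s + 1) * (s + 2) * (s + 3) * (x : ℂ) ^ (-s - 4))) = emF N s (N + 1) - emF N s N := by
    apply intervalIntegral.integral_eq_sub_of_hasDerivAt
    · intro x hx
      rw [Set.uIcc_of_le hle] at hx
      exact emF_deriv N s hs1 (lt_of_lt_of_le hN0 hx.1)
    · apply ContinuousOn.intervalIntegrable
      rw [Set.uIcc_of_le hle]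
      apply ContinuousOn.mul
      · fun_prop
      · apply ContinuousOn.mul continuousOn_const
        intro x hx
        exact ((hasDerivAt_cp (-s - 4) (lt_of_lt_of_le hN0 hx.1)).continuousAt).continuousWithinAt
  have hI2 : s * (s + 1) * (s + 2) * (s + 3) *
      ∫ x in (N : ℝ)..(N + 1 : ℝ), (((x - N) ^ 2 * (1 - (x - N)) ^ 2 : ℝ) : ℂ) * (x : ℂ) ^ (-s - 4) =
      emF N s (N + 1) - emF N s N := by
    rw [← hI, ← intervalIntegral.integral_const_mul]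
    apply intervalIntegral.integral_congr
    intro x _
    simp only
    ring
  rw [hI2]
  have hd : ZU.DN (N + 1) s = ZU.DN N s + ((N:ℂ) + 1) ^ (-s) := by
    unfold ZU.DN
    rw [Finset.sum_Icc_succ_top (by omega)]
    push_cast
    rfl
  have hne : s - 1 ≠ 0 := sub_ne_zero.2 hs1
  have hne' : 1 - s ≠ 0 := sub_ne_zero.2 hs1.symm
  unfold emE emF
  rw [hd]
  push_cast
  have e0 : (N:ℝ) + 1 - N = 1 := by ring
  have e1 : (N:ℂ) + 1 - N = 1 := by ring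
  rw [e1]
  simp only [sub_self]
  generalize ((N:ℂ) + 1) ^ (-s - 3) = A3
  generalize ((N:ℂ) + 1) ^ (-s - 2) = A2
  generalize ((N:ℂ) + 1) ^ (-s - 1) = A1
  generalize ((N:ℂ) + 1) ^ (-s) = A0
  generalize ((N:ℂ) + 1) ^ (1-s) = Am
  generalize ((N:ℂ)) ^ (-s - 3) = B3
  generalize ((N:ℂ)) ^ (-s - 2) = B2
  generalize ((N:ℂ)) ^ (-s - 1) = B1
  generalize ((N:ℂ)) ^ (-s) = B0
  generalize ((N:ℂ)) ^ (1-s) = Bm
  have e2 : Am / (1 - s) = - (Am / (s - 1)) := by rw [← div_neg, neg_sub]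
  have e3 : Bm / (1 - s) = - (Bm / (s - 1)) := by rw [← div_neg, neg_sub]
  rw [e2, e3]
  ring

lemma int_p (N : ℝ) : ∫ x in N..(N + 1), (x - N) ^ 2 * (1 - (x - N)) ^ 2 = 1 / 30 := by
  have h : ∀ x ∈ Set.uIcc N (N + 1), HasDerivAt
      (fun x : ℝ => (x - N) ^ 3 / 3 - (x - N) ^ 4 / 2 + (x - N) ^ 5 / 5)
      ((x - N) ^ 2 * (1 - (x - N)) ^ 2) x := by
    intro x _
    have h0 := (hasDerivAt_id x).sub_const N
    have h1 := (((h0.pow 3).div_const 3).sub ((h0.pow 4).div_const 2)).add ((h0.pow 5).div_const 5)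
    refine h1.congr_deriv ?_
    simp
    ring
  rw [intervalIntegral.integral_eq_sub_of_hasDerivAt h (by
    apply Continuous.intervalIntegrable; fun_prop)]
  norm_num

lemma norm_step_le (N : ℕ) (hN : 1 ≤ N) (s : ℂ) (hs : 0 ≤ s.re) (hs1 : s ≠ 1) :
    ‖emE (N + 1) s - emE N s‖ ≤ ‖s * (s + 1) * (s + 2) * (s + 3)‖ / 720 *
      ((N : ℝ) ^ (-s.re) / (N : ℝ) ^ 4) := by
  have hN0 : (0:ℝ) < N := by exact_mod_cast hN
  have hle : (N:ℝ) ≤ (N:ℝ) + 1 := by linarith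
  rw [emE_step N hN s hs1, norm_mul, norm_mul _ (∫ _ in _.._, _)]
  have hb : ∀ x ∈ Set.Ioc (N:ℝ) (N + 1), ‖(((x - N) ^ 2 * (1 - (x - N)) ^ 2 : ℝ) : ℂ) *
      (x : ℂ) ^ (-s - 4)‖ ≤ ((x - N) ^ 2 * (1 - (x - N)) ^ 2) * ((N : ℝ) ^ (-s.re) / (N : ℝ) ^ 4) := by
    intro x hx
    have hx0 : 0 < x := lt_trans hN0 hx.1
    rw [norm_mul, Complex.norm_real, Real.norm_eq_abs, abs_of_nonneg (by positivity),
      Complex.norm_cpow_eq_rpow_re_of_pos hx0]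
    apply mul_le_mul_of_nonneg_left _ (by positivity)
    have e : (-s - 4).re = -s.re - 4 := by simp
    rw [e]
    have h1 : x ^ (-s.re - 4) ≤ (N:ℝ) ^ (-s.re - 4) :=
      Real.rpow_le_rpow_of_nonpos hN0 hx.1.le (by linarith)
    refine h1.trans (le_of_eq ?_)
    rw [Real.rpow_sub hN0]
    norm_cast
  have h := intervalIntegral.norm_integral_le_of_norm_le (μ := volume) hle
    (ae_of_all _ hb) (by apply Continuous.intervalIntegrable; fun_prop)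
  rw [intervalIntegral.integral_mul_const, int_p] at h
  calc _ ≤ ‖(-(1/24) : ℂ)‖ * (‖s * (s + 1) * (s + 2) * (s + 3)‖ *
      (1 / 30 * ((N : ℝ) ^ (-s.re) / (N : ℝ) ^ 4))) := by gcongr
    _ = _ := by
      rw [norm_neg]
      norm_num
      ring

lemma sum_le (N K : ℕ) (hN : 2 ≤ N) (hK : N ≤ K) (s : ℂ) (hs : 0 ≤ s.re) (hs1 : s ≠ 1) :
    ‖emE K s - emE N s‖ ≤ ‖s * (s + 1) * (s + 2) * (s + 3)‖ / 720 * (N : ℝ) ^ (-s.re) *
      (1 / (3 * ((N : ℝ) - 1) ^ 3) - 1 / (3 * ((K : ℝ) - 1) ^ 3)) := by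
  induction K, hK using Nat.le_induction with
  | base => simp
  | succ K hK ih =>
    have h1 := norm_step_le K (by omega) s hs hs1
    have hN0 : (2:ℝ) ≤ N := by exact_mod_cast hN
    have hK0 : (N:ℝ) ≤ K := by exact_mod_cast hK
    have h2 : (K : ℝ) ^ (-s.re) ≤ (N:ℝ) ^ (-s.re) :=
      Real.rpow_le_rpow_of_nonpos (by linarith) hK0 (by linarith)
    have h3 : 1 / (K:ℝ) ^ 4 ≤ 1 / (3 * ((K : ℝ) - 1) ^ 3) - 1 / (3 * (K : ℝ) ^ 3) := by
      have hk1 : (0:ℝ) < K - 1 := by linarith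
      have hk0 : (0:ℝ) < K := by linarith
      rw [div_sub_div _ _ (by positivity) (by positivity), div_le_div_iff₀ (by positivity) (by positivity)]
      have e : (K:ℝ) = (K - 1) + 1 := by ring
      set y := (K:ℝ) - 1 with hy
      rw [e]
      ring_nf
      nlinarith [pow_pos hk1 2, pow_pos hk1 3, pow_pos hk1 4, pow_pos hk1 5, pow_pos hk1 6]
    have hfin : ‖emE (K + 1) s - emE N s‖ ≤ ‖emE K s - emE N s‖ + ‖emE (K + 1) s - emE K s‖ := by
      have : emE (K + 1) s - emE N s = (emE K s - emE N s) + (emE (K + 1) s - emE K s) := by ring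
      rw [this]; exact norm_add_le _ _
    have h4 : (K : ℝ) ^ (-s.re) / (K:ℝ) ^ 4 ≤ (N:ℝ) ^ (-s.re) *
        (1 / (3 * ((K : ℝ) - 1) ^ 3) - 1 / (3 * (K : ℝ) ^ 3)) := by
      have h5 : (0:ℝ) ≤ (N:ℝ) ^ (-s.re) := Real.rpow_nonneg (by linarith) _
      calc (K : ℝ) ^ (-s.re) / (K:ℝ) ^ 4 = (K : ℝ) ^ (-s.re) * (1 / (K:ℝ) ^ 4) := by ring
        _ ≤ (N:ℝ) ^ (-s.re) * (1 / (K:ℝ) ^ 4) := by gcongr
        _ ≤ _ := by gcongr
    have h6 : ‖emE (K + 1) s - emE K s‖ ≤ ‖s * (s + 1) * (s + 2) * (s + 3)‖ / 720 *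
        ((N:ℝ) ^ (-s.re) * (1 / (3 * ((K : ℝ) - 1) ^ 3) - 1 / (3 * (K : ℝ) ^ 3))) :=
      h1.trans (by gcongr)
    refine hfin.trans ((add_le_add ih h6).trans (le_of_eq ?_))
    push_cast
    rw [add_sub_cancel_right]
    ring

lemma tendsto_emE (s : ℂ) (hs : 0 < s.re) (hs1 : s ≠ 1) :
    Tendsto (fun N : ℕ => emE N s) atTop (𝓝 (riemannZeta s)) := by
  have h0 : ∀ c : ℂ, c.re < 0 → Tendsto (fun N : ℕ => (N : ℂ) ^ c) atTop (𝓝 0) := by
    intro c hc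
    rw [tendsto_zero_iff_norm_tendsto_zero]
    have h1 : Tendsto (fun N : ℕ => ((N : ℕ) : ℝ) ^ c.re) atTop (𝓝 0) := by
      have := (tendsto_rpow_neg_atTop (y := -c.re) (by linarith)).comp tendsto_natCast_atTop_atTop
      simpa [Function.comp_def] using this
    refine h1.congr' ?_
    filter_upwards [eventually_gt_atTop 0] with N hN
    rw [Complex.norm_natCast_cpow_of_pos hN]
  have hint : Tendsto (fun N : ℕ => ∫ u in Set.Ioi (N : ℝ), ((Int.fract u : ℝ) : ℂ) * (u : ℂ) ^ (-s - 1))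
      atTop (𝓝 0) := by
    have hi := ZU.J_a1.zf_int 1 one_pos s hs
    have h1 : Tendsto (fun N : ℕ => ∫ u in (1:ℝ)..(N:ℝ), ((Int.fract u : ℝ) : ℂ) * (u : ℂ) ^ (-s - 1))
      atTop (𝓝 (∫ u in Set.Ioi (1 : ℝ), ((Int.fract u : ℝ) : ℂ) * (u : ℂ) ^ (-s - 1))) :=
      intervalIntegral_tendsto_integral_Ioi 1 hi tendsto_natCast_atTop_atTop
    have h2 := (tendsto_const_nhds (x := ∫ u in Set.Ioi (1 : ℝ), ((Int.fract u : ℝ) : ℂ) *
      (u : ℂ) ^ (-s - 1))).sub h1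
    rw [sub_self] at h2
    refine h2.congr' ?_
    filter_upwards [eventually_ge_atTop 1] with N hN
    have hN1 : (1:ℝ) ≤ N := by exact_mod_cast hN
    have h3 := intervalIntegral.integral_interval_add_Ioi hi
      (hi.mono_set (Set.Ioi_subset_Ioi hN1))
    rw [← h3]
    ring
  have hz : ∀ᶠ N : ℕ in atTop, riemannZeta s - (N : ℂ) ^ (-s) / 2 + s * (N : ℂ) ^ (-s - 1) / 12 +
      s * ∫ u in Set.Ioi (N : ℝ), ((Int.fract u : ℝ) : ℂ) * (u : ℂ) ^ (-s - 1) = emE N s := by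
    filter_upwards [eventually_ge_atTop 1] with N hN
    rw [ZU.zeta_formula N hN s hs hs1]
    unfold emE
    ring
  have h1 := h0 (-s) (by simpa using hs)
  have h2 := h0 (-s - 1) (by simp; linarith)
  have h3 := (((tendsto_const_nhds (x := riemannZeta s)).sub (h1.div_const 2)).add
    ((h2.const_mul s).div_const 12)).add (hint.const_mul s)
  simp only [zero_div, mul_zero, sub_zero, add_zero] at h3
  exact h3.congr' hz

theorem zeta_em (N : ℕ) (hN : 2 ≤ N) (s : ℂ) (hs : 0 < s.re) (hs1 : s ≠ 1) :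
    ‖riemannZeta s - emE N s‖ ≤ ‖s * (s + 1) * (s + 2) * (s + 3)‖ / 720 * (N : ℝ) ^ (-s.re) *
      (1 / (3 * ((N : ℝ) - 1) ^ 3)) := by
  have hN0 : (2:ℝ) ≤ N := by exact_mod_cast hN
  have h1 : Tendsto (fun K : ℕ => ‖emE K s - emE N s‖) atTop (𝓝 ‖riemannZeta s - emE N s‖) :=
    ((tendsto_emE s hs hs1).sub_const _).norm
  refine le_of_tendsto h1 ?_
  filter_upwards [eventually_ge_atTop N] with K hK
  refine (sum_le N K hN hK s hs.le hs1).trans ?_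
  have hK0 : (N:ℝ) ≤ K := by exact_mod_cast hK
  have h2 : 0 ≤ 1 / (3 * ((K : ℝ) - 1) ^ 3) := by
    have : 0 < (K:ℝ) - 1 := by linarith
    positivity
  have h5 : (0:ℝ) ≤ (N:ℝ) ^ (-s.re) := Real.rpow_nonneg (by linarith) _
  gcongr
  linarith

end Pool.Agent.H401R2
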