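import Mathlib

set_option autoImplicit false

/-!
# Fixed point evaluation of `∑ n^(-s) (log n)^w` in the kernel (scale `2^60`)
-/

namespace Pool.Agent.H401R2.Ker

/-- forces the evaluation of a natural number before continuing -/
def frc {α : Type} (n : ℕ) (f : ℕ → α) : α :=
  Nat.rec (f 0) (fun k _ => f (Nat.succ k)) n

theorem frc_eq {α : Type} (n : ℕ) (f : ℕ → α) : frc n f = f n := by cases n <;> rfl

/-- one Horner step `U - x C / (d U)` with `U = 2^60` -/
def stepN (x d C : ℕ) : ℕ :=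
  Nat.sub 1152921504606846976 (Nat.div (Nat.mul x C) (Nat.mul d 1152921504606846976))

def cosN (x : ℕ) : ℕ :=
  stepN x 2 (stepN x 12 (stepN x 30 (stepN x 56 (stepN x 90 (stepN x 132 1152921504606846976)))))

def sinN (x : ℕ) : ℕ :=
  stepN x 6 (stepN x 20 (stepN x 42 (stepN x 72 (stepN x 110 (stepN x 156 1152921504606846976)))))

def expN (y : ℕ) : ℕ :=
  stepN y 1 (stepN y 2 (stepN y 3 (stepN y 4 (stepN y 5 (stepN y 6 (stepN y 7 1152921504606846976))))))

def mulN (a b : ℕ) : ℕ := Nat.div (Nat.mul a b) 1152921504606846976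

def incAux (m2 : ℕ) : ℕ → ℕ → ℕ → ℕ
  | 0, _, _ => 0
  | (k+1), q, d => Nat.add (Nat.div q d) (frc (Nat.div q m2) fun q' => incAux m2 k q' (Nat.succ (Nat.succ d)))

/-- increment of the logarithm from `n` to `n+1` -/
def incN (n : ℕ) : ℕ :=
  frc (Nat.succ (Nat.mul 2 n)) fun m => frc (Nat.mul m m) fun m2 =>
  frc (Nat.div 2305843009213693952 m) fun q => incAux m2 (Nat.rec 5 (fun _ _ => 20) (Nat.sub 16 n)) q 1

def wtN (L e : ℕ) (w : ℕ) : ℕ := Nat.rec e (fun _ ih => mulN ih L) w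

/-- amplitude `n^(-σ) (log n)^w` from `L = log n` -/
def ampN (sn sd w L : ℕ) : ℕ :=
  frc (Nat.div (Nat.mul sn L) (Nat.mul sd 32)) fun y =>
  frc (expN y) fun e => frc (mulN e e) fun e => frc (mulN e e) fun e => frc (mulN e e) fun e =>
  frc (mulN e e) fun e => wtN L (mulN e e) w

def loop (tn td sn sd w : ℕ) : ℕ → ℕ → ℕ → ℕ → ℕ → ℕ → ℕ → ℕ × ℕ × ℕ × ℕ × ℕ
  | 0, _, L, xp, xn, yp, yn => (L, xp, xn, yp, yn)
  | (k+1), n, L, xp, xn, yp, yn =>
    frc (Nat.div (Nat.mul tn L) td) fun φ =>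
    frc (Nat.mod φ 1811004864519280710) fun r =>
    frc (mulN r r) fun x2 =>
    frc (ampN sn sd w L) fun e =>
    frc (mulN e (cosN x2)) fun c =>
    frc (mulN e (mulN r (sinN x2))) fun s =>
    frc (Nat.add L (incN n)) fun L' =>
    frc (Nat.succ n) fun n' =>
    Nat.rec
      (frc (Nat.add xp c) fun xp => frc (Nat.add yn s) fun yn => loop tn td sn sd w k n' L' xp xn yp yn)
      (fun q1 _ => Nat.rec
        (frc (Nat.add xn s) fun xn => frc (Nat.add yn c) fun yn => loop tn td sn sd w k n' L' xp xn yp yn)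
        (fun q2 _ => Nat.rec
          (frc (Nat.add xn c) fun xn => frc (Nat.add yp s) fun yp => loop tn td sn sd w k n' L' xp xn yp yn)
          (fun _ _ => (frc (Nat.add xp s) fun xp => frc (Nat.add yp c) fun yp => loop tn td sn sd w k n' L' xp xn yp yn)) q2) q1)
      (Nat.mod (Nat.div φ 1811004864519280710) 4)

end Pool.Agent.H401R2.Ker
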