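import Pool.Agent.H401R2.KerTerm

set_option autoImplicit false

namespace Pool.Agent.H401R2.Ker

open Finset Complex

lemma exp_step {x C d : ℕ} {y c u : ℝ} (hd : 1 ≤ d) (hy0 : 0 ≤ y) (hy : y ≤ 0.25)
    (hu4 : 4 * ulp ≤ u) (hx : |hat x - y| ≤ u) (hc0 : 0 ≤ c) (hc1 : c ≤ 1)
    (hC : |hat C - c| ≤ 2 * u) (hC1 : hat C ≤ 1) :
    |hat (stepN x d C) - (1 - y / d * c)| ≤ 2 * u ∧ 0 ≤ 1 - y / d * c ∧ 1 - y / d * c ≤ 1 ∧
      hat (stepN x d C) ≤ 1 := by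
  have hd' : (1:ℝ) ≤ d := by exact_mod_cast hd
  have hyd : y / d ≤ 1 := by rw [div_le_one (by linarith)]; linarith
  have hyd0 : 0 ≤ y / d := by positivity
  have h0 : 0 ≤ 1 - y / d * c := by
    have : y / d * c ≤ 1 * 1 := by gcongr
    linarith
  have h1 : 1 - y / d * c ≤ 1 := by
    have : 0 ≤ y / d * c := by positivity
    linarith
  have hu := ulp_pos
  have h := step_err (x := x) (C := C) (d := d) (y := y) (c := c) (ux := u) (e := 2 * u)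
    (t := 1 - y / d * c) (δ := 0) (by omega) hx hC hC1 hy0 h0 (by
      rw [show 1 - y * c / d - (1 - y / d * c) = 0 by ring]; simp)
  refine ⟨h.trans ?_, h0, h1, step_le _ _ _⟩
  have : (u + y * (2 * u)) / d ≤ 1.5 * u := by
    rw [div_le_iff₀ (by linarith)]
    nlinarith
  linarith

lemma expN_err {x : ℕ} {y u : ℝ} (hy0 : 0 ≤ y) (hy : y ≤ 0.21)
    (hu4 : 4 * ulp ≤ u) (hu1 : u ≤ 1e-13) (hx : |hat x - y| ≤ u) :
    |hat (expN x) - Real.exp (-y)| ≤ 1.1e-10 := by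
  have hu := ulp_pos
  have hy' : y ≤ 0.25 := by linarith
  have h0 : |hat 1152921504606846976 - 1| ≤ 2 * u ∧ (0:ℝ) ≤ 1 ∧ (1:ℝ) ≤ 1 ∧ hat 1152921504606846976 ≤ 1 := by
    rw [hat_U]
    refine ⟨?_, by norm_num, by norm_num, by norm_num⟩
    simp; linarith
  have h1 := exp_step (d := 7) (by norm_num) hy0 hy' hu4 hx h0.2.1 h0.2.2.1 h0.1 h0.2.2.2
  have h2 := exp_step (d := 6) (by norm_num) hy0 hy' hu4 hx h1.2.1 h1.2.2.1 h1.1 h1.2.2.2
  have h3 := exp_step (d := 5) (by norm_num) hy0 hy' hu4 hx h2.2.1 h2.2.2.1 h2.1 h2.2.2.2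
  have h4 := exp_step (d := 4) (by norm_num) hy0 hy' hu4 hx h3.2.1 h3.2.2.1 h3.1 h3.2.2.2
  have h5 := exp_step (d := 3) (by norm_num) hy0 hy' hu4 hx h4.2.1 h4.2.2.1 h4.1 h4.2.2.2
  have h6 := exp_step (d := 2) (by norm_num) hy0 hy' hu4 hx h5.2.1 h5.2.2.1 h5.1 h5.2.2.2
  have h7 := exp_step (d := 1) (by norm_num) hy0 hy' hu4 hx h6.2.1 h6.2.2.1 h6.1 h6.2.2.2
  have e : ∑ m ∈ range 8, (-y) ^ m / (m.factorial : ℝ) =
    (1 - y / ((1:ℕ):ℝ) * (1 - y / ((2:ℕ):ℝ) * (1 - y / ((3:ℕ):ℝ) * (1 - y / ((4:ℕ):ℝ) *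
      (1 - y / ((5:ℕ):ℝ) * (1 - y / ((6:ℕ):ℝ) * (1 - y / ((7:ℕ):ℝ) * 1))))))) := by
    simp only [sum_range_succ, sum_range_zero, Nat.factorial]
    push_cast
    ring
  rw [← e] at h7
  have h8 : |hat (expN x) - ∑ m ∈ range 8, (-y) ^ m / (m.factorial : ℝ)| ≤ 2 * u := h7.1
  have h9 := Real.exp_bound (x := -y) (by rw [abs_neg, abs_of_nonneg hy0]; linarith) (n := 8) (by norm_num)
  rw [abs_neg, abs_of_nonneg hy0] at h9
  have h10 : y ^ 8 * (((Nat.succ 8 : ℕ) : ℝ) / (((Nat.factorial 8 : ℕ) : ℝ) * ((8:ℕ):ℝ))) ≤ 1.06e-10 := by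
    have h3 : ((Nat.factorial 8 : ℕ) : ℝ) = 40320 := by norm_num [Nat.factorial]
    rw [h3]
    calc y ^ 8 * (((Nat.succ 8 : ℕ) : ℝ) / (40320 * ((8:ℕ):ℝ))) ≤ 0.21 ^ 8 * (((Nat.succ 8 : ℕ) : ℝ) / (40320 * ((8:ℕ):ℝ))) := by gcongr
      _ ≤ 1.06e-10 := by norm_num
  have e2 : hat (expN x) - Real.exp (-y) = (hat (expN x) - ∑ m ∈ range 8, (-y) ^ m / (m.factorial : ℝ)) -
      (Real.exp (-y) - ∑ m ∈ range 8, (-y) ^ m / (m.factorial : ℝ)) := by ring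
  rw [e2]
  refine (abs_sub _ _).trans ?_
  norm_num at h9 h10 hu1 h8 ⊢
  linarith

lemma sq_err {a : ℕ} {x e f : ℝ} (hx0 : 0 ≤ x) (hx1 : x ≤ 1) (ha : |hat a - x| ≤ e)
    (hf : 2 * e + e ^ 2 + 1e-18 ≤ f) : |hat (mulN a a) - x ^ 2| ≤ f := by
  have h := mulN_err ha ha
  have he : 0 ≤ e := (abs_nonneg _).trans ha
  rw [abs_of_nonneg hx0] at h
  rw [pow_two]
  refine h.trans (le_trans ?_ hf)
  have := ulp_le
  nlinarith

lemma amp0_err {y0 : ℕ} {y u : ℝ} (hy0 : 0 ≤ y) (hy : y ≤ 0.21)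
    (hu4 : 4 * ulp ≤ u) (hu1 : u ≤ 1e-13) (hx : |hat y0 - y| ≤ u) :
    |hat (mulN (mulN (mulN (mulN (mulN (expN y0) (expN y0)) (mulN (expN y0) (expN y0)))
       (mulN (mulN (expN y0) (expN y0)) (mulN (expN y0) (expN y0))))
       (mulN (mulN (mulN (expN y0) (expN y0)) (mulN (expN y0) (expN y0)))
       (mulN (mulN (expN y0) (expN y0)) (mulN (expN y0) (expN y0)))))
       (mulN (mulN (mulN (mulN (expN y0) (expN y0)) (mulN (expN y0) (expN y0)))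
       (mulN (mulN (expN y0) (expN y0)) (mulN (expN y0) (expN y0))))
       (mulN (mulN (mulN (expN y0) (expN y0)) (mulN (expN y0) (expN y0)))
       (mulN (mulN (expN y0) (expN y0)) (mulN (expN y0) (expN y0)))))) - Real.exp (-(32 * y))| ≤ 3.9e-9 := by
  have h0 := expN_err hy0 hy hu4 hu1 hx
  have p0 : 0 ≤ Real.exp (-y) := (Real.exp_pos _).le
  have p1 : Real.exp (-y) ≤ 1 := Real.exp_le_one_iff.mpr (by linarith)
  have h1 := sq_err p0 p1 h0 (f := 2.3e-10) (by norm_num)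
  have h2 := sq_err (by positivity) (pow_le_one₀ p0 p1) h1 (f := 4.7e-10) (by norm_num)
  have h3 := sq_err (by positivity) (pow_le_one₀ (by positivity) (pow_le_one₀ p0 p1)) h2 (f := 9.5e-10) (by norm_num)
  have h4 := sq_err (by positivity) (pow_le_one₀ (by positivity) (pow_le_one₀ (by positivity) (pow_le_one₀ p0 p1))) h3 (f := 1.92e-9) (by norm_num)
  have h5 := sq_err (by positivity) (pow_le_one₀ (by positivity) (pow_le_one₀ (by positivity) (pow_le_one₀ (by positivity) (pow_le_one₀ p0 p1)))) h4 (f := 3.9e-9) (by norm_num)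
  have e : Real.exp (-(32 * y)) = ((((Real.exp (-y) ^ 2) ^ 2) ^ 2) ^ 2) ^ 2 := by
    rw [← pow_mul, ← pow_mul, ← pow_mul, ← pow_mul, ← Real.exp_nat_mul]
    norm_num
  rw [e]
  exact h5

lemma wt_err {L e : ℕ} {l A : ℝ} (hl0 : 0 ≤ l) (hl : l ≤ 8.2) (hA0 : 0 ≤ A) (hA1 : A ≤ 1)
    (hL : |hat L - l| ≤ 3e-13) (he : |hat e - A| ≤ 4e-9) (w : ℕ) :
    |hat (wtN L e w) - A * l ^ w| ≤ 4e-9 * 9 ^ w := by
  induction w with
  | zero =>
    simpa [wtN] using he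
  | succ w ih =>
    have e1 : wtN L e (w + 1) = mulN (wtN L e w) L := rfl
    rw [e1]
    have h := mulN_err ih hL
    rw [abs_of_nonneg hl0, abs_of_nonneg (show 0 ≤ A * l ^ w by positivity)] at h
    have e2 : A * l ^ (w + 1) = A * l ^ w * l := by ring
    rw [e2]
    refine h.trans ?_
    have h9 : (1:ℝ) ≤ 9 ^ w := one_le_pow₀ (by norm_num)
    have h10 : A * l ^ w ≤ 9 ^ w := by
      calc A * l ^ w ≤ 1 * 9 ^ w := by
            gcongr
            linarith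
        _ = 9 ^ w := one_mul _
    have h11 := ulp_le
    have e3 : (9:ℝ) ^ (w + 1) = 9 ^ w * 9 := pow_succ _ _
    rw [e3]
    norm_num at h11 hl ⊢
    nlinarith

lemma log_bound {n : ℕ} (h1 : 1 ≤ n) (hn : n ≤ 3000) : 0 ≤ Real.log n ∧ Real.log n ≤ 8.2 := by
  have h1' : (1:ℝ) ≤ n := by exact_mod_cast h1
  have h2' : (n:ℝ) ≤ 3000 := by exact_mod_cast hn
  refine ⟨Real.log_nonneg h1', ?_⟩
  rw [Real.log_le_iff_le_exp (by linarith)]
  refine h2'.trans ?_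
  have e1 : Real.exp 8.2 = Real.exp 1 ^ 8 * Real.exp 0.2 := by
    rw [← Real.exp_nat_mul, ← Real.exp_add]; norm_num
  have h3 := Real.exp_one_gt_d9
  have h4 : (2.7182818283:ℝ) ^ 8 ≤ Real.exp 1 ^ 8 := by gcongr
  have h5 : (0.2:ℝ) + 1 ≤ Real.exp 0.2 := Real.add_one_le_exp _
  rw [e1]
  calc (3000:ℝ) ≤ 2.7182818283 ^ 8 * (0.2 + 1) := by norm_num
    _ ≤ _ := by gcongr

lemma Ls_err' {n : ℕ} (h1 : 1 ≤ n) (hn : n ≤ 3001) : |hat (Ls n) - Real.log n| ≤ 3e5 * ulp := by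
  refine (Ls_err h1).trans ?_
  have h2' : (n:ℝ) ≤ 3001 := by exact_mod_cast hn
  have := ulp_pos
  nlinarith

lemma amp_err {sn sd w n : ℕ} (hsd : 0 < sd) (hs : (sn:ℝ) / sd ≤ 0.815) (h1 : 1 ≤ n) (hn : n ≤ 3000) :
    |hat (ampN sn sd w (Ls n)) - (n:ℝ) ^ (-((sn:ℝ) / sd)) * Real.log n ^ w| ≤ 4e-9 * 9 ^ w := by
  obtain ⟨l0, l1⟩ := log_bound h1 hn
  have hL := Ls_err' h1 (hn.trans (by norm_num))
  have hu := ulp_pos
  have hu' := ulp_le
  have hn0 : (0:ℝ) < n := by exact_mod_cast h1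
  simp only [ampN, frc_eq]
  set σ : ℝ := (sn:ℝ) / sd with hσ
  have hσ0 : 0 ≤ σ := by positivity
  set y0 := Nat.div (Nat.mul sn (Ls n)) (Nat.mul sd 32) with hy0
  have hsd' : (0:ℝ) < sd := by exact_mod_cast hsd
  obtain ⟨d1, d2⟩ := hat_div (Nat.mul sn (Ls n)) (Nat.mul sd 32) (by rw [Nat.mul_eq]; positivity)
  have e1 : hat (Nat.mul sn (Ls n)) / ((Nat.mul sd 32 : ℕ) : ℝ) = σ * hat (Ls n) / 32 := by
    unfold hat; rw [Nat.mul_eq, Nat.mul_eq, hσ]; push_cast; field_simp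
  rw [e1, ← hy0] at d1 d2
  have hx : |hat y0 - σ * Real.log n / 32| ≤ 1e4 * ulp := by
    have h2 : |σ * hat (Ls n) / 32 - σ * Real.log n / 32| ≤ 0.815 * (3e5 * ulp) / 32 := by
      rw [← sub_div, ← mul_sub, abs_div, abs_mul, abs_of_nonneg hσ0]
      rw [show |(32:ℝ)| = 32 by norm_num]
      gcongr
    have h3 : |hat y0 - σ * hat (Ls n) / 32| ≤ ulp := by rw [abs_le]; constructor <;> linarith
    have e2 : hat y0 - σ * Real.log n / 32 = (hat y0 - σ * hat (Ls n) / 32) + (σ * hat (Ls n) / 32 - σ * Real.log n / 32) := by ring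
    rw [e2]
    refine (abs_add_le _ _).trans ?_
    norm_num at h2 ⊢
    linarith
  have h := amp0_err (y0 := y0) (y := σ * Real.log n / 32) (u := 1e4 * ulp) (by positivity) (by
      have : σ * Real.log n ≤ 0.815 * 8.2 := by gcongr
      norm_num at this ⊢
      linarith) (by nlinarith) (by norm_num at hu' ⊢; linarith) hx
  have e3 : Real.exp (-(32 * (σ * Real.log n / 32))) = (n:ℝ) ^ (-σ) := by
    rw [Real.rpow_def_of_pos hn0]
    congr 1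
    ring
  rw [e3] at h
  refine wt_err l0 l1 (Real.rpow_nonneg hn0.le _) ?_ ?_ ?_ w
  · exact Real.rpow_le_one_of_one_le_of_nonpos (by exact_mod_cast h1) (by linarith)
  · refine hL.trans ?_
    norm_num at hu' ⊢
    linarith
  · refine h.trans (by norm_num)

end Pool.Agent.H401R2.Ker
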