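import Pool.Agent.H401R2.Ker

set_option autoImplicit false

namespace Pool.Agent.H401R2.Ker

open Finset

/-- real value of a fixed point number -/
noncomputable def hat (X : ℕ) : ℝ := (X : ℝ) / 2 ^ 60

/-- the unit in the last place -/
noncomputable def ulp : ℝ := 1 / 2 ^ 60

lemma ulp_pos : 0 < ulp := by unfold ulp; positivity

lemma hat_nonneg (X : ℕ) : 0 ≤ hat X := by unfold hat; positivity

lemma hat_U : hat 1152921504606846976 = 1 := by unfold hat; norm_num

lemma hat_add (a b : ℕ) : hat (Nat.add a b) = hat a + hat b := by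
  unfold hat; rw [Nat.add_eq]; push_cast; ring

lemma hat_div (a b : ℕ) (hb : 0 < b) :
    hat a / b - ulp ≤ hat (Nat.div a b) ∧ hat (Nat.div a b) ≤ hat a / b := by
  have hb' : (0:ℝ) < b := by exact_mod_cast hb
  have h1 : ((a / b : ℕ) : ℝ) ≤ (a : ℝ) / b := Nat.cast_div_le
  have h2 : (a : ℝ) / b - 1 ≤ ((a / b : ℕ) : ℝ) := by
    have h3 : a < b * (a / b + 1) := Nat.lt_mul_div_succ a hb
    have h4 : (a : ℝ) < b * ((a / b : ℕ) + 1) := by exact_mod_cast h3
    rw [sub_le_iff_le_add, div_le_iff₀ hb']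
    linarith
  have e : Nat.div a b = a / b := rfl
  unfold hat ulp
  rw [e]
  constructor
  · rw [div_right_comm, ← sub_div]
    gcongr
  · rw [div_right_comm]
    gcongr

lemma mulN_bd (a b : ℕ) : hat a * hat b - ulp ≤ hat (mulN a b) ∧ hat (mulN a b) ≤ hat a * hat b := by
  have h := hat_div (Nat.mul a b) 1152921504606846976 (by norm_num)
  have e : hat (Nat.mul a b) / ((1152921504606846976 : ℕ) : ℝ) = hat a * hat b := by
    unfold hat; rw [Nat.mul_eq]; push_cast; ring
  rw [e] at h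
  exact h

lemma mulN_err {a b : ℕ} {x y ea eb : ℝ} (ha : |hat a - x| ≤ ea) (hb : |hat b - y| ≤ eb) :
    |hat (mulN a b) - x * y| ≤ ea * (|y| + eb) + |x| * eb + ulp := by
  obtain ⟨h1, h2⟩ := mulN_bd a b
  have hea : 0 ≤ ea := (abs_nonneg _).trans ha
  have h3 : |hat a * hat b - x * y| ≤ ea * (|y| + eb) + |x| * eb := by
    have e : hat a * hat b - x * y = (hat a - x) * hat b + x * (hat b - y) := by ring
    rw [e]
    refine (abs_add_le _ _).trans ?_
    rw [abs_mul, abs_mul]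
    have h4 : |hat b| ≤ |y| + eb := by
      have : hat b = y + (hat b - y) := by ring
      rw [this]
      exact (abs_add_le _ _).trans (by linarith)
    gcongr
  have h5 : |hat (mulN a b) - hat a * hat b| ≤ ulp := by
    rw [abs_le]; constructor <;> linarith [ulp_pos]
  have e2 : hat (mulN a b) - x * y = (hat (mulN a b) - hat a * hat b) + (hat a * hat b - x * y) := by ring
  rw [e2]
  refine (abs_add_le _ _).trans ?_
  linarith

lemma hat_sub (Z : ℕ) : hat (Nat.sub 1152921504606846976 Z) = max 0 (1 - hat Z) := by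
  have e : Nat.sub 1152921504606846976 Z = 1152921504606846976 - Z := rfl
  rw [e]
  rcases le_total Z 1152921504606846976 with h | h
  · rw [max_eq_right]
    · unfold hat
      rw [Nat.cast_sub h]
      push_cast
      ring
    · unfold hat
      have : (Z : ℝ) ≤ 1152921504606846976 := by exact_mod_cast h
      rw [sub_nonneg, div_le_one (by positivity)]
      norm_num
      exact h
  · rw [Nat.sub_eq_zero_of_le h, max_eq_left]
    · unfold hat; simp
    · unfold hat
      have : (1152921504606846976 : ℝ) ≤ Z := by exact_mod_cast h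
      rw [sub_nonpos, le_div_iff₀ (by positivity)]
      norm_num
      exact h

lemma step_le (x d C : ℕ) : hat (stepN x d C) ≤ 1 := by
  unfold stepN
  rw [hat_sub]
  apply max_le zero_le_one
  linarith [hat_nonneg (Nat.div (Nat.mul x C) (Nat.mul d 1152921504606846976))]

lemma step_err {x C d : ℕ} {y c ux e t δ : ℝ} (hd : 0 < d) (hx : |hat x - y| ≤ ux)
    (hC : |hat C - c| ≤ e) (hC1 : hat C ≤ 1) (hy0 : 0 ≤ y) (ht : 0 ≤ t)
    (hδ : |1 - y * c / d - t| ≤ δ) :
    |hat (stepN x d C) - t| ≤ (ux + y * e) / d + ulp + δ := by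
  have hd' : (0:ℝ) < d := by exact_mod_cast hd
  have hux : 0 ≤ ux := (abs_nonneg _).trans hx
  unfold stepN
  rw [hat_sub]
  set Z := Nat.div (Nat.mul x C) (Nat.mul d 1152921504606846976) with hZ
  have hdU : 0 < Nat.mul d 1152921504606846976 := by
    rw [Nat.mul_eq]; positivity
  obtain ⟨h1, h2⟩ := hat_div (Nat.mul x C) (Nat.mul d 1152921504606846976) hdU
  have e1 : hat (Nat.mul x C) / ((Nat.mul d 1152921504606846976 : ℕ) : ℝ) = hat x * hat C / d := by
    unfold hat; rw [Nat.mul_eq, Nat.mul_eq]; push_cast; field_simp; norm_num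
  rw [e1, ← hZ] at h1 h2
  have h3 : |hat x * hat C - y * c| ≤ ux + y * e := by
    have e2 : hat x * hat C - y * c = (hat x - y) * hat C + y * (hat C - c) := by ring
    rw [e2]
    refine (abs_add_le _ _).trans ?_
    rw [abs_mul, abs_mul, abs_of_nonneg (hat_nonneg C), abs_of_nonneg hy0]
    calc |hat x - y| * hat C + y * |hat C - c| ≤ ux * 1 + y * e := by
          gcongr
          exact hat_nonneg C
      _ = _ := by ring
  have h4 : |hat x * hat C / d - y * c / d| ≤ (ux + y * e) / d := by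
    rw [← sub_div, abs_div, abs_of_pos hd']
    gcongr
  have h5 : |(1 - hat Z) - t| ≤ (ux + y * e) / d + ulp + δ := by
    have e3 : (1 - hat Z) - t = (hat x * hat C / d - hat Z) - (hat x * hat C / d - y * c / d) +
        (1 - y * c / d - t) := by ring
    rw [e3]
    have h6 : |hat x * hat C / d - hat Z| ≤ ulp := by
      rw [abs_le]; constructor <;> linarith [ulp_pos]
    have h7 := abs_sub (hat x * hat C / d - hat Z) (hat x * hat C / d - y * c / d)
    have h8 := abs_add_le ((hat x * hat C / d - hat Z) - (hat x * hat C / d - y * c / d))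
      (1 - y * c / d - t)
    linarith
  refine le_trans ?_ h5
  rcases le_total 0 (1 - hat Z) with h | h
  · rw [max_eq_right h]
  · rw [max_eq_left h]
    rw [abs_of_nonpos (by linarith), abs_of_nonpos (by linarith)]
    linarith

/-! ### logarithms -/

lemma incAux_err (m2 : ℕ) (hm : 9 ≤ m2) : ∀ (k q d : ℕ) (Q : ℝ), 1 ≤ d → hat q ≤ Q → Q - 2 * ulp ≤ hat q →
    |hat (incAux m2 k q d) - ∑ j ∈ range k, Q / (m2 ^ j * (d + 2 * j))| ≤ 3 * ulp * k := by
  intro k
  induction k with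
  | zero =>
    intro q d Q _ _ _
    simp [incAux, hat]
  | succ k ih =>
    intro q d Q hd h1 h2
    have hm' : (9:ℝ) ≤ m2 := by exact_mod_cast hm
    have hd' : (1:ℝ) ≤ d := by exact_mod_cast hd
    obtain ⟨a1, a2⟩ := hat_div q d (by omega)
    obtain ⟨b1, b2⟩ := hat_div q m2 (by omega)
    have hu := ulp_pos
    have hQ' : hat (Nat.div q m2) ≤ Q / m2 := b2.trans (by gcongr)
    have hQ'' : Q / m2 - 2 * ulp ≤ hat (Nat.div q m2) := by
      have : Q / m2 - hat q / m2 ≤ ulp := by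
        rw [← sub_div, div_le_iff₀ (by linarith)]
        nlinarith
      linarith
    have h3 := ih (Nat.div q m2) (Nat.succ (Nat.succ d)) (Q / m2) (by omega) hQ' hQ''
    rw [incAux, frc_eq, hat_add, sum_range_succ']
    have h4 : |hat (Nat.div q d) - Q / d| ≤ 3 * ulp := by
      have h5 : Q / d - hat q / d ≤ 2 * ulp := by
        rw [← sub_div, div_le_iff₀ (by linarith)]
        nlinarith
      have h6 : hat q / d ≤ Q / d := by gcongr
      rw [abs_le]; constructor <;> linarith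
    have h7 : ∑ j ∈ range k, Q / (m2 ^ (j + 1) * (d + 2 * ((j + 1 : ℕ) : ℝ))) =
        ∑ j ∈ range k, Q / m2 / (m2 ^ j * (((Nat.succ (Nat.succ d) : ℕ) : ℝ) + 2 * j)) := by
      refine sum_congr rfl fun j _ => ?_
      rw [div_div]
      congr 1
      push_cast
      ring
    rw [h7]
    have e : hat (Nat.div q d) + hat (incAux m2 k (Nat.div q m2) (Nat.succ (Nat.succ d))) -
        (∑ j ∈ range k, Q / m2 / (m2 ^ j * (((Nat.succ (Nat.succ d) : ℕ) : ℝ) + 2 * j)) +
          Q / (m2 ^ 0 * (d + 2 * ((0:ℕ) : ℝ)))) = (hat (Nat.div q d) - Q / d) +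
        (hat (incAux m2 k (Nat.div q m2) (Nat.succ (Nat.succ d))) -
        ∑ j ∈ range k, Q / m2 / (m2 ^ j * (((Nat.succ (Nat.succ d) : ℕ) : ℝ) + 2 * j))) := by
      simp
      ring
    rw [e]
    refine (abs_add_le _ _).trans ?_
    push_cast at h3 ⊢
    linarith

lemma log_inc {n : ℕ} (hn : 1 ≤ n) (K : ℕ) :
    |Real.log (n + 1) - Real.log n - ∑ j ∈ range K, (2 / (2 * (n:ℝ) + 1)) /
      (((2 * (n:ℝ) + 1) ^ 2) ^ j * (1 + 2 * j))| ≤ 2.25 / (2 * (n:ℝ) + 1) ^ (2 * K + 1) := by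
  have hn' : (1:ℝ) ≤ n := by exact_mod_cast hn
  set m : ℝ := 2 * n + 1 with hm
  have hm3 : 3 ≤ m := by rw [hm]; linarith
  set x : ℝ := 1 / m with hx
  have hx0 : 0 ≤ x := by positivity
  have hx1 : x ≤ 1 / 3 := by
    rw [hx]; gcongr
  have h1 := Real.sum_range_le_log_div hx0 (by linarith) K
  have h2 := Real.log_div_le_sum_range_add hx0 (by linarith) K
  have e1 : (1 + x) / (1 - x) = (n + 1) / n := by
    rw [hx, hm]
    have h3 : (2 * (n:ℝ) + 1) ≠ 0 := by positivity
    have h4 : (1 - 1 / (2 * (n:ℝ) + 1)) ≠ 0 := by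
      rw [ne_eq, sub_eq_zero, eq_comm, div_eq_one_iff_eq h3]
      intro h; linarith
    have h5 : (n:ℝ) ≠ 0 := by linarith
    rw [div_eq_div_iff h4 h5]
    field_simp
    ring
  rw [e1, Real.log_div (by linarith) (by linarith)] at h1 h2
  have e2 : ∑ j ∈ range K, (2 / m) / ((m ^ 2) ^ j * (1 + 2 * (j:ℝ))) =
      2 * ∑ j ∈ range K, x ^ (2 * j + 1) / (2 * j + 1) := by
    rw [mul_sum]
    refine sum_congr rfl fun j _ => ?_
    rw [hx, div_pow, one_pow, ← pow_mul, pow_succ]
    field_simp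
    ring
  rw [e2]
  have h5 : x ^ (2 * K + 1) / (1 - x ^ 2) ≤ 1.125 / m ^ (2 * K + 1) := by
    have e3 : x ^ (2 * K + 1) = 1 / m ^ (2 * K + 1) := by rw [hx, div_pow, one_pow]
    rw [e3, div_div, div_le_div_iff₀ (by
      have : 0 < 1 - x ^ 2 := by nlinarith
      positivity) (by positivity)]
    have : 1 ≤ 1.125 * (1 - x ^ 2) := by nlinarith
    have h6 : 0 < m ^ (2 * K + 1) := by positivity
    nlinarith
  have h7 : 2.25 / m ^ (2 * K + 1) = 2 * (1.125 / m ^ (2 * K + 1)) := by ring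
  rw [h7, abs_le]
  constructor <;> linarith

lemma incN_err {n : ℕ} (hn : 1 ≤ n) :
    |hat (incN n) - (Real.log (n + 1) - Real.log n)| ≤ 100 * ulp := by
  have hn' : (1:ℝ) ≤ n := by exact_mod_cast hn
  unfold incN
  rw [frc_eq, frc_eq, frc_eq]
  have em : Nat.succ (Nat.mul 2 n) = 2 * n + 1 := rfl
  rw [em]
  set m : ℕ := 2 * n + 1 with hm
  have hm3 : 3 ≤ m := by omega
  have hmr : ((m : ℕ) : ℝ) = 2 * (n:ℝ) + 1 := by rw [hm]; push_cast; ring
  have hm2 : 9 ≤ Nat.mul m m := by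
    have : Nat.mul m m = m * m := rfl
    rw [this]; nlinarith
  obtain ⟨q1, q2⟩ := hat_div 2305843009213693952 m (by omega)
  have e2 : hat 2305843009213693952 = 2 := by unfold hat; norm_num
  rw [e2] at q1 q2
  have hu := ulp_pos
  set K : ℕ := Nat.rec 5 (fun _ _ => 20) (Nat.sub 16 n) with hK
  have h := incAux_err (Nat.mul m m) hm2 K (Nat.div 2305843009213693952 m) 1 (2 / m) le_rfl q2
    (by linarith)
  have h2 := log_inc hn K
  have e3 : ∑ j ∈ range K, (2 / (m:ℝ)) / (((Nat.mul m m : ℕ) : ℝ) ^ j * (((1:ℕ) : ℝ) + 2 * j)) =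
      ∑ j ∈ range K, (2 / (2 * (n:ℝ) + 1)) / (((2 * (n:ℝ) + 1) ^ 2) ^ j * (1 + 2 * j)) := by
    refine sum_congr rfl fun j _ => ?_
    rw [Nat.mul_eq]
    push_cast
    rw [hmr, pow_two]
  rw [e3] at h
  have h3 : |hat (incAux (Nat.mul m m) K (Nat.div 2305843009213693952 m) 1) -
      (Real.log (n + 1) - Real.log n)| ≤ 3 * ulp * K + 2.25 / (2 * (n:ℝ) + 1) ^ (2 * K + 1) := by
    set S := ∑ j ∈ range K, (2 / (2 * (n:ℝ) + 1)) / (((2 * (n:ℝ) + 1) ^ 2) ^ j * (1 + 2 * j))
    have e4 : hat (incAux (Nat.mul m m) K (Nat.div 2305843009213693952 m) 1) -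
      (Real.log (n + 1) - Real.log n) = (hat (incAux (Nat.mul m m) K (Nat.div 2305843009213693952 m) 1) - S) -
      (Real.log (n + 1) - Real.log n - S) := by ring
    rw [e4]
    exact (abs_sub _ _).trans (add_le_add h h2)
  refine h3.trans ?_
  rcases lt_or_ge n 16 with h16 | h16
  · have hK20 : K = 20 := by
      rw [hK]
      have : Nat.sub 16 n = (15 - n) + 1 := by
        have : Nat.sub 16 n = 16 - n := rfl
        omega
      rw [this]
    rw [hK20]
    have h5 : (3:ℝ) ^ (2 * 20 + 1) ≤ (2 * (n:ℝ) + 1) ^ (2 * 20 + 1) := by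
      gcongr; linarith
    have h6 : 2.25 / (2 * (n:ℝ) + 1) ^ (2 * 20 + 1) ≤ 2.25 / (3:ℝ) ^ (2 * 20 + 1) := by gcongr
    have h7 : 2.25 / (3:ℝ) ^ (2 * 20 + 1) ≤ 10 * ulp := by unfold ulp; norm_num
    push_cast
    linarith
  · have hK5 : K = 5 := by
      rw [hK]
      have : Nat.sub 16 n = 0 := by
        have : Nat.sub 16 n = 16 - n := rfl
        omega
      rw [this]
      rfl
    rw [hK5]
    have h16' : (16:ℝ) ≤ n := by exact_mod_cast h16
    have h5 : (33:ℝ) ^ (2 * 5 + 1) ≤ (2 * (n:ℝ) + 1) ^ (2 * 5 + 1) := by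
      gcongr; linarith
    have h6 : 2.25 / (2 * (n:ℝ) + 1) ^ (2 * 5 + 1) ≤ 2.25 / (33:ℝ) ^ (2 * 5 + 1) := by gcongr
    have h7 : 2.25 / (33:ℝ) ^ (2 * 5 + 1) ≤ 60 * ulp := by unfold ulp; norm_num
    push_cast
    linarith

/-- the computed logarithms -/
def Ls : ℕ → ℕ
  | 0 => 0
  | 1 => 0
  | (n + 2) => Nat.add (Ls (n + 1)) (incN (n + 1))

lemma Ls_succ {n : ℕ} (hn : 1 ≤ n) : Ls (n + 1) = Nat.add (Ls n) (incN n) := by
  obtain ⟨k, rfl⟩ : ∃ k, n = k + 1 := ⟨n - 1, by omega⟩
  rfl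

lemma Ls_err {n : ℕ} (hn : 1 ≤ n) : |hat (Ls n) - Real.log n| ≤ 100 * ulp * (n - 1) := by
  induction n, hn using Nat.le_induction with
  | base => simp [Ls, hat]
  | succ n hn ih =>
    rw [Ls_succ hn, hat_add]
    have h := incN_err hn
    push_cast
    have e : hat (Ls n) + hat (incN n) - Real.log (n + 1) = (hat (Ls n) - Real.log n) +
        (hat (incN n) - (Real.log (n + 1) - Real.log n)) := by ring
    rw [e]
    refine (abs_add_le _ _).trans ?_
    linarith

end Pool.Agent.H401R2.Ker
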