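import Pool.Agent.H401R2.KerAmp

set_option autoImplicit false

namespace Pool.Agent.H401R2.Ker

open Finset Complex

lemma hp_bd : hat 1811004864519280710 ≤ Real.pi / 2 ∧ Real.pi / 2 - ulp ≤ hat 1811004864519280710 := by
  have h1 := Real.pi_gt_d20
  have h2 := Real.pi_lt_d20
  unfold hat ulp
  norm_num at h1 h2 ⊢
  constructor <;> linarith

lemma phase_err {tn td n : ℕ} (htd : 0 < td) (ht : (tn:ℝ) / td ≤ 3146) (h1 : 1 ≤ n) (hn : n ≤ 3000) :
    ∃ (q r : ℕ), q = Nat.div (Nat.div (Nat.mul tn (Ls n)) td) 1811004864519280710 ∧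
      r = Nat.mod (Nat.div (Nat.mul tn (Ls n)) td) 1811004864519280710 ∧
      hat r ≤ 1.5708 ∧ 0 ≤ Real.cos (hat r) ∧
      |(tn:ℝ) / td * Real.log n - (q * (Real.pi / 2) + hat r)| ≤ 1e-9 := by
  obtain ⟨l0, l1⟩ := log_bound h1 hn
  have hL := Ls_err' h1 (hn.trans (by norm_num))
  have hu := ulp_pos
  have hu' := ulp_le
  have htd' : (0:ℝ) < td := by exact_mod_cast htd
  set t : ℝ := (tn:ℝ) / td with ht'
  have ht0 : 0 ≤ t := by positivity
  set φ := Nat.div (Nat.mul tn (Ls n)) td with hφ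
  obtain ⟨d1, d2⟩ := hat_div (Nat.mul tn (Ls n)) td htd
  have e1 : hat (Nat.mul tn (Ls n)) / (td:ℝ) = t * hat (Ls n) := by
    unfold hat; rw [Nat.mul_eq, ht']; push_cast; field_simp
  rw [e1, ← hφ] at d1 d2
  have h3 : |t * hat (Ls n) - t * Real.log n| ≤ 3146 * (3e5 * ulp) := by
    rw [← mul_sub, abs_mul, abs_of_nonneg ht0]
    gcongr
  rw [abs_le] at h3
  set q := Nat.div φ 1811004864519280710 with hq
  set r := Nat.mod φ 1811004864519280710 with hr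
  have hqr : 1811004864519280710 * q + r = φ := Nat.div_add_mod φ 1811004864519280710
  have hrlt : r < 1811004864519280710 := Nat.mod_lt _ (by norm_num)
  have hqr' : (1811004864519280710:ℝ) * q + r = φ := by exact_mod_cast hqr
  have hφ' : hat φ = q * hat 1811004864519280710 + hat r := by
    unfold hat; rw [← hqr']; push_cast; ring
  obtain ⟨p1, p2⟩ := hp_bd
  have hr1 : hat r ≤ hat 1811004864519280710 := by
    unfold hat
    have : (r:ℝ) ≤ ((1811004864519280710:ℕ):ℝ) := by exact_mod_cast hrlt.le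
    gcongr
  have hr0 := hat_nonneg r
  have hpi := Real.pi_lt_d20
  have hpi2 := Real.pi_gt_d20
  refine ⟨q, r, rfl, rfl, ?_, ?_, ?_⟩
  · norm_num at hpi ⊢; linarith
  · exact Real.cos_nonneg_of_neg_pi_div_two_le_of_le (by linarith) (by linarith)
  · have hq2 : (q:ℝ) ≤ 20000 := by
      have h5 : hat φ ≤ 3146 * 8.2 + 1 := by
        have : t * Real.log n ≤ 3146 * 8.2 := by gcongr
        norm_num at hu' h3 this ⊢
        linarith
      have h6 : (q:ℝ) * 1.57 ≤ q * hat 1811004864519280710 := by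
        gcongr
        norm_num at hpi2 hu' ⊢; linarith
      norm_num at h5 h6
      linarith
    have hq0 : (0:ℝ) ≤ q := Nat.cast_nonneg _
    have h7 : (q:ℝ) * (Real.pi / 2) - q * hat 1811004864519280710 ≤ 20000 * ulp := by
      rw [← mul_sub]
      calc (q:ℝ) * (Real.pi / 2 - hat 1811004864519280710) ≤ 20000 * ulp := by
            gcongr
            linarith
        _ = _ := rfl
    have h8 : 0 ≤ (q:ℝ) * (Real.pi / 2) - q * hat 1811004864519280710 := by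
      rw [← mul_sub]
      apply mul_nonneg hq0
      linarith
    rw [abs_le]
    norm_num at hu' h3 h7 ⊢
    constructor <;> linarith

lemma exp_diff (a b : ℝ) : ‖exp (-I * (a:ℂ)) - exp (-I * (b:ℂ))‖ ≤ |a - b| := by
  have e : exp (-I * (a:ℂ)) - exp (-I * (b:ℂ)) = exp (-I * (b:ℂ)) * (exp (I * ((b - a : ℝ) : ℂ)) - 1) := by
    rw [mul_sub, ← exp_add, mul_one]
    congr 2
    push_cast; ring
  have hn : ‖exp (-I * (b:ℂ))‖ = 1 := by
    rw [show -I * (b:ℂ) = ((-b : ℝ) : ℂ) * I by push_cast; ring]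
    exact norm_exp_ofReal_mul_I _
  rw [e, norm_mul, hn, one_mul]
  have h := Real.norm_exp_I_mul_ofReal_sub_one_le (x := b - a)
  rw [Real.norm_eq_abs, abs_sub_comm] at h
  exact h

lemma exp_quarter (q : ℕ) (r : ℝ) : exp (-I * ((q * (Real.pi / 2) + r : ℝ) : ℂ)) = (-I) ^ q * exp (-I * (r : ℂ)) := by
  have e : exp (-I * ((Real.pi / 2 : ℝ) : ℂ)) = -I := by
    rw [show -I * ((Real.pi / 2 : ℝ) : ℂ) = -(Real.pi / 2 * I) by push_cast; ring, exp_neg,
      exp_pi_div_two_mul_I, inv_I]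
  rw [← e, ← exp_nat_mul, ← exp_add, e]
  congr 1
  push_cast
  ring

/-- the complex value of one term -/
noncomputable def tv (tn td sn sd w n : ℕ) : ℂ :=
  (-I) ^ (Nat.div (Nat.div (Nat.mul tn (Ls n)) td) 1811004864519280710) *
    ((hat (mulN (ampN sn sd w (Ls n)) (cosN (mulN (Nat.mod (Nat.div (Nat.mul tn (Ls n)) td) 1811004864519280710)
      (Nat.mod (Nat.div (Nat.mul tn (Ls n)) td) 1811004864519280710)))) : ℂ) -
     I * (hat (mulN (ampN sn sd w (Ls n)) (mulN (Nat.mod (Nat.div (Nat.mul tn (Ls n)) td) 1811004864519280710)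
      (sinN (mulN (Nat.mod (Nat.div (Nat.mul tn (Ls n)) td) 1811004864519280710)
        (Nat.mod (Nat.div (Nat.mul tn (Ls n)) td) 1811004864519280710))))) : ℂ))

lemma term_err {tn td sn sd w n : ℕ} (htd : 0 < td) (ht : (tn:ℝ) / td ≤ 3146)
    (hsd : 0 < sd) (hs : (sn:ℝ) / sd ≤ 0.815) (h1 : 1 ≤ n) (hn : n ≤ 3000) :
    ‖tv tn td sn sd w n - (n:ℂ) ^ (-(((sn:ℝ) / sd : ℝ) + ((tn:ℝ) / td : ℝ) * I : ℂ)) * (Real.log n : ℂ) ^ w‖
      ≤ 4e-8 * 9 ^ w := by
  obtain ⟨l0, l1⟩ := log_bound h1 hn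
  have hu := ulp_pos
  have hu' := ulp_le
  have hn0 : (0:ℝ) < n := by exact_mod_cast h1
  have hnc : (n:ℂ) ≠ 0 := by exact_mod_cast hn0.ne'
  obtain ⟨q, r, hq, hr, r1, r2, hph⟩ := phase_err htd ht h1 hn
  unfold tv
  rw [← hq, ← hr]
  have hA := amp_err (w := w) hsd hs h1 hn
  set e := ampN sn sd w (Ls n) with he
  set σ : ℝ := (sn:ℝ) / sd with hσ
  set t : ℝ := (tn:ℝ) / td with ht'
  have hσ0 : 0 ≤ σ := by positivity
  set W : ℝ := (n:ℝ) ^ (-σ) * Real.log n ^ w with hW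
  have hW0 : 0 ≤ W := by positivity
  have hW1 : W ≤ 9 ^ w := by
    have h2 : (n:ℝ) ^ (-σ) ≤ 1 := Real.rpow_le_one_of_one_le_of_nonpos (by exact_mod_cast h1) (by linarith)
    calc W ≤ 1 * 9 ^ w := by
          rw [hW]
          gcongr
          linarith
      _ = 9 ^ w := one_mul _
  have h9 : (1:ℝ) ≤ 9 ^ w := one_le_pow₀ (by norm_num)
  -- the exact term
  have hex : (n:ℂ) ^ (-((σ:ℂ) + (t:ℂ) * I)) * (Real.log n : ℂ) ^ w = (W:ℂ) * exp (-I * ((t * Real.log n : ℝ) : ℂ)) := by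
    rw [cpow_def_of_ne_zero hnc, hW, Real.rpow_def_of_pos hn0]
    have hl : Complex.log (n:ℂ) = ((Real.log n : ℝ) : ℂ) := by
      rw [ofReal_log hn0.le]; norm_num
    rw [hl]
    push_cast
    rw [mul_right_comm, ← exp_add]
    congr 2
    ring
  rw [hex]
  -- errors
  obtain ⟨c1, c2⟩ := cs_all r1 r2
  set C := cosN (mulN r r) with hC
  set S := mulN r (sinN (mulN r r)) with hS
  have hcos1 := Real.abs_cos_le_one (hat r)
  have hsin1 := Real.abs_sin_le_one (hat r)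
  have k1 := mulN_err hA c1
  have k2 := mulN_err hA c2
  rw [abs_of_nonneg hW0] at k1 k2
  have k3 : |hat (mulN e C) - W * Real.cos (hat r)| ≤ 1.7e-8 * 9 ^ w := by
    refine k1.trans ?_
    have : 4e-9 * 9 ^ w * (|Real.cos (hat r)| + 1.29e-8) ≤ 4e-9 * 9 ^ w * (1 + 1.29e-8) := by gcongr
    norm_num at this hu' ⊢
    nlinarith
  have k4 : |hat (mulN e S) - W * Real.sin (hat r)| ≤ 1.7e-8 * 9 ^ w := by
    refine k2.trans ?_
    have : 4e-9 * 9 ^ w * (|Real.sin (hat r)| + 1.29e-8) ≤ 4e-9 * 9 ^ w * (1 + 1.29e-8) := by gcongr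
    norm_num at this hu' ⊢
    nlinarith
  have k5 : ‖((hat (mulN e C) : ℂ) - I * (hat (mulN e S) : ℂ)) - (W:ℂ) * exp (-I * (hat r : ℂ))‖ ≤ 3.4e-8 * 9 ^ w := by
    have e1 : exp (-I * (hat r : ℂ)) = (Real.cos (hat r) : ℂ) - I * (Real.sin (hat r) : ℂ) := by
      rw [show -I * (hat r : ℂ) = (-(hat r : ℂ)) * I by ring, exp_mul_I]
      simp
      ring
    rw [e1]
    have e2 : ((hat (mulN e C) : ℂ) - I * (hat (mulN e S) : ℂ)) - (W:ℂ) * ((Real.cos (hat r) : ℂ) - I * (Real.sin (hat r) : ℂ)) =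
      ((hat (mulN e C) - W * Real.cos (hat r) : ℝ) : ℂ) - I * ((hat (mulN e S) - W * Real.sin (hat r) : ℝ) : ℂ) := by
      push_cast; ring
    rw [e2]
    refine (norm_sub_le _ _).trans ?_
    rw [norm_mul, norm_I, one_mul, norm_real, norm_real, Real.norm_eq_abs, Real.norm_eq_abs]
    linarith
  have e3 : (-I) ^ q * ((hat (mulN e C) : ℂ) - I * (hat (mulN e S) : ℂ)) - (W:ℂ) * exp (-I * ((t * Real.log n : ℝ) : ℂ)) =
      (-I) ^ q * (((hat (mulN e C) : ℂ) - I * (hat (mulN e S) : ℂ)) - (W:ℂ) * exp (-I * (hat r : ℂ))) +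
      (W:ℂ) * ((-I) ^ q * exp (-I * (hat r : ℂ)) - exp (-I * ((t * Real.log n : ℝ) : ℂ))) := by ring
  rw [e3]
  refine (norm_add_le _ _).trans ?_
  rw [norm_mul, norm_mul, norm_pow, norm_neg, norm_I, one_pow, one_mul, ← exp_quarter, norm_real,
    Real.norm_eq_abs, abs_of_nonneg hW0]
  have k6 := exp_diff (q * (Real.pi / 2) + hat r) (t * Real.log n)
  rw [abs_sub_comm] at hph
  have k7 : W * ‖exp (-I * ((q * (Real.pi / 2) + hat r : ℝ) : ℂ)) - exp (-I * ((t * Real.log n : ℝ) : ℂ))‖ ≤ 9 ^ w * 1e-9 := by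
    gcongr
    exact k6.trans hph
  norm_num at k5 k7 ⊢
  linarith

/-- complex value of an accumulator -/
noncomputable def val (p : ℕ × ℕ × ℕ × ℕ × ℕ) : ℂ :=
  ((hat p.2.1 - hat p.2.2.1 : ℝ) : ℂ) + ((hat p.2.2.2.1 - hat p.2.2.2.2 : ℝ) : ℂ) * I

theorem loop_err {tn td sn sd w : ℕ} (htd : 0 < td) (ht : (tn:ℝ) / td ≤ 3146)
    (hsd : 0 < sd) (hs : (sn:ℝ) / sd ≤ 0.815) : ∀ (k n : ℕ) (hn : 1 ≤ n) (hk : n + k ≤ 3001) (xp xn yp yn : ℕ),
    (loop tn td sn sd w k n (Ls n) xp xn yp yn).1 = Ls (n + k) ∧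
    ‖val (loop tn td sn sd w k n (Ls n) xp xn yp yn) - val (0, xp, xn, yp, yn) -
      ∑ j ∈ range k, ((n + j : ℕ) : ℂ) ^ (-(((sn:ℝ) / sd : ℝ) + ((tn:ℝ) / td : ℝ) * I : ℂ)) *
        (Real.log ((n + j : ℕ) : ℝ) : ℂ) ^ w‖ ≤ 4e-8 * 9 ^ w * k := by
  intro k
  induction k with
  | zero =>
    intro n hn hk xp xn yp yn
    simp [loop, val]
  | succ k ih =>
    intro n hn hk xp xn yp yn
    have hterm := term_err (w := w) htd ht hsd hs hn (show n ≤ 3000 by omega)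
    have hLs : Nat.add (Ls n) (incN n) = Ls (n + 1) := (Ls_succ hn).symm
    have ih' := ih (n + 1) (by omega) (by omega)
    rw [sum_range_succ']
    have e7 : ∑ j ∈ range k, ((n + (j + 1) : ℕ) : ℂ) ^ (-(((sn:ℝ) / sd : ℝ) + ((tn:ℝ) / td : ℝ) * I : ℂ)) *
        (Real.log ((n + (j + 1) : ℕ) : ℝ) : ℂ) ^ w =
        ∑ j ∈ range k, ((n + 1 + j : ℕ) : ℂ) ^ (-(((sn:ℝ) / sd : ℝ) + ((tn:ℝ) / td : ℝ) * I : ℂ)) *
        (Real.log ((n + 1 + j : ℕ) : ℝ) : ℂ) ^ w := by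
      refine sum_congr rfl fun j _ => ?_
      rw [show n + (j + 1) = n + 1 + j by ring]
    rw [e7, Nat.add_zero]
    set Sg := ∑ j ∈ range k, ((n + 1 + j : ℕ) : ℂ) ^ (-(((sn:ℝ) / sd : ℝ) + ((tn:ℝ) / td : ℝ) * I : ℂ)) *
        (Real.log ((n + 1 + j : ℕ) : ℝ) : ℂ) ^ w with hSg
    set T := (n:ℂ) ^ (-(((sn:ℝ) / sd : ℝ) + ((tn:ℝ) / td : ℝ) * I : ℂ)) * (Real.log n : ℂ) ^ w with hT
    have key : ∃ xp' xn' yp' yn' : ℕ, loop tn td sn sd w (k + 1) n (Ls n) xp xn yp yn =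
        loop tn td sn sd w k (n + 1) (Ls (n + 1)) xp' xn' yp' yn' ∧
        val (0, xp', xn', yp', yn') = val (0, xp, xn, yp, yn) + tv tn td sn sd w n := by
      have hmod : (Nat.div (Nat.div (Nat.mul tn (Ls n)) td) 1811004864519280710) % 4 < 4 := Nat.mod_lt _ (by norm_num)
      have hIq : (-I) ^ (Nat.div (Nat.div (Nat.mul tn (Ls n)) td) 1811004864519280710) =
          (-I) ^ ((Nat.div (Nat.div (Nat.mul tn (Ls n)) td) 1811004864519280710) % 4) := by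
        conv_lhs => rw [← Nat.div_add_mod (Nat.div (Nat.div (Nat.mul tn (Ls n)) td) 1811004864519280710) 4]
        rw [pow_add, pow_mul, show (-I) ^ 4 = 1 by rw [neg_pow, I_pow_four]; norm_num, one_pow, one_mul]
      have hI2 : (-I) ^ 2 = -1 := by rw [neg_sq, I_sq]
      have hI3 : (-I) ^ 3 = I := by rw [pow_succ, hI2]; ring
      simp only [loop, frc_eq, hLs]
      have e4 : ∀ x : ℕ, Nat.mod x 4 = x % 4 := fun _ => rfl
      rw [e4]
      unfold tv
      rw [hIq]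
      generalize hm : (Nat.div (Nat.div (Nat.mul tn (Ls n)) td) 1811004864519280710) % 4 = m at hmod ⊢
      interval_cases m
      · refine ⟨_, _, _, _, rfl, ?_⟩
        simp only [val, hat_add]
        push_cast
        ring
      · refine ⟨_, _, _, _, rfl, ?_⟩
        simp only [val, hat_add]
        push_cast
        linear_combination (-(hat (mulN (ampN sn sd w (Ls n)) (mulN (Nat.mod (Nat.div (Nat.mul tn (Ls n)) td) 1811004864519280710)
          (sinN (mulN (Nat.mod (Nat.div (Nat.mul tn (Ls n)) td) 1811004864519280710)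
          (Nat.mod (Nat.div (Nat.mul tn (Ls n)) td) 1811004864519280710))))) : ℂ)) * I_sq
      · refine ⟨_, _, _, _, rfl, ?_⟩
        simp only [val, hat_add, hI2]
        push_cast
        ring
      · refine ⟨_, _, _, _, rfl, ?_⟩
        simp only [val, hat_add, hI3]
        push_cast
        linear_combination ((hat (mulN (ampN sn sd w (Ls n)) (mulN (Nat.mod (Nat.div (Nat.mul tn (Ls n)) td) 1811004864519280710)
          (sinN (mulN (Nat.mod (Nat.div (Nat.mul tn (Ls n)) td) 1811004864519280710)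
          (Nat.mod (Nat.div (Nat.mul tn (Ls n)) td) 1811004864519280710))))) : ℂ)) * I_sq
    obtain ⟨xp', xn', yp', yn', h2, h3⟩ := key
    obtain ⟨i1, i2⟩ := ih' xp' xn' yp' yn'
    rw [h2]
    refine ⟨?_, ?_⟩
    · rw [i1]; congr 1; ring
    · rw [h3] at i2
      have e5 : val (loop tn td sn sd w k (n + 1) (Ls (n + 1)) xp' xn' yp' yn') - val (0, xp, xn, yp, yn) - (Sg + T) =
          (val (loop tn td sn sd w k (n + 1) (Ls (n + 1)) xp' xn' yp' yn') - (val (0, xp, xn, yp, yn) + tv tn td sn sd w n) - Sg)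
          + (tv tn td sn sd w n - T) := by ring
      change ‖val (loop tn td sn sd w k (n + 1) (Ls (n + 1)) xp' xn' yp' yn') - val (0, xp, xn, yp, yn) - (Sg + T)‖ ≤ _
      rw [e5]
      refine (norm_add_le _ _).trans ?_
      push_cast
      linarith

theorem loop_sum {tn td sn sd w N : ℕ} (htd : 0 < td) (ht : (tn:ℝ) / td ≤ 3146)
    (hsd : 0 < sd) (hs : (sn:ℝ) / sd ≤ 0.815) (hN : N ≤ 3000) :
    (loop tn td sn sd w N 1 0 0 0 0 0).1 = Ls (N + 1) ∧
    ‖val (loop tn td sn sd w N 1 0 0 0 0 0) -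
      ∑ n ∈ Icc 1 N, (n : ℂ) ^ (-(((sn:ℝ) / sd : ℝ) + ((tn:ℝ) / td : ℝ) * I : ℂ)) *
        (Real.log (n : ℝ) : ℂ) ^ w‖ ≤ 4e-8 * 9 ^ w * N := by
  have h := loop_err (w := w) htd ht hsd hs N 1 le_rfl (by omega) 0 0 0 0
  have e0 : Ls 1 = 0 := rfl
  rw [e0] at h
  have e1 : val (0, 0, 0, 0, 0) = 0 := by simp [val]
  rw [e1, sub_zero] at h
  have e2 : ∑ n ∈ Icc 1 N, (n : ℂ) ^ (-(((sn:ℝ) / sd : ℝ) + ((tn:ℝ) / td : ℝ) * I : ℂ)) *
        (Real.log (n : ℝ) : ℂ) ^ w = ∑ j ∈ range N, ((1 + j : ℕ) : ℂ) ^ (-(((sn:ℝ) / sd : ℝ) + ((tn:ℝ) / td : ℝ) * I : ℂ)) *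
        (Real.log ((1 + j : ℕ) : ℝ) : ℂ) ^ w := by
    rw [← Finset.Ico_add_one_right_eq_Icc, Finset.sum_Ico_eq_sum_range]
    simp
  rw [e2, Nat.add_comm N 1]
  exact h

end Pool.Agent.H401R2.Ker
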