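import Pool.Agent.H401R2.KerErr

set_option autoImplicit false

namespace Pool.Agent.H401R2.Ker

open Finset Complex

lemma ulp_le : ulp ≤ 1e-18 := by unfold ulp; norm_num

/-- the cosine polynomial (without outermost step) -/
noncomputable def pc (y : ℝ) : ℝ :=
  1 - y / 12 * (1 - y / 30 * (1 - y / 56 * (1 - y / 90 * (1 - y / 132))))

noncomputable def ps (y : ℝ) : ℝ :=
  1 - y / 6 * (1 - y / 20 * (1 - y / 42 * (1 - y / 72 * (1 - y / 110 * (1 - y / 156)))))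

lemma inner_step {x C d : ℕ} {y c : ℝ} (hd : 6 ≤ d) (hy0 : 0 ≤ y) (hy : y ≤ 2.5)
    (hx : |hat x - y| ≤ ulp) (hc0 : 0 ≤ c) (hc1 : c ≤ 1) (hC : |hat C - c| ≤ 2 * ulp) (hC1 : hat C ≤ 1) :
    |hat (stepN x d C) - (1 - y / d * c)| ≤ 2 * ulp ∧ 0 ≤ 1 - y / d * c ∧ 1 - y / d * c ≤ 1 ∧
      hat (stepN x d C) ≤ 1 := by
  have hd' : (6:ℝ) ≤ d := by exact_mod_cast hd
  have hyd : y / d ≤ 1 := by rw [div_le_one (by linarith)]; linarith
  have hyd0 : 0 ≤ y / d := by positivity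
  have h0 : 0 ≤ 1 - y / d * c := by
    have : y / d * c ≤ 1 * 1 := by gcongr
    linarith
  have h1 : 1 - y / d * c ≤ 1 := by
    have : 0 ≤ y / d * c := by positivity
    linarith
  have hu := ulp_pos
  have h := step_err (x := x) (C := C) (d := d) (y := y) (c := c) (ux := ulp) (e := 2 * ulp)
    (t := 1 - y / d * c) (δ := 0) (by omega) hx hC hC1 hy0 h0 (by
      rw [show 1 - y * c / d - (1 - y / d * c) = 0 by ring]; simp)
  refine ⟨h.trans ?_, h0, h1, step_le _ _ _⟩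
  have : (ulp + y * (2 * ulp)) / d ≤ ulp := by
    rw [div_le_iff₀ (by linarith)]
    nlinarith
  linarith

lemma one_ok : |hat 1152921504606846976 - 1| ≤ 2 * ulp ∧ (0:ℝ) ≤ 1 ∧ (1:ℝ) ≤ 1 ∧ hat 1152921504606846976 ≤ 1 := by
  rw [hat_U]; simp [ulp_pos.le]

lemma cos_inner {x : ℕ} {y : ℝ} (hy0 : 0 ≤ y) (hy : y ≤ 2.5) (hx : |hat x - y| ≤ ulp) :
    |hat (stepN x 12 (stepN x 30 (stepN x 56 (stepN x 90 (stepN x 132 1152921504606846976))))) - pc y| ≤ 2 * ulp ∧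
    hat (stepN x 12 (stepN x 30 (stepN x 56 (stepN x 90 (stepN x 132 1152921504606846976))))) ≤ 1 := by
  have h0 := one_ok
  have h1 := inner_step (d := 132) (by norm_num) hy0 hy hx h0.2.1 h0.2.2.1 h0.1 h0.2.2.2
  have h2 := inner_step (d := 90) (by norm_num) hy0 hy hx h1.2.1 h1.2.2.1 h1.1 h1.2.2.2
  have h3 := inner_step (d := 56) (by norm_num) hy0 hy hx h2.2.1 h2.2.2.1 h2.1 h2.2.2.2
  have h4 := inner_step (d := 30) (by norm_num) hy0 hy hx h3.2.1 h3.2.2.1 h3.1 h3.2.2.2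
  have h5 := inner_step (d := 12) (by norm_num) hy0 hy hx h4.2.1 h4.2.2.1 h4.1 h4.2.2.2
  refine ⟨?_, h5.2.2.2⟩
  have e : pc y = (1 - y / ((12:ℕ):ℝ) * (1 - y / ((30:ℕ):ℝ) * (1 - y / ((56:ℕ):ℝ) * (1 - y / ((90:ℕ):ℝ) * (1 - y / ((132:ℕ):ℝ) * 1))))) := by
    unfold pc; push_cast; ring
  rw [e]
  exact h5.1

lemma sin_all {x : ℕ} {y : ℝ} (hy0 : 0 ≤ y) (hy : y ≤ 2.5) (hx : |hat x - y| ≤ ulp) :
    |hat (sinN x) - ps y| ≤ 2 * ulp ∧ 0 ≤ ps y ∧ ps y ≤ 1 ∧ hat (sinN x) ≤ 1 := by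
  have h0 := one_ok
  have h1 := inner_step (d := 156) (by norm_num) hy0 hy hx h0.2.1 h0.2.2.1 h0.1 h0.2.2.2
  have h2 := inner_step (d := 110) (by norm_num) hy0 hy hx h1.2.1 h1.2.2.1 h1.1 h1.2.2.2
  have h3 := inner_step (d := 72) (by norm_num) hy0 hy hx h2.2.1 h2.2.2.1 h2.1 h2.2.2.2
  have h4 := inner_step (d := 42) (by norm_num) hy0 hy hx h3.2.1 h3.2.2.1 h3.1 h3.2.2.2
  have h5 := inner_step (d := 20) (by norm_num) hy0 hy hx h4.2.1 h4.2.2.1 h4.1 h4.2.2.2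
  have h6 := inner_step (d := 6) (by norm_num) hy0 hy hx h5.2.1 h5.2.2.1 h5.1 h5.2.2.2
  have e : ps y = (1 - y / ((6:ℕ):ℝ) * (1 - y / ((20:ℕ):ℝ) * (1 - y / ((42:ℕ):ℝ) * (1 - y / ((72:ℕ):ℝ) * (1 - y / ((110:ℕ):ℝ) * (1 - y / ((156:ℕ):ℝ) * 1)))))) := by
    unfold ps; push_cast; ring
  rw [e]
  exact h6

lemma exp_poly (r : ℝ) : ∑ m ∈ range 14, (-I * (r:ℂ)) ^ m / (m.factorial : ℂ) =
    ((1 - r ^ 2 / 2 * pc (r ^ 2) : ℝ) : ℂ) - I * ((r * ps (r ^ 2) : ℝ) : ℂ) := by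
  have key : ∀ z : ℂ, ∑ m ∈ range 14, z ^ m / (m.factorial : ℂ) =
      (1 + z ^ 2 / 2 * (1 + z ^ 2 / 12 * (1 + z ^ 2 / 30 * (1 + z ^ 2 / 56 * (1 + z ^ 2 / 90 * (1 + z ^ 2 / 132))))))
      + z * (1 + z ^ 2 / 6 * (1 + z ^ 2 / 20 * (1 + z ^ 2 / 42 * (1 + z ^ 2 / 72 * (1 + z ^ 2 / 110 * (1 + z ^ 2 / 156)))))) := by
    intro z
    simp only [sum_range_succ, sum_range_zero, Nat.factorial]
    push_cast
    ring
  rw [key]
  have h2 : (-I * (r:ℂ)) ^ 2 = -((r:ℂ) ^ 2) := by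
    rw [mul_pow, neg_sq, I_sq]; ring
  rw [h2]
  unfold pc ps
  push_cast
  ring

lemma exp_trunc {r : ℝ} (h0 : 0 ≤ r) (h1 : r ≤ 1.5708) :
    ‖exp (-I * (r:ℂ)) - (((1 - r ^ 2 / 2 * pc (r ^ 2) : ℝ) : ℂ) - I * ((r * ps (r ^ 2) : ℝ) : ℂ))‖ ≤ 1.28e-8 := by
  have hn : ‖-I * (r:ℂ)‖ = r := by
    rw [norm_mul, norm_neg, norm_I, one_mul, norm_real, Real.norm_eq_abs, abs_of_nonneg h0]
  have h := Complex.exp_bound' (x := -I * (r:ℂ)) (n := 14) (by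
    rw [hn]; push_cast; linarith)
  rw [hn, exp_poly] at h
  refine h.trans ?_
  have h2 : r ^ 14 ≤ 1.5708 ^ 14 := by gcongr
  have h3 : ((Nat.factorial 14 : ℕ) : ℝ) = 87178291200 := by norm_num [Nat.factorial]
  rw [h3]
  calc r ^ 14 / 87178291200 * 2 ≤ 1.5708 ^ 14 / 87178291200 * 2 := by gcongr
    _ ≤ 1.28e-8 := by norm_num

lemma re_im_bd {z w : ℂ} {e : ℝ} (h : ‖z - w‖ ≤ e) : |z.re - w.re| ≤ e ∧ |z.im - w.im| ≤ e := by
  constructor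
  · rw [← sub_re]; exact (abs_re_le_norm _).trans h
  · rw [← sub_im]; exact (abs_im_le_norm _).trans h

lemma cs_trunc {r : ℝ} (h0 : 0 ≤ r) (h1 : r ≤ 1.5708) :
    |1 - r ^ 2 / 2 * pc (r ^ 2) - Real.cos r| ≤ 1.28e-8 ∧ |r * ps (r ^ 2) - Real.sin r| ≤ 1.28e-8 := by
  have h := re_im_bd (exp_trunc h0 h1)
  have e1 : (exp (-I * (r:ℂ))).re = Real.cos r := by
    rw [exp_re]; simp
  have e2 : (exp (-I * (r:ℂ))).im = -Real.sin r := by
    rw [exp_im]; simp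
  rw [e1, e2] at h
  have e3 : (((1 - r ^ 2 / 2 * pc (r ^ 2) : ℝ) : ℂ) - I * ((r * ps (r ^ 2) : ℝ) : ℂ)).re = 1 - r ^ 2 / 2 * pc (r ^ 2) := by
    simp only [sub_re, ofReal_re, mul_re, I_re, I_im, ofReal_im]; ring
  have e4 : (((1 - r ^ 2 / 2 * pc (r ^ 2) : ℝ) : ℂ) - I * ((r * ps (r ^ 2) : ℝ) : ℂ)).im = - (r * ps (r ^ 2)) := by
    simp only [sub_im, ofReal_re, mul_im, I_re, I_im, ofReal_im]; ring
  rw [e3, e4] at h
  constructor
  · rw [abs_sub_comm]; exact h.1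
  · rw [show r * ps (r ^ 2) - Real.sin r = -Real.sin r - -(r * ps (r^2)) by ring]; exact h.2

lemma cs_all {r : ℕ} (h1 : hat r ≤ 1.5708) (hc : 0 ≤ Real.cos (hat r)) :
    |hat (cosN (mulN r r)) - Real.cos (hat r)| ≤ 1.29e-8 ∧
    |hat (mulN r (sinN (mulN r r))) - Real.sin (hat r)| ≤ 1.29e-8 := by
  have h0 := hat_nonneg r
  have hu := ulp_pos
  have hu' := ulp_le
  set y : ℝ := hat r ^ 2 with hy
  have hy0 : 0 ≤ y := by positivity
  have hy1 : y ≤ 2.5 := by rw [hy]; nlinarith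
  obtain ⟨m1, m2⟩ := mulN_bd r r
  have hx : |hat (mulN r r) - y| ≤ ulp := by
    rw [abs_le, hy, pow_two]; constructor <;> linarith
  obtain ⟨t1, t2⟩ := cs_trunc h0 h1
  constructor
  · obtain ⟨c1, c2⟩ := cos_inner hy0 hy1 hx
    have h := step_err (x := mulN r r) (d := 2) (y := y) (c := pc y) (ux := ulp) (e := 2 * ulp)
      (t := Real.cos (hat r)) (δ := 1.28e-8) (by norm_num) hx c1 c2 hy0 hc (by
        have e : 1 - y * pc y / ((2:ℕ):ℝ) - Real.cos (hat r) = 1 - hat r ^ 2 / 2 * pc (hat r ^ 2) - Real.cos (hat r) := by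
          rw [hy]; push_cast; ring
        rw [e]; exact t1)
    refine (show |hat (cosN (mulN r r)) - Real.cos (hat r)| ≤ _ from h).trans ?_
    have : (ulp + y * (2 * ulp)) / ((2:ℕ):ℝ) ≤ 3 * ulp := by
      push_cast
      nlinarith
    norm_num at hu' ⊢
    linarith
  · obtain ⟨s1, s2, s3, s4⟩ := sin_all hy0 hy1 hx
    have h := mulN_err (a := r) (b := sinN (mulN r r)) (x := hat r) (y := ps y) (ea := 0) (eb := 2 * ulp)
      (by simp) s1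
    have e : hat (mulN r (sinN (mulN r r))) - Real.sin (hat r) =
      (hat (mulN r (sinN (mulN r r))) - hat r * ps y) + (hat r * ps (hat r ^ 2) - Real.sin (hat r)) := by
      rw [hy]; ring
    rw [e]
    refine (abs_add_le _ _).trans ?_
    rw [abs_of_nonneg h0] at h
    have h5 : hat r * (2 * ulp) ≤ 4 * ulp := by nlinarith
    norm_num at hu' t2 h ⊢
    linarith

end Pool.Agent.H401R2.Ker
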