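import Pool.Agent.H401R2.Ker

set_option autoImplicit false

namespace Pool.Agent.H401R2.Ker

theorem val0 : loop 31432207 10000 163 200 0 3000 1 0 0 0 0 0 =
    (9231097585662017527, 7380181621826072363, 6833737794303871070, 6694785144820734471,
      6455972082627497810) := by decide +kernel

theorem val1 : loop 31432207 10000 163 200 1 3000 1 0 0 0 0 0 =
    (9231097585662017527, 33394203333393948590, 33942910566747857871, 33113000258407379987,
      33255234823337219167) := by decide +kernel

theorem val2 : loop 31432207 10000 163 200 2 3000 1 0 0 0 0 0 =
    (9231097585662017527, 200159411378485492574, 199536587630629617430, 197511565426821508910,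
      196536281364475064328) := by decide +kernel

theorem valb : loop 12581 4 1 2 0 1296 1 0 0 0 0 0 =
    (8263921349516888994, 30854270579866122036, 22578365958509098844, 28118964394606932835,
      21957670614167005520) := by decide +kernel

end Pool.Agent.H401R2.Ker
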