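import Pool.Agent.H401R2.Ker

set_option autoImplicit false

namespace Pool.Agent.H401R2.Ker

theorem val3 : loop 0 1 163 200 3 3000 1 0 0 0 0 0 = (9231097585662017527, 3979414695815868045181, 0, 0, 0) := by decide +kernel

end Pool.Agent.H401R2.Ker
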