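import Pool.Agent.H401R2.Tail2

set_option autoImplicit false

namespace Pool.Agent.H401R2

open Complex Filter Topology MeasureTheory
open XiTrunc

lemma norm_sin_le_exp (w : ℂ) : ‖Complex.sin w‖ ≤ Real.exp |w.im| := by
  rw [Complex.sin, norm_div]
  have h1 : ‖cexp (w * I)‖ ≤ Real.exp |w.im| := by
    rw [norm_exp]; apply Real.exp_le_exp.2
    simp only [mul_re, I_re, mul_zero, I_im, mul_one, zero_sub]
    exact neg_le_abs _
  have h2 : ‖cexp (-w * I)‖ ≤ Real.exp |w.im| := by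
    rw [norm_exp]; apply Real.exp_le_exp.2
    simp only [mul_re, neg_re, I_re, mul_zero, neg_im, I_im, mul_one, zero_sub, neg_neg]
    exact le_abs_self _
  have h3 := norm_sub_le (cexp (-w * I)) (cexp (w * I))
  have h4 : ‖(2:ℂ)‖ = 2 := by simp
  rw [h4, norm_mul, norm_I, mul_one]
  linarith

lemma exp_le_two_cosh (x : ℝ) : Real.exp x ≤ 2 * Real.cosh x := by
  rw [Real.cosh_eq]; linarith [Real.exp_pos (-x)]

lemma diff_int {a : ℝ} (ha : 0 < a) (c : ℝ) : Differentiable ℂ (fun z : ℂ =>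
    ∫ u in Set.Ioi (0:ℝ), Complex.cos (z * u) * ((Real.exp (c * u - a * Real.exp (2 * u)) : ℝ) : ℂ)) := by
  intro z0
  set F : ℂ → ℝ → ℂ := fun z u => Complex.cos (z * u) * ((Real.exp (c * u - a * Real.exp (2 * u)) : ℝ) : ℂ) with hF
  set F' : ℂ → ℝ → ℂ := fun z u => (-Complex.sin (z * u) * u) * ((Real.exp (c * u - a * Real.exp (2 * u)) : ℝ) : ℂ) with hF'
  set C : ℝ := ‖z0‖ + 2 with hC
  have hC0 : 0 < C := by positivity
  have hb := (int_cos_exp ha c (C * I)).norm.const_mul 2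
  have h := hasDerivAt_integral_of_dominated_loc_of_deriv_le (μ := volume.restrict (Set.Ioi (0:ℝ)))
    (F := F) (F' := F') (x₀ := z0) (s := Metric.ball z0 1)
    (bound := fun u => 2 * ‖Complex.cos ((C * I : ℂ) * u) * ((Real.exp (c * u - a * Real.exp (2 * u)) : ℝ) : ℂ)‖)
    (Metric.ball_mem_nhds z0 one_pos)
    (Eventually.of_forall fun z => (int_cos_exp ha c z).aestronglyMeasurable)
    (int_cos_exp ha c z0)
    (by
      refine Continuous.aestronglyMeasurable ?_
      rw [hF']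
      fun_prop)
    (by
      refine (ae_restrict_iff' measurableSet_Ioi).2 (ae_of_all _ fun u hu z hz => ?_)
      have hu0 : (0:ℝ) < u := hu
      have hz1 : ‖z‖ ≤ ‖z0‖ + 1 := by
        have h1 : ‖z - z0‖ < 1 := by simpa [dist_eq_norm] using hz
        have h2 := norm_add_le (z - z0) z0
        rw [sub_add_cancel] at h2
        linarith
      rw [hF']
      simp only [norm_mul, norm_neg]
      rw [← mul_assoc]
      refine mul_le_mul_of_nonneg_right ?_ (norm_nonneg _)
      have h1 := norm_sin_le_exp (z * u)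
      rw [im_mul_real z hu0.le] at h1
      have h2 : |z.im| ≤ ‖z0‖ + 1 := (abs_im_le_norm z).trans hz1
      have h3 : ‖(u:ℂ)‖ ≤ Real.exp u := by
        rw [norm_real, Real.norm_of_nonneg hu0.le]
        linarith [Real.add_one_le_exp u]
      have h4 : Complex.cos ((C * I : ℂ) * u) = ((Real.cosh (C * u) : ℝ) : ℂ) := by
        rw [show (C * I : ℂ) * u = ((C * u : ℝ) : ℂ) * I by push_cast; ring, Complex.cos_mul_I]
        push_cast
        rfl
      have h5 : ‖((Real.cosh (C * u) : ℝ) : ℂ)‖ = Real.cosh (C * u) := by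
        rw [norm_real, Real.norm_of_nonneg (Real.cosh_pos _).le]
      rw [h4, h5]
      calc ‖Complex.sin (z * u)‖ * ‖(u:ℂ)‖ ≤ Real.exp (|z.im| * u) * Real.exp u := by gcongr
        _ = Real.exp (|z.im| * u + u) := by rw [Real.exp_add]
        _ ≤ Real.exp (C * u) := by
            apply Real.exp_le_exp.2
            rw [hC]
            nlinarith
        _ ≤ 2 * Real.cosh (C * u) := exp_le_two_cosh _)
    hb
    (by
      refine ae_of_all _ fun u z _ => ?_
      have h1 : HasDerivAt (fun z : ℂ => Complex.cos (z * u)) (-Complex.sin (z * u) * u) z := by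
        have h2 := (hasDerivAt_id z).mul_const (u:ℂ)
        have h3 := h2.ccos
        simpa using h3
      exact h1.mul_const _)
  exact h.2.differentiableAt

lemma differentiable_Phi {n : ℕ} (hn : 1 ≤ n) : Differentiable ℂ (Phi n) := by
  have hn0 : (0:ℝ) < n := by exact_mod_cast hn
  have ha : 0 < Real.pi * (n:ℝ) ^ 2 := by positivity
  have e : Phi n = fun z => (8 * (Real.pi * n ^ 2) ^ 2 : ℂ) * (∫ u in Set.Ioi (0:ℝ), Complex.cos (z * u) *
      ((Real.exp (9/2 * u - (Real.pi * n ^ 2) * Real.exp (2 * u)) : ℝ) : ℂ)) -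
      (12 * (Real.pi * n ^ 2) : ℂ) * (∫ u in Set.Ioi (0:ℝ), Complex.cos (z * u) *
      ((Real.exp (5/2 * u - (Real.pi * n ^ 2) * Real.exp (2 * u)) : ℝ) : ℂ)) := by
    funext z
    unfold Phi G
    have e9 : ∀ u : ℝ, Complex.cos (2 * (z / 2) * u) * ((Real.exp (2 * (9/4) * u -
        Real.pi * (n:ℝ) ^ 2 * Real.exp (2 * u)) : ℝ) : ℂ) = Complex.cos (z * u) *
        ((Real.exp (9/2 * u - (Real.pi * n ^ 2) * Real.exp (2 * u)) : ℝ) : ℂ) := by
      intro u
      rw [show 2 * (z / 2) * (u:ℂ) = z * u by ring, show (2:ℝ) * (9/4) * u = 9/2 * u by ring]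
    have e5 : ∀ u : ℝ, Complex.cos (2 * (z / 2) * u) * ((Real.exp (2 * (5/4) * u -
        Real.pi * (n:ℝ) ^ 2 * Real.exp (2 * u)) : ℝ) : ℂ) = Complex.cos (z * u) *
        ((Real.exp (5/2 * u - (Real.pi * n ^ 2) * Real.exp (2 * u)) : ℝ) : ℂ) := by
      intro u
      rw [show 2 * (z / 2) * (u:ℂ) = z * u by ring, show (2:ℝ) * (5/4) * u = 5/2 * u by ring]
    simp_rw [e9, e5]
    ring
  rw [e]
  exact ((diff_int ha (9/2)).const_mul _).sub ((diff_int ha (5/2)).const_mul _)

lemma differentiable_XiN (N : ℕ) : Differentiable ℂ (XiN N) := by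
  unfold XiN
  have : ∀ n ∈ Finset.Icc 1 N, Differentiable ℂ (Phi n) := fun n hn =>
    differentiable_Phi (Finset.mem_Icc.1 hn).1
  intro z
  exact DifferentiableAt.fun_sum fun n hn => this n hn z

lemma Phi_conj {n : ℕ} (hn : 1 ≤ n) (z : ℂ) : Phi n ((starRingEnd ℂ) z) = (starRingEnd ℂ) (Phi n z) := by
  rw [Phi_eq hn, Phi_eq hn, ← integral_conj]
  refine setIntegral_congr_fun measurableSet_Ioi fun u _ => ?_
  simp only [map_mul, conj_ofReal]
  rw [← Complex.cos_conj, map_mul, conj_ofReal]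

lemma XiN_conj (N : ℕ) (z : ℂ) : XiN N ((starRingEnd ℂ) z) = (starRingEnd ℂ) (XiN N z) := by
  unfold XiN
  rw [map_sum]
  exact Finset.sum_congr rfl fun n hn => Phi_conj (Finset.mem_Icc.1 hn).1 z

lemma XiN_real (N : ℕ) (x : ℝ) : (((XiN N x).re : ℝ) : ℂ) = XiN N x := by
  have h := XiN_conj N x
  rw [conj_ofReal] at h
  exact Complex.conj_eq_iff_re.1 h.symm

end Pool.Agent.H401R2
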