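import Pool.Agent.H401R2.Tail3
import Pool.Agent.H401R2.Chi
import Pool.Agent.H401R2.XiAnal

set_option autoImplicit false

namespace Pool.Agent.H401R2

open Complex Filter Topology MeasureTheory
open XiTrunc

noncomputable def zOf (s : ℂ) : ℂ := -I * (s - 1 / 2)

noncomputable def Bf (s : ℂ) : ℂ := Tl (zOf s) / chi s

/-- the exponent of the model of `Bf` -/
noncomputable def bf (σ t : ℝ) : ℂ :=
  ((Real.log 7000 + Real.log 2 / 2 - 784 * Real.pi - 2 * Real.log t + Real.pi * t / 4 +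
    (1 - σ) / 2 * Real.log (t / (2 * Real.pi)) : ℝ) : ℂ) +
  ((Real.pi - t / 2 * (Real.log (t / (2 * Real.pi)) - 1) + (1 - σ) * Real.pi / 4 : ℝ) : ℂ) * I

lemma zOf_re (σ t : ℝ) : (zOf ((σ:ℂ) + t * I)).re = t := by
  simp [zOf]

lemma zOf_im (σ t : ℝ) : (zOf ((σ:ℂ) + t * I)).im = -(σ - 1 / 2) := by
  simp [zOf]

lemma exp_bf_mul {σ t : ℝ} (ht : 0 < t) : exp (bf σ t) * exp (Lam σ t) =
    -((7000 * √2 * Real.exp (-(784 * Real.pi)) / t ^ 2 : ℝ) : ℂ) := by
  rw [← exp_add]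
  have e : bf σ t + Lam σ t = ((Real.log 7000 + Real.log 2 / 2 + (-(784 * Real.pi)) - 2 * Real.log t : ℝ) : ℂ)
      + Real.pi * I := by
    unfold bf Lam
    push_cast
    ring
  rw [e, exp_add, exp_pi_mul_I, ← ofReal_exp]
  have h2 : Real.exp (Real.log 2 / 2) = √2 := by
    rw [Real.sqrt_eq_rpow, Real.rpow_def_of_pos (by norm_num)]
    congr 1; ring
  have ht2 : Real.exp (2 * Real.log t) = t ^ 2 := by
    rw [two_mul, Real.exp_add, Real.exp_log ht, pow_two]
  rw [Real.exp_sub, Real.exp_add, Real.exp_add, Real.exp_log (by norm_num), h2, ht2]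
  ring

theorem Bf_model {σ t : ℝ} (h0 : 0 < σ) (h1 : σ ≤ 1) (ht1 : 3143 ≤ t) (ht2 : t ≤ 3151) :
    ∃ ε : ℂ, ‖ε‖ ≤ 0.0036 ∧ Bf ((σ:ℂ) + t * I) = exp (bf σ t) * (1 + ε) := by
  have ht0 : 0 < t := by linarith
  obtain ⟨e, he, hchi⟩ := chi_asymp h0 h1 (show (100:ℝ) ≤ t by linarith)
  have htail := tail_main (z := zOf ((σ:ℂ) + t * I)) (by rw [zOf_re]; exact ht1)
    (by rw [zOf_re]; exact ht2) (by
      rw [zOf_im, abs_neg, abs_le]; constructor <;> linarith)
  set T := Tl (zOf ((σ:ℂ) + t * I)) with hT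
  set e1 : ℂ := ((Real.exp (784 * Real.pi) : ℝ) : ℂ) * T - 7000 with he1
  have he' : ‖e‖ ≤ 4 / 3143 := he.trans (by gcongr)
  have h1e : (1 + e) ≠ 0 := by
    intro h
    have : e = -1 := by linear_combination h
    rw [this, norm_neg, norm_one] at he'
    norm_num at he'
  have hT' : T = ((Real.exp (-(784 * Real.pi)) : ℝ) : ℂ) * (7000 + e1) := by
    rw [he1, Real.exp_neg]
    have : ((Real.exp (784 * Real.pi) : ℝ) : ℂ) ≠ 0 := by exact_mod_cast (Real.exp_pos _).ne'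
    push_cast at this ⊢
    field_simp
    ring
  have hexp := exp_bf_mul (σ := σ) ht0
  have hLne : exp (Lam σ t) ≠ 0 := exp_ne_zero _
  have ht2 : ((t:ℂ)) ≠ 0 := by exact_mod_cast ht0.ne'
  have hs2 : ((√2 : ℝ) : ℂ) ≠ 0 := by exact_mod_cast (by positivity : (0:ℝ) < √2).ne'
  refine ⟨(e1 / 7000 - e) / (1 + e), ?_, ?_⟩
  · rw [norm_div]
    have hn1 : ‖e1 / 7000 - e‖ ≤ 16 / 7000 + 4 / 3143 := by
      refine (norm_sub_le _ _).trans ?_
      rw [norm_div]
      have : ‖(7000:ℂ)‖ = 7000 := by simp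
      rw [this]
      gcongr
    have hn2 : 1 - 4 / 3143 ≤ ‖1 + e‖ := by
      have := norm_sub_norm_le (1:ℂ) (-e)
      rw [norm_one, norm_neg, sub_neg_eq_add] at this
      linarith
    calc ‖e1 / 7000 - e‖ / ‖1 + e‖ ≤ (16 / 7000 + 4 / 3143) / (1 - 4 / 3143) := by
          apply div_le_div₀ (by norm_num) hn1 (by norm_num) hn2
      _ ≤ 0.0036 := by norm_num
  · unfold Bf
    rw [← hT, hchi, hT']
    have e3 : (1 + (e1 / 7000 - e) / (1 + e)) = (1 + e1 / 7000) / (1 + e) := by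
      field_simp
      ring
    rw [e3]
    have e4 : exp (bf σ t) = -((7000 * √2 * Real.exp (-(784 * Real.pi)) / t ^ 2 : ℝ) : ℂ) / exp (Lam σ t) := by
      rw [← hexp]; field_simp
    rw [e4]
    push_cast
    field_simp

lemma chi_ne_zero {s : ℂ} (h0 : 0 < s.re) (h1 : s ≠ 1) : chi s ≠ 0 := by
  unfold chi
  have hs0 : s ≠ 0 := by intro h; rw [h] at h0; simp at h0
  have hpi : (Real.pi : ℂ) ≠ 0 := by exact_mod_cast Real.pi_ne_zero
  have h2 : (Real.pi : ℂ) ^ (-s / 2) ≠ 0 := by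
    rw [Ne, cpow_eq_zero_iff]; exact fun h => hpi h.1
  have h3 : Gamma (s / 2) ≠ 0 := Gamma_ne_zero_of_re_pos (by simpa using h0)
  have h4 : s - 1 ≠ 0 := sub_ne_zero.2 h1
  exact mul_ne_zero (mul_ne_zero (div_ne_zero (mul_ne_zero hs0 h4) two_ne_zero) h2) h3

lemma differentiableAt_chi {s : ℂ} (h0 : 0 < s.re) : DifferentiableAt ℂ chi s := by
  unfold chi
  have hpi : (Real.pi : ℂ) ≠ 0 := by exact_mod_cast Real.pi_ne_zero
  have h3 : DifferentiableAt ℂ (fun s : ℂ => Gamma (s / 2)) s := by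
    have h4 : DifferentiableAt ℂ Gamma (s / 2) := by
      apply differentiableAt_Gamma
      intro m hm
      have : (s / 2).re = (-(m:ℂ)).re := by rw [hm]
      simp at this
      have hm0 : (0:ℝ) ≤ m := Nat.cast_nonneg m
      linarith
    exact h4.comp s (by fun_prop)
  have h2 : DifferentiableAt ℂ (fun s : ℂ => (Real.pi : ℂ) ^ (-s / 2)) s := by
    apply DifferentiableAt.const_cpow (by fun_prop)
    left; exact hpi
  exact ((by fun_prop : DifferentiableAt ℂ (fun s : ℂ => s * (s - 1) / 2) s).mul h2).mul h3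

lemma differentiable_Tl : Differentiable ℂ Tl := by
  unfold Tl
  exact differentiable_XiC.sub (differentiable_XiN 27)

/-- the function whose zeros are the zeros of `XiN 27` -/
noncomputable def Hf (s : ℂ) : ℂ := riemannZeta s - Bf s

lemma differentiableAt_Hf {s : ℂ} (h0 : 0 < s.re) (h1 : s ≠ 1) : DifferentiableAt ℂ Hf s := by
  unfold Hf Bf
  apply (differentiableAt_riemannZeta h1).sub
  apply DifferentiableAt.fun_div _ (differentiableAt_chi h0) (chi_ne_zero h0 h1)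
  unfold zOf
  exact (differentiable_Tl _).comp s (by fun_prop)

lemma XiN_eq_Hf {s : ℂ} (h0 : 0 < s.re) (h1 : s ≠ 1) : XiN 27 (zOf s) = chi s * Hf s := by
  have hX : XiC (zOf s) = chi s * riemannZeta s := by
    rw [XiC_eq (z := zOf s) (s := s) (by
      unfold zOf
      linear_combination (s - 1/2) * I_sq) h0 h1]
    rfl
  have hT : Tl (zOf s) = chi s * Bf s := by
    unfold Bf
    rw [mul_div_cancel₀ _ (chi_ne_zero h0 h1)]
  have : XiN 27 (zOf s) = XiC (zOf s) - Tl (zOf s) := by unfold Tl; ring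
  rw [this, hX, hT]
  unfold Hf
  ring

end Pool.Agent.H401R2
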