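import Pool.Agent.H401R2.KerLoop
import Pool.Agent.H401R2.KerVal
import Pool.Agent.H401R2.KerVal3
import Pool.Agent.H401R2.Model
import Pool.Agent.H401R2.EM

set_option autoImplicit false

namespace Pool.Agent.H401R2

open Complex Finset
open Pool.Agent.H401R2.Ker

/-- the centre of the disc -/
noncomputable def sc : ℂ := ((0.815 : ℝ) : ℂ) + ((3143.2207 : ℝ) : ℂ) * I

noncomputable def Sw (w : ℕ) : ℂ := ∑ n ∈ Icc (1:ℕ) 3000, (n : ℂ) ^ (-sc) * (Real.log (n : ℝ) : ℂ) ^ w

lemma diff_le (a b c d : ℝ) : ‖((a:ℂ) + (b:ℂ) * I) - ((c:ℂ) + (d:ℂ) * I)‖ ≤ |a - c| + |b - d| := by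
  have e : ((a:ℂ) + (b:ℂ) * I) - ((c:ℂ) + (d:ℂ) * I) = ((a - c : ℝ) : ℂ) + ((b - d : ℝ) : ℂ) * I := by
    push_cast; ring
  rw [e]
  refine (norm_add_le _ _).trans ?_
  rw [norm_mul, norm_I, mul_one, norm_real, norm_real, Real.norm_eq_abs, Real.norm_eq_abs]

lemma Sw_loop (w : ℕ) : ‖val (loop 31432207 10000 163 200 w 3000 1 0 0 0 0 0) - Sw w‖ ≤ 4e-8 * 9 ^ w * 3000 := by
  have h := (loop_sum (tn := 31432207) (td := 10000) (sn := 163) (sd := 200) (w := w) (N := 3000)
    (by norm_num) (by norm_num) (by norm_num) (by norm_num) le_rfl).2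
  have e1 : (((163:ℕ):ℝ) / ((200:ℕ):ℝ)) = 0.815 := by norm_num
  have e2 : (((31432207:ℕ):ℝ) / ((10000:ℕ):ℝ)) = 3143.2207 := by norm_num
  rw [e1, e2] at h
  have e3 : ((3000:ℕ):ℝ) = 3000 := by norm_num
  rw [e3] at h
  exact h

lemma val_near {p : ℕ × ℕ × ℕ × ℕ × ℕ} {c d e : ℝ}
    (h : |(hat p.2.1 - hat p.2.2.1) - c| + |(hat p.2.2.2.1 - hat p.2.2.2.2) - d| ≤ e) :
    ‖val p - ((c:ℂ) + (d:ℂ) * I)‖ ≤ e := (diff_le _ _ _ _).trans h

lemma S0_num : ‖Sw 0 - (((0.4739645:ℝ):ℂ) + ((0.2071373:ℝ):ℂ) * I)‖ ≤ 1.3e-4 := by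
  have h := Sw_loop 0
  rw [val0] at h
  have h2 := val_near (p := (9231097585662017527, 7380181621826072363, 6833737794303871070, 6694785144820734471,
      6455972082627497810)) (c := 0.4739645) (d := 0.2071373) (e := 1e-7) (by
    unfold hat
    norm_num [abs_of_pos, abs_of_neg])
  have e : Sw 0 - (((0.4739645:ℝ):ℂ) + ((0.2071373:ℝ):ℂ) * I) =
    (val (9231097585662017527, 7380181621826072363, 6833737794303871070, 6694785144820734471,
      6455972082627497810) - (((0.4739645:ℝ):ℂ) + ((0.2071373:ℝ):ℂ) * I)) -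
    (val (9231097585662017527, 7380181621826072363, 6833737794303871070, 6694785144820734471,
      6455972082627497810) - Sw 0) := by ring
  rw [e]
  refine (norm_sub_le _ _).trans ((add_le_add h2 h).trans ?_)
  norm_num

lemma S1_num : ‖Sw 1 - (((-0.4759277:ℝ):ℂ) + ((-0.1233688:ℝ):ℂ) * I)‖ ≤ 1.1e-3 := by
  have h := Sw_loop 1
  rw [val1] at h
  have h2 := val_near (p := (9231097585662017527, 33394203333393948590, 33942910566747857871, 33113000258407379987,
      33255234823337219167)) (c := -0.4759277) (d := -0.1233688) (e := 1e-7) (by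
    unfold hat
    norm_num [abs_of_pos, abs_of_neg])
  have e : Sw 1 - (((-0.4759277:ℝ):ℂ) + ((-0.1233688:ℝ):ℂ) * I) =
    (val (9231097585662017527, 33394203333393948590, 33942910566747857871, 33113000258407379987,
      33255234823337219167) - (((-0.4759277:ℝ):ℂ) + ((-0.1233688:ℝ):ℂ) * I)) -
    (val (9231097585662017527, 33394203333393948590, 33942910566747857871, 33113000258407379987,
      33255234823337219167) - Sw 1) := by ring
  rw [e]
  refine (norm_sub_le _ _).trans ((add_le_add h2 h).trans ?_)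
  norm_num

lemma S2_num : ‖Sw 2‖ ≤ 1.4 := by
  have h := Sw_loop 2
  rw [val2] at h
  have h2 := val_near (p := (9231097585662017527, 200159411378485492574, 199536587630629617430, 197511565426821508910,
      196536281364475064328)) (c := 0.54) (d := 0.846) (e := 1e-3) (by
    unfold hat
    norm_num [abs_of_pos, abs_of_neg])
  have h3 : ‖((0.54:ℝ):ℂ) + ((0.846:ℝ):ℂ) * I‖ ≤ 0.54 + 0.846 := by
    refine (norm_add_le _ _).trans ?_
    rw [norm_mul, norm_I, mul_one, norm_real, norm_real]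
    norm_num
  have e : Sw 2 = (((0.54:ℝ):ℂ) + ((0.846:ℝ):ℂ) * I) +
    (val (9231097585662017527, 200159411378485492574, 199536587630629617430, 197511565426821508910,
      196536281364475064328) - (((0.54:ℝ):ℂ) + ((0.846:ℝ):ℂ) * I)) -
    (val (9231097585662017527, 200159411378485492574, 199536587630629617430, 197511565426821508910,
      196536281364475064328) - Sw 2) := by ring
  rw [e]
  refine (norm_sub_le _ _).trans ?_
  have h4 := norm_add_le (((0.54:ℝ):ℂ) + ((0.846:ℝ):ℂ) * I)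
    (val (9231097585662017527, 200159411378485492574, 199536587630629617430, 197511565426821508910,
      196536281364475064328) - (((0.54:ℝ):ℂ) + ((0.846:ℝ):ℂ) * I))
  refine (add_le_add (h4.trans (add_le_add h3 h2)) h).trans ?_
  norm_num

/-- the third logarithmic moment -/
lemma A3_num : ∑ n ∈ Icc (1:ℕ) 3000, (n : ℝ) ^ (-(0.815:ℝ)) * Real.log (n : ℝ) ^ 3 ≤ 3452 := by
  have h := (loop_sum (tn := 0) (td := 1) (sn := 163) (sd := 200) (w := 3) (N := 3000)
    (by norm_num) (by norm_num) (by norm_num) (by norm_num) le_rfl).2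
  rw [val3] at h
  have e1 : (((163:ℕ):ℝ) / ((200:ℕ):ℝ)) = 0.815 := by norm_num
  have e2 : (((0:ℕ):ℝ) / ((1:ℕ):ℝ)) = 0 := by norm_num
  rw [e1, e2] at h
  have e3 : ∑ n ∈ Icc (1:ℕ) 3000, (n : ℂ) ^ (-(((0.815:ℝ):ℂ) + ((0:ℝ):ℂ) * I)) * (Real.log (n : ℝ) : ℂ) ^ 3 =
      ((∑ n ∈ Icc (1:ℕ) 3000, (n : ℝ) ^ (-(0.815:ℝ)) * Real.log (n : ℝ) ^ 3 : ℝ) : ℂ) := by
    rw [ofReal_sum]
    refine sum_congr rfl fun n hn => ?_
    have hn0 : (0:ℝ) ≤ n := Nat.cast_nonneg n
    rw [ofReal_mul, ofReal_cpow hn0, ofReal_pow]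
    congr 2
    simp
  rw [e3] at h
  have h4 := (re_im_bd h).1
  rw [ofReal_re] at h4
  have e5 : (val (9231097585662017527, 3979414695815868045181, 0, 0, 0)).re = hat 3979414695815868045181 - hat 0 := by
    simp [Ker.val]
  rw [e5, abs_le] at h4
  have h6 : hat 3979414695815868045181 - hat 0 ≤ 3451.6 := by unfold hat; norm_num
  have h7 := h4.1
  have h8 : (4e-8:ℝ) * 9 ^ 3 * ((3000:ℕ):ℝ) ≤ 0.1 := by norm_num
  have h9 : (3451.6:ℝ) + 0.1 ≤ 3452 := by norm_num
  linarith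

/-- number of terms: the value at `1/2 + 3145.25 i` -/
lemma Sb_num : ‖(∑ n ∈ Icc (1:ℕ) 1296, (n : ℂ) ^ (-(((0.5:ℝ):ℂ) + ((3145.25:ℝ):ℂ) * I))) -
    (((7.178203:ℝ):ℂ) + ((5.34407:ℝ):ℂ) * I)‖ ≤ 6e-5 := by
  have h := (loop_sum (tn := 12581) (td := 4) (sn := 1) (sd := 2) (w := 0) (N := 1296)
    (by norm_num) (by norm_num) (by norm_num) (by norm_num) (by norm_num)).2
  rw [valb] at h
  have e1 : (((1:ℕ):ℝ) / ((2:ℕ):ℝ)) = 0.5 := by norm_num
  have e2 : (((12581:ℕ):ℝ) / ((4:ℕ):ℝ)) = 3145.25 := by norm_num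
  rw [e1, e2] at h
  simp only [pow_zero, mul_one] at h
  have h2 := val_near (p := (8263921349516888994, 30854270579866122036, 22578365958509098844, 28118964394606932835,
      21957670614167005520)) (c := 7.178203) (d := 5.34407) (e := 1e-6) (by
    unfold hat
    norm_num [abs_of_pos, abs_of_neg])
  set S := ∑ n ∈ Icc (1:ℕ) 1296, (n : ℂ) ^ (-(((0.5:ℝ):ℂ) + ((3145.25:ℝ):ℂ) * I))
  have e : S - (((7.178203:ℝ):ℂ) + ((5.34407:ℝ):ℂ) * I) =
    (val (8263921349516888994, 30854270579866122036, 22578365958509098844, 28118964394606932835,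
      21957670614167005520) - (((7.178203:ℝ):ℂ) + ((5.34407:ℝ):ℂ) * I)) -
    (val (8263921349516888994, 30854270579866122036, 22578365958509098844, 28118964394606932835,
      21957670614167005520) - S) := by ring
  rw [e]
  refine (norm_sub_le _ _).trans ((add_le_add h2 h).trans ?_)
  norm_num

end Pool.Agent.H401R2
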