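import Pool.Agent.H401R2.Num

set_option autoImplicit false

namespace Pool.Agent.H401R2

open Complex Finset
open Pool.Agent.H401R2.Ker

lemma norm_le_of_sq {a b c : ℝ} (hc : 0 ≤ c) (h : a ^ 2 + b ^ 2 ≤ c ^ 2) :
    ‖(a : ℂ) + (b : ℂ) * I‖ ≤ c := by
  have h1 : ‖(a : ℂ) + (b : ℂ) * I‖ ^ 2 = a ^ 2 + b ^ 2 := by
    rw [Complex.sq_norm, normSq_add_mul_I]
  exact abs_le_of_sq_le_sq' (by rw [h1]; exact h) hc |>.2

lemma le_norm_of_sq {a b c : ℝ} (h : c ^ 2 ≤ a ^ 2 + b ^ 2) :
    c ≤ ‖(a : ℂ) + (b : ℂ) * I‖ := by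
  have h1 : ‖(a : ℂ) + (b : ℂ) * I‖ ^ 2 = a ^ 2 + b ^ 2 := by
    rw [Complex.sq_norm, normSq_add_mul_I]
  exact abs_le_of_sq_le_sq' (by rw [h1]; exact h) (norm_nonneg _) |>.2

lemma horner_step {a b c d k A B : ℝ} (hA : 1 + (a * c - b * d) / k = A) (hB : (a * d + b * c) / k = B) :
    1 + ((a : ℂ) + (b : ℂ) * I) / k * ((c : ℂ) + (d : ℂ) * I) = (A : ℂ) + (B : ℂ) * I := by
  rw [← hA, ← hB]
  push_cast
  linear_combination ((b : ℂ) * d / k) * I_sq

lemma exp_num_c : ‖exp ((((-32987/50000) : ℝ) : ℂ) + (((2589/6250) : ℝ) : ℂ) * I) - ((((23663/50000) : ℝ) : ℂ) + (((2601/12500) : ℝ) : ℂ) * I)‖ ≤ 1e-5 := by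
  set x : ℂ := (((-32987/50000) : ℝ) : ℂ) + (((2589/6250) : ℝ) : ℂ) * I with hx
  have hn : ‖x‖ ≤ (39/50) := norm_le_of_sq (by norm_num) (by norm_num)
  have h := Complex.exp_bound' (x := x) (n := 9) (by push_cast; linarith)
  have e : ∑ m ∈ range 9, x ^ m / (m.factorial : ℂ) = (1 + x / 1 * (1 + x / 2 * (1 + x / 3 * (1 + x / 4 * (1 + x / 5 * (1 + x / 6 * (1 + x / 7 * (1 + x / 8 * 1)))))))) := by
    simp only [sum_range_succ, sum_range_zero, Nat.factorial]
    push_cast
    ring
  have h8 : 1 + x / 8 * ((((1) : ℝ) : ℂ) + (((0) : ℝ) : ℂ) * I) = ((((367013/400000) : ℝ) : ℂ) + (((2589/50000) : ℝ) : ℂ) * I) :=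
    horner_step (by norm_num) (by norm_num)
  have h7 : 1 + x / 7 * ((((367013/400000) : ℝ) : ℂ) + (((2589/50000) : ℝ) : ℂ) * I) = ((((5098574209/5600000000) : ℝ) : ℂ) + (((61770951/1250000000) : ℝ) : ℂ) * I) :=
    horner_step (by norm_num) (by norm_num)
  have h6 : 1 + x / 6 * ((((5098574209/5600000000) : ℝ) : ℂ) + (((61770951/1250000000) : ℝ) : ℂ) * I) = ((((37652040521236381/42000000000000000) : ℝ) : ℂ) + (((100492759542869/1750000000000000) : ℝ) : ℂ) * I) :=
    horner_step (by norm_num) (by norm_num)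
  have h5 : 1 + x / 5 * ((((37652040521236381/42000000000000000) : ℝ) : ℂ) + (((100492759542869/1750000000000000) : ℝ) : ℂ) * I) = ((((9208018394470329834481/10500000000000000000000) : ℝ) : ℂ) + (((291787563107863771/4375000000000000000) : ℝ) : ℂ) * I) :=
    horner_step (by norm_num) (by norm_num)
  have h4 : 1 + x / 4 * ((((9208018394470329834481/10500000000000000000000) : ℝ) : ℂ) + (((291787563107863771/4375000000000000000) : ℝ) : ℂ) * I) = ((((1781750687604591051130090453/2100000000000000000000000000) : ℝ) : ℂ) + (((6984000240003984425759403/87500000000000000000000000) : ℝ) : ℂ) * I) :=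
    horner_step (by norm_num) (by norm_num)
  have h3 : 1 + x / 3 * ((((1781750687604591051130090453/2100000000000000000000000000) : ℝ) : ℂ) + (((6984000240003984425759403/87500000000000000000000000) : ℝ) : ℂ) * I) = ((((1444307013466767167920798949191/1800000000000000000000000000000) : ℝ) : ℂ) + (((653634813742875321436371317089/6562500000000000000000000000000) : ℝ) : ℂ) * I) :=
    horner_step (by norm_num) (by norm_num)
  have h2 : 1 + x / 2 * ((((1444307013466767167920798949191/1800000000000000000000000000000) : ℝ) : ℂ) + (((653634813742875321436371317089/6562500000000000000000000000000) : ℝ) : ℂ) * I) = ((((22512584751097419685000079995493110861/31500000000000000000000000000000000000) : ℝ) : ℂ) + (((175003563506946055078795500027941089/1312500000000000000000000000000000000) : ℝ) : ℂ) * I) :=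
    horner_step (by norm_num) (by norm_num)
  have h1 : 1 + x / 1 * ((((22512584751097419685000079995493110861/31500000000000000000000000000000000000) : ℝ) : ℂ) + (((175003563506946055078795500027941089/1312500000000000000000000000000000000) : ℝ) : ℂ) * I) = ((((745385195439008616223894063670779571979361/1575000000000000000000000000000000000000000) : ℝ) : ℂ) + (((22759196817989072782118069794481436617/109375000000000000000000000000000000000) : ℝ) : ℂ) * I) :=
    horner_step (by norm_num) (by norm_num)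
  have h0 : (1 : ℂ) = (((1 : ℝ) : ℂ) + (((0) : ℝ) : ℂ) * I) := by simp
  have e2 : (1 + x / 1 * (1 + x / 2 * (1 + x / 3 * (1 + x / 4 * (1 + x / 5 * (1 + x / 6 * (1 + x / 7 * (1 + x / 8 * 1)))))))) = ((((745385195439008616223894063670779571979361/1575000000000000000000000000000000000000000) : ℝ) : ℂ) + (((22759196817989072782118069794481436617/109375000000000000000000000000000000000) : ℝ) : ℂ) * I) := by
    have g8 : (1 + x / 8 * 1) = ((((367013/400000) : ℝ) : ℂ) + (((2589/50000) : ℝ) : ℂ) * I) := by
      rw [← h8]; simp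
    rw [g8, h7, h6, h5, h4, h3, h2, h1]
  rw [e, e2] at h
  have h5 : ‖x‖ ^ 9 ≤ (39/50) ^ 9 := by gcongr
  have h6 : ‖x‖ ^ 9 / ((9 : ℕ).factorial : ℝ) * 2 ≤ (39/50) ^ 9 / ((9 : ℕ).factorial : ℝ) * 2 := by gcongr
  have h7 := diff_le ((745385195439008616223894063670779571979361/1575000000000000000000000000000000000000000)) ((22759196817989072782118069794481436617/109375000000000000000000000000000000000)) (23663/50000) (2601/12500)
  have h8 := norm_sub_le_norm_sub_add_norm_sub (exp x) ((((745385195439008616223894063670779571979361/1575000000000000000000000000000000000000000) : ℝ) : ℂ) + (((22759196817989072782118069794481436617/109375000000000000000000000000000000000) : ℝ) : ℂ) * I) ((((23663/50000) : ℝ) : ℂ) + (((2601/12500) : ℝ) : ℂ) * I)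
  refine h8.trans ((add_le_add (h.trans h6) h7).trans ?_)
  norm_num [Nat.factorial, abs_of_pos, abs_of_neg]

lemma exp_num_b : ‖exp ((((-239/125) : ℝ) : ℂ) + (((-319/500) : ℝ) : ℂ) * I) - ((((1187/10000) : ℝ) : ℂ) + (((-8801/100000) : ℝ) : ℂ) * I)‖ ≤ 5e-4 := by
  set x : ℂ := (((-239/125) : ℝ) : ℂ) + (((-319/500) : ℝ) : ℂ) * I with hx
  have hn : ‖x‖ ≤ (101/50) := norm_le_of_sq (by norm_num) (by norm_num)
  have h := Complex.exp_bound' (x := x) (n := 12) (by push_cast; linarith)
  have e : ∑ m ∈ range 12, x ^ m / (m.factorial : ℂ) = (1 + x / 1 * (1 + x / 2 * (1 + x / 3 * (1 + x / 4 * (1 + x / 5 * (1 + x / 6 * (1 + x / 7 * (1 + x / 8 * (1 + x / 9 * (1 + x / 10 * (1 + x / 11 * 1))))))))))) := by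
    simp only [sum_range_succ, sum_range_zero, Nat.factorial]
    push_cast
    ring
  have h11 : 1 + x / 11 * ((((1) : ℝ) : ℂ) + (((0) : ℝ) : ℂ) * I) = ((((1136/1375) : ℝ) : ℂ) + (((-29/500) : ℝ) : ℂ) * I) :=
    horner_step (by norm_num) (by norm_num)
  have h10 : 1 + x / 10 * ((((1136/1375) : ℝ) : ℂ) + (((-29/500) : ℝ) : ℂ) * I) = ((((922167/1100000) : ℝ) : ℂ) + (((-26013/625000) : ℝ) : ℂ) * I) :=
    horner_step (by norm_num) (by norm_num)
  have h9 : 1 + x / 9 * ((((922167/1100000) : ℝ) : ℂ) + (((-26013/625000) : ℝ) : ℂ) * I) = ((((4222712093/5156250000) : ℝ) : ℂ) + (((-189699121/3750000000) : ℝ) : ℂ) * I) :=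
    horner_step (by norm_num) (by norm_num)
  have h8 : 1 + x / 8 * ((((4222712093/5156250000) : ℝ) : ℂ) + (((-189699121/3750000000) : ℝ) : ℂ) * I) = ((((132039043697147/165000000000000) : ℝ) : ℂ) + (((-2661056153/50000000000) : ℝ) : ℂ) * I) :=
    horner_step (by norm_num) (by norm_num)
  have h7 : 1 + x / 7 * ((((132039043697147/165000000000000) : ℝ) : ℂ) + (((-2661056153/50000000000) : ℝ) : ℂ) * I) = ((((28029336275829023/36093750000000000) : ℝ) : ℂ) + (((-3065941362536863/52500000000000000) : ℝ) : ℂ) * I) :=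
    horner_step (by norm_num) (by norm_num)
  have h6 : 1 + x / 6 * ((((28029336275829023/36093750000000000) : ℝ) : ℂ) + (((-3065941362536863/52500000000000000) : ℝ) : ℂ) * I) = ((((2462866445873861737/3300000000000000000) : ℝ) : ℂ) + (((-2518643022349856411/39375000000000000000) : ℝ) : ℂ) * I) :=
    horner_step (by norm_num) (by norm_num)
  have h5 : 1 + x / 5 * ((((2462866445873861737/3300000000000000000) : ℝ) : ℂ) + (((-2518643022349856411/39375000000000000000) : ℝ) : ℂ) * I) = ((((382473207169275776201863/541406250000000000000000) : ℝ) : ℂ) + (((-27865850720963694030161/393750000000000000000000) : ℝ) : ℂ) * I) :=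
    horner_step (by norm_num) (by norm_num)
  have h4 : 1 + x / 4 * ((((382473207169275776201863/541406250000000000000000) : ℝ) : ℂ) + (((-27865850720963694030161/393750000000000000000000) : ℝ) : ℂ) * I) = ((((5639563641389517261256316827/8662500000000000000000000000) : ℝ) : ℂ) + (((-29568586082871756469523/375000000000000000000000) : ℝ) : ℂ) * I) :=
    horner_step (by norm_num) (by norm_num)
  have h3 : 1 + x / 3 * ((((5639563641389517261256316827/8662500000000000000000000000) : ℝ) : ℂ) + (((-29568586082871756469523/375000000000000000000000) : ℝ) : ℂ) * I) = ((((230763725151423369124709158709/406054687500000000000000000000) : ℝ) : ℂ) + (((-104185452180322662288218813183/1181250000000000000000000000000) : ℝ) : ℂ) * I) :=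
    horner_step (by norm_num) (by norm_num)
  have h2 : 1 + x / 2 * ((((230763725151423369124709158709/406054687500000000000000000000) : ℝ) : ℂ) + (((-104185452180322662288218813183/1181250000000000000000000000000) : ℝ) : ℂ) * I) = ((((707128808694210040605401600167/1650000000000000000000000000000) : ℝ) : ℂ) + (((-28636861164033105350048228469751/295312500000000000000000000000000) : ℝ) : ℂ) * I) :=
    horner_step (by norm_num) (by norm_num)
  have h1 : 1 + x / 1 * ((((707128808694210040605401600167/1650000000000000000000000000000) : ℝ) : ℂ) + (((-28636861164033105350048228469751/295312500000000000000000000000000) : ℝ) : ℂ) * I) = ((((96413597555908880326119639792664433/812109375000000000000000000000000000) : ℝ) : ℂ) + (((-51983184594277623164674164769810801/590625000000000000000000000000000000) : ℝ) : ℂ) * I) :=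
    horner_step (by norm_num) (by norm_num)
  have h0 : (1 : ℂ) = (((1 : ℝ) : ℂ) + (((0) : ℝ) : ℂ) * I) := by simp
  have e2 : (1 + x / 1 * (1 + x / 2 * (1 + x / 3 * (1 + x / 4 * (1 + x / 5 * (1 + x / 6 * (1 + x / 7 * (1 + x / 8 * (1 + x / 9 * (1 + x / 10 * (1 + x / 11 * 1))))))))))) = ((((96413597555908880326119639792664433/812109375000000000000000000000000000) : ℝ) : ℂ) + (((-51983184594277623164674164769810801/590625000000000000000000000000000000) : ℝ) : ℂ) * I) := by
    have g11 : (1 + x / 11 * 1) = ((((1136/1375) : ℝ) : ℂ) + (((-29/500) : ℝ) : ℂ) * I) := by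
      rw [← h11]; simp
    rw [g11, h10, h9, h8, h7, h6, h5, h4, h3, h2, h1]
  rw [e, e2] at h
  have h5 : ‖x‖ ^ 12 ≤ (101/50) ^ 12 := by gcongr
  have h6 : ‖x‖ ^ 12 / ((12 : ℕ).factorial : ℝ) * 2 ≤ (101/50) ^ 12 / ((12 : ℕ).factorial : ℝ) * 2 := by gcongr
  have h7 := diff_le ((96413597555908880326119639792664433/812109375000000000000000000000000000)) ((-51983184594277623164674164769810801/590625000000000000000000000000000000)) (1187/10000) (-8801/100000)
  have h8 := norm_sub_le_norm_sub_add_norm_sub (exp x) ((((96413597555908880326119639792664433/812109375000000000000000000000000000) : ℝ) : ℂ) + (((-51983184594277623164674164769810801/590625000000000000000000000000000000) : ℝ) : ℂ) * I) ((((1187/10000) : ℝ) : ℂ) + (((-8801/100000) : ℝ) : ℂ) * I)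
  refine h8.trans ((add_le_add (h.trans h6) h7).trans ?_)
  norm_num [Nat.factorial, abs_of_pos, abs_of_neg]

end Pool.Agent.H401R2
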