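import Pool.Agent.H401R2.NumExp

set_option autoImplicit false

namespace Pool.Agent.H401R2

open Complex Finset

lemma log_lo {a x : ℝ} (hx0 : 0 ≤ x) (hx1 : x < 1) (h : (1 + x) / (1 - x) ≤ a) :
    2 * (x + x ^ 3 / 3 + x ^ 5 / 5) ≤ Real.log a := by
  have h1 := Real.sum_range_le_log_div hx0 hx1 3
  have h2 : 0 < (1 + x) / (1 - x) := div_pos (by linarith) (by linarith)
  have h3 := Real.log_le_log h2 h
  simp only [sum_range_succ, sum_range_zero] at h1
  norm_num at h1
  linarith

lemma log_hi {a x : ℝ} (hx0 : 0 ≤ x) (hx1 : x < 1) (ha : 0 < a) (h : a ≤ (1 + x) / (1 - x)) :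
    Real.log a ≤ 2 * (x + x ^ 3 / 3 + x ^ 5 / 5 + x ^ 7 / (1 - x ^ 2)) := by
  have h1 := Real.log_div_le_sum_range_add hx0 hx1 3
  have h3 := Real.log_le_log ha h
  simp only [sum_range_succ, sum_range_zero] at h1
  norm_num at h1
  linarith

lemma log_t {t : ℝ} (ht : 0 < t) : Real.log (t / (2 * Real.pi)) =
    9 * Real.log 2 - Real.log (1024 * Real.pi / t) := by
  have hp := Real.pi_pos
  rw [Real.log_div (by positivity) (by positivity), Real.log_div (by positivity) (by positivity),
    Real.log_mul (by norm_num) (by positivity), Real.log_mul (by norm_num) (by positivity)]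
  have : Real.log 1024 = 10 * Real.log 2 := by
    rw [show (1024:ℝ) = 2 ^ 10 by norm_num, Real.log_pow]; norm_num
  rw [this]; ring

lemma log_7000 {t : ℝ} (ht : 0 < t) : Real.log 7000 - 2 * Real.log t =
    Real.log (7000 * 2048 / t ^ 2) - 11 * Real.log 2 := by
  rw [Real.log_div (by positivity) (by positivity), Real.log_mul (by norm_num) (by norm_num),
    Real.log_pow]
  have : Real.log 2048 = 11 * Real.log 2 := by
    rw [show (2048:ℝ) = 2 ^ 11 by norm_num, Real.log_pow]; norm_num
  rw [this]; push_cast; ring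

lemma ell_c : |Real.log (3143.2207 / (2 * Real.pi)) - 6.2151262| ≤ 5e-8 := by
  have p1 := Real.pi_gt_d20
  have p2 := Real.pi_lt_d20
  have l1 := Real.log_two_gt_d9
  have l2 := Real.log_two_lt_d9
  rw [log_t (by norm_num)]
  have h1 := log_lo (a := 1024 * Real.pi / 3143.2207) (x := 0.01159869862) (by norm_num) (by norm_num) (by
    rw [le_div_iff₀ (by norm_num)]
    norm_num at p1 ⊢
    linarith)
  have h2 := log_hi (a := 1024 * Real.pi / 3143.2207) (x := 0.01159869863) (by norm_num) (by norm_num) (by positivity) (by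
    rw [div_le_iff₀ (by norm_num)]
    norm_num at p2 ⊢
    linarith)
  norm_num at h1 h2 l1 l2 ⊢
  rw [abs_le]
  constructor <;> linarith

lemma ell_b : |Real.log (3145.25 / (2 * Real.pi)) - 6.2157716| ≤ 5e-8 := by
  have p1 := Real.pi_gt_d20
  have p2 := Real.pi_lt_d20
  have l1 := Real.log_two_gt_d9
  have l2 := Real.log_two_lt_d9
  rw [log_t (by norm_num)]
  have h1 := log_lo (a := 1024 * Real.pi / 3145.25) (x := 0.01127603915) (by norm_num) (by norm_num) (by
    rw [le_div_iff₀ (by norm_num)]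
    norm_num at p1 ⊢
    linarith)
  have h2 := log_hi (a := 1024 * Real.pi / 3145.25) (x := 0.01127603916) (by norm_num) (by norm_num) (by positivity) (by
    rw [div_le_iff₀ (by norm_num)]
    norm_num at p2 ⊢
    linarith)
  norm_num at h1 h2 l1 l2 ⊢
  rw [abs_le]
  constructor <;> linarith

lemma ell_d : 6.2 ≤ Real.log (3150 / (2 * Real.pi)) := by
  have p1 := Real.pi_gt_d20
  have p2 := Real.pi_lt_d20
  have l1 := Real.log_two_gt_d9
  rw [log_t (by norm_num)]
  have h2 := log_hi (a := 1024 * Real.pi / 3150) (x := 0.0106) (by norm_num) (by norm_num) (by positivity) (by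
    rw [div_le_iff₀ (by norm_num)]
    norm_num at p2 ⊢
    linarith)
  norm_num at h2 l1 ⊢
  linarith

lemma l7_c : |Real.log 7000 - 2 * Real.log 3143.2207 - (-7.252341)| ≤ 2e-5 := by
  have l1 := Real.log_two_gt_d9
  have l2 := Real.log_two_lt_d9
  rw [log_7000 (by norm_num)]
  have h1 := log_lo (a := 7000 * 2048 / 3143.2207 ^ 2) (x := 0.184018) (by norm_num) (by norm_num) (by norm_num)
  have h2 := log_hi (a := 7000 * 2048 / 3143.2207 ^ 2) (x := 0.184019) (by norm_num) (by norm_num) (by norm_num) (by norm_num)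
  norm_num at h1 h2 l1 l2 ⊢
  rw [abs_le]
  constructor <;> linarith

lemma l7_b : |Real.log 7000 - 2 * Real.log 3145.25 - (-7.253632)| ≤ 2e-5 := by
  have l1 := Real.log_two_gt_d9
  have l2 := Real.log_two_lt_d9
  rw [log_7000 (by norm_num)]
  have h1 := log_lo (a := 7000 * 2048 / 3145.25 ^ 2) (x := 0.183394) (by norm_num) (by norm_num) (by norm_num)
  have h2 := log_hi (a := 7000 * 2048 / 3145.25 ^ 2) (x := 0.183395) (by norm_num) (by norm_num) (by norm_num) (by norm_num)
  norm_num at h1 h2 l1 l2 ⊢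
  rw [abs_le]
  constructor <;> linarith

lemma l7_d : -7.26 ≤ Real.log 7000 - 2 * Real.log 3150 := by
  have l1 := Real.log_two_gt_d9
  have l2 := Real.log_two_lt_d9
  rw [log_7000 (by norm_num)]
  have h1 := log_lo (a := 7000 * 2048 / 3150 ^ 2) (x := 0.1819) (by norm_num) (by norm_num) (by norm_num)
  norm_num at h1 l1 l2 ⊢
  linarith

end Pool.Agent.H401R2
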