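import Pool.Agent.Helper242.RK.Theta

set_option autoImplicit false

/-!
# The Riemann representation of xi as a cosine transform
-/

namespace Pool.Agent.H401R2

open Complex Filter Topology MeasureTheory
open Pool.Agent.Helper242

/-- `exp (-u) ≤ j! / u^j`. -/
lemma exp_neg_le_pow {u : ℝ} (hu : 0 < u) (j : ℕ) : Real.exp (-u) ≤ (j.factorial : ℝ) / u ^ j := by
  have h := Real.pow_div_factorial_le_exp u hu.le j
  rw [Real.exp_neg, ← one_div, div_le_div_iff₀ (Real.exp_pos u) (by positivity), one_mul]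
  rw [div_le_iff₀ (by positivity)] at h
  linarith

lemma summable_inv_sq : Summable fun n : ℕ => (1 : ℝ) / ((n : ℝ) + 1) ^ 2 := by
  have h := (summable_nat_add_iff 1).2 (Real.summable_one_div_nat_pow.2 (by norm_num : 1 < 2))
  refine h.congr fun n => ?_
  push_cast; ring

lemma norm_P_le_pow (k : ℕ) : ∃ C : ℝ, 0 < C ∧ ∀ s : ℂ, 0 < s.re →
    ‖RK.P k s‖ ≤ C / s.re ^ (k + 1) := by
  set B := ∑' n : ℕ, (1 : ℝ) / ((n : ℝ) + 1) ^ 2 with hB
  have hBpos : 0 < B := summable_inv_sq.tsum_pos (fun n => by positivity) 0 (by positivity)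
  refine ⟨(k + 1).factorial * B, by positivity, fun s hs => ?_⟩
  have h1 : ∀ n : ℕ, ‖((n : ℂ) + 1) ^ (2 * k) * cexp (-(((n : ℂ) + 1) ^ 2) * s)‖ ≤
      ((k + 1).factorial / s.re ^ (k + 1)) * (1 / ((n : ℝ) + 1) ^ 2) := by
    intro n
    rw [RK.norm_term]
    have hn : (0:ℝ) < (n:ℝ) + 1 := by positivity
    have h2 := exp_neg_le_pow (u := ((n : ℝ) + 1) ^ 2 * s.re) (by positivity) (k + 1)
    have e : -(((n : ℝ) + 1) ^ 2) * s.re = -(((n : ℝ) + 1) ^ 2 * s.re) := by ring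
    rw [e]
    calc _ ≤ ((n : ℝ) + 1) ^ (2 * k) * ((k + 1).factorial / (((n : ℝ) + 1) ^ 2 * s.re) ^ (k + 1)) := by
          gcongr
      _ = _ := by
          rw [mul_pow, ← pow_mul]
          have : 2 * (k + 1) = 2 * k + 2 := by ring
          rw [this, pow_add]
          field_simp
  calc ‖RK.P k s‖ ≤ ∑' n : ℕ, ((k + 1).factorial / s.re ^ (k + 1)) * (1 / ((n : ℝ) + 1) ^ 2) :=
        tsum_of_norm_bounded (summable_inv_sq.mul_left _).hasSum h1
    _ = _ := by rw [tsum_mul_left]; ring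

lemma pi_re (v : ℝ) : ((Real.pi : ℂ) * v).re = Real.pi * v := by rw [← ofReal_mul, ofReal_re]

lemma continuousOn_P (k : ℕ) : ContinuousOn (fun v : ℝ => RK.P k ((Real.pi : ℂ) * v)) (Set.Ioi 0) := by
  intro v hv
  have hv' : (0:ℝ) < v := hv
  have hs : 0 < ((Real.pi : ℂ) * v).re := by rw [pi_re]; positivity
  have h1 : ContinuousAt (fun v : ℝ => (Real.pi : ℂ) * v) v := by fun_prop
  have h2 : ContinuousAt (fun v : ℝ => RK.P k ((Real.pi : ℂ) * v)) v :=
    ContinuousAt.comp (f := fun v : ℝ => (Real.pi : ℂ) * v) (RK.hasDerivAt_P k hs).continuousAt h1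
  exact h2.continuousWithinAt

lemma mellinConvergent_P (k : ℕ) {s : ℂ} (hs : (k : ℝ) + 1 < s.re) :
    MellinConvergent (fun v : ℝ => RK.P k ((Real.pi : ℂ) * v)) s := by
  obtain ⟨C, hC, hb⟩ := norm_P_le_pow k
  obtain ⟨A, hA, ha⟩ := RK.norm_P_le k Real.pi_pos
  refine mellinConvergent_of_isBigO_rpow_exp (a := 1) (b := k + 1) one_pos
    ((continuousOn_P k).locallyIntegrableOn measurableSet_Ioi) ?_ ?_ hs
  · refine Asymptotics.IsBigO.of_bound A ?_
    filter_upwards [eventually_ge_atTop (1 : ℝ)] with v hv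
    have hpi := Real.pi_gt_three
    have h1 := ha ((Real.pi : ℂ) * v) (by rw [pi_re]; nlinarith)
    rw [Real.norm_of_nonneg (Real.exp_pos _).le]
    refine h1.trans ?_
    rw [pi_re]
    gcongr
    nlinarith
  · refine Asymptotics.IsBigO.of_bound C ?_
    filter_upwards [self_mem_nhdsWithin] with v hv
    have hv' : (0 : ℝ) < v := hv
    have hpi := Real.pi_gt_three
    rw [Real.norm_of_nonneg (Real.rpow_nonneg hv'.le _)]
    refine (hb _ (by rw [pi_re]; positivity)).trans ?_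
    rw [pi_re, Real.rpow_neg hv'.le, ← Nat.cast_add_one, Real.rpow_natCast, div_eq_mul_inv]
    gcongr
    nlinarith

lemma mellin_P (k : ℕ) {s : ℂ} (hs : (k : ℝ) + 1 < s.re) :
    mellin (fun v : ℝ => RK.P k ((Real.pi : ℂ) * v)) s =
      (Real.pi : ℂ) ^ (-s) * Gamma s * riemannZeta (2 * s - 2 * k) := by
  have hk0 : (0:ℝ) ≤ k := Nat.cast_nonneg k
  have hs0 : 0 < s.re := by linarith
  have hre : 1 < (2 * s - 2 * (k : ℂ)).re := by
    have : (2 * s - 2 * (k : ℂ)).re = 2 * s.re - 2 * k := by simp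
    rw [this]; linarith
  have h := hasSum_mellin_pi_mul (ι := ℕ) (a := fun n => ((n : ℂ) + 1) ^ (2 * k))
    (q := fun n => ((n : ℝ) + 1) ^ 2) (F := fun v : ℝ => RK.P k ((Real.pi : ℂ) * v)) (s := s)
    (fun n => Or.inr (by positivity)) hs0 (fun t ht => ?_) ?_
  · rw [← h.tsum_eq, zeta_eq_tsum_one_div_nat_add_one_cpow hre, ← tsum_mul_left]
    refine tsum_congr fun n => ?_
    have hn : (0 : ℝ) < (n : ℝ) + 1 := by positivity
    have hnc : ((n : ℂ) + 1) ≠ 0 := by exact_mod_cast hn.ne'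
    have e3 : ((((n : ℝ) + 1) ^ 2 : ℝ) : ℂ) ^ s = ((n : ℂ) + 1) ^ (2 * s) := by
      have : ((((n : ℝ) + 1) ^ 2 : ℝ) : ℂ) = (((n : ℝ) + 1 : ℝ) : ℂ) ^ (2 : ℂ) := by
        push_cast
        rw [show (2 : ℂ) = ((2 : ℕ) : ℂ) by norm_num, cpow_natCast]
      rw [this, ← cpow_mul]
      · push_cast; rfl
      · rw [← ofReal_log hn.le, show (2 : ℂ) = ((2 : ℝ) : ℂ) by norm_num, ← ofReal_mul, ofReal_im]
        exact neg_lt_zero.2 Real.pi_pos
      · rw [← ofReal_log hn.le, show (2 : ℂ) = ((2 : ℝ) : ℂ) by norm_num, ← ofReal_mul, ofReal_im]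
        exact Real.pi_pos.le
    rw [e3]
    have e4 : ((n : ℂ) + 1) ^ (2 * s - 2 * (k : ℂ)) = ((n : ℂ) + 1) ^ (2 * s) / ((n : ℂ) + 1) ^ (2 * k) := by
      rw [cpow_sub _ _ hnc]
      congr 1
      rw [show (2 : ℂ) * (k : ℂ) = ((2 * k : ℕ) : ℂ) by push_cast; ring, cpow_natCast]
    rw [e4]
    have h5 : ((n : ℂ) + 1) ^ (2 * k) ≠ 0 := pow_ne_zero _ hnc
    have h6 : ((n : ℂ) + 1) ^ (2 * s) ≠ 0 := by
      rw [cpow_def_of_ne_zero hnc]; exact exp_ne_zero _
    field_simp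
  · have ht' : (0:ℝ) < t := ht
    have h1 := (RK.summable_term k (s := (Real.pi : ℂ) * t) (by rw [pi_re]; positivity)).hasSum
    unfold RK.P
    convert h1 using 2 with n
    rw [ofReal_exp]
    congr 2
    push_cast
    ring
  · refine Summable.of_nonneg_of_le (fun n => by positivity) (fun n => ?_) summable_inv_sq
    have hn : (0 : ℝ) < (n : ℝ) + 1 := by positivity
    have hn1 : (1 : ℝ) ≤ (n : ℝ) + 1 := by linarith [Nat.cast_nonneg (α := ℝ) n]
    have e1 : ‖((n : ℂ) + 1) ^ (2 * k)‖ = ((n : ℝ) + 1) ^ (2 * k) := by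
      rw [norm_pow]
      congr 1
      rw [show ((n : ℂ) + 1) = (((n : ℝ) + 1 : ℝ) : ℂ) by push_cast; ring, norm_real,
        Real.norm_of_nonneg (by positivity)]
    rw [e1]
    have e2 : ((n : ℝ) + 1) ^ (2 * k) * ((n : ℝ) + 1) ^ 2 ≤ (((n : ℝ) + 1) ^ 2) ^ s.re := by
      rw [← pow_add, ← Real.rpow_natCast ((n : ℝ) + 1) 2, ← Real.rpow_mul hn.le,
        ← Real.rpow_natCast]
      apply Real.rpow_le_rpow_of_exponent_le hn1
      push_cast
      linarith
    rw [div_le_div_iff₀ (by positivity) (by positivity), one_mul]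
    exact e2

/-- the Riemann kernel in the variable of the Mellin transform -/
noncomputable def gam (v : ℝ) : ℂ := RK.g ((Real.pi : ℂ) * v)

lemma gam_eq (v : ℝ) : gam v = 2 * (Real.pi : ℂ) ^ 2 * ((v : ℂ) ^ (2 : ℂ) * RK.P 2 ((Real.pi : ℂ) * v)) -
    3 * (Real.pi : ℂ) * ((v : ℂ) ^ (1 : ℂ) * RK.P 1 ((Real.pi : ℂ) * v)) := by
  unfold gam RK.g
  rw [cpow_one, show (2 : ℂ) = ((2 : ℕ) : ℂ) by norm_num, cpow_natCast]
  push_cast
  ring

lemma mellin_gam_large {s : ℂ} (hs : 3 < s.re) :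
    mellin gam s = s * (2 * s - 1) * ((Real.pi : ℂ) ^ (-s) * Gamma s * riemannZeta (2 * s)) := by
  have c2 : MellinConvergent (fun v : ℝ => (v : ℂ) ^ (2 : ℂ) • RK.P 2 ((Real.pi : ℂ) * v)) s := by
    rw [MellinConvergent.cpow_smul]
    exact mellinConvergent_P 2 (by simp; linarith)
  have c1 : MellinConvergent (fun v : ℝ => (v : ℂ) ^ (1 : ℂ) • RK.P 1 ((Real.pi : ℂ) * v)) s := by
    rw [MellinConvergent.cpow_smul]
    exact mellinConvergent_P 1 (by simp; linarith)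
  have d2 := c2.const_smul (2 * (Real.pi : ℂ) ^ 2)
  have d1 := c1.const_smul (3 * (Real.pi : ℂ))
  have h1 : mellin gam s = mellin (fun v : ℝ => (2 * (Real.pi : ℂ) ^ 2) • ((v : ℂ) ^ (2 : ℂ) •
      RK.P 2 ((Real.pi : ℂ) * v))) s - mellin (fun v : ℝ => (3 * (Real.pi : ℂ)) •
      ((v : ℂ) ^ (1 : ℂ) • RK.P 1 ((Real.pi : ℂ) * v))) s := by
    unfold mellin
    rw [← integral_sub d2 d1]
    refine setIntegral_congr_fun measurableSet_Ioi fun v _ => ?_
    simp only
    rw [gam_eq, ← smul_sub]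
    simp only [smul_eq_mul]
  rw [h1, mellin_const_smul, mellin_const_smul, mellin_cpow_smul, mellin_cpow_smul,
    mellin_P 2 (by simp; linarith), mellin_P 1 (by simp; linarith)]
  have hs0 : s ≠ 0 := by intro h; rw [h] at hs; norm_num at hs
  have hs1 : s + 1 ≠ 0 := by
    intro h
    have := congrArg Complex.re h
    simp at this
    linarith
  have hG1 : Gamma (s + 1) = s * Gamma s := Gamma_add_one s hs0
  have hG2 : Gamma (s + 2) = (s + 1) * (s * Gamma s) := by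
    rw [← hG1, ← Gamma_add_one _ hs1]; congr 1; ring
  have hpi : (Real.pi : ℂ) ≠ 0 := by exact_mod_cast Real.pi_ne_zero
  have hp1 : (Real.pi : ℂ) ^ (-(s + 1)) = (Real.pi : ℂ) ^ (-s) / Real.pi := by
    rw [neg_add, ← sub_eq_add_neg, cpow_sub _ _ hpi, cpow_one]
  have hp2 : (Real.pi : ℂ) ^ (-(s + 2)) = (Real.pi : ℂ) ^ (-s) / (Real.pi : ℂ) ^ 2 := by
    rw [neg_add, ← sub_eq_add_neg, cpow_sub _ _ hpi]
    congr 1
    rw [show (2 : ℂ) = ((2 : ℕ) : ℂ) by norm_num, cpow_natCast]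
  have z1 : 2 * (s + 1) - 2 * ((1 : ℕ) : ℂ) = 2 * s := by push_cast; ring
  have z2 : 2 * (s + 2) - 2 * ((2 : ℕ) : ℂ) = 2 * s := by push_cast; ring
  rw [z1, z2, hG1, hG2, hp1, hp2]
  simp only [smul_eq_mul]
  field_simp
  ring

lemma continuousOn_gam : ContinuousOn gam (Set.Ioi 0) := by
  have h : ∀ v : ℝ, gam v = 2 * ((Real.pi : ℂ) * v) ^ 2 * RK.P 2 ((Real.pi : ℂ) * v) -
      3 * ((Real.pi : ℂ) * v) * RK.P 1 ((Real.pi : ℂ) * v) := fun v => rfl
  have h2 : gam = fun v : ℝ => 2 * ((Real.pi : ℂ) * v) ^ 2 * RK.P 2 ((Real.pi : ℂ) * v) -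
      3 * ((Real.pi : ℂ) * v) * RK.P 1 ((Real.pi : ℂ) * v) := funext h
  rw [h2]
  apply ContinuousOn.sub
  · exact ContinuousOn.mul (by fun_prop) (continuousOn_P 2)
  · exact ContinuousOn.mul (by fun_prop) (continuousOn_P 1)

lemma gam_bound : ∃ A : ℝ, 0 < A ∧ ∀ v : ℝ, 1 ≤ v → ‖gam v‖ ≤ A * v ^ 2 * Real.exp (-(Real.pi * v)) := by
  obtain ⟨A, hA, h⟩ := RK.norm_g_le Real.pi_pos
  refine ⟨A * Real.pi ^ 2, by positivity, fun v hv => ?_⟩
  have h1 := h ((Real.pi : ℂ) * v) (by rw [pi_re]; nlinarith [Real.pi_pos])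
  rw [pi_re] at h1
  unfold gam
  refine h1.trans (le_of_eq ?_)
  rw [norm_mul, norm_real, norm_real, Real.norm_of_nonneg Real.pi_pos.le,
    Real.norm_of_nonneg (by linarith : 0 ≤ v)]
  ring

lemma gam_symm {t : ℝ} : gam (Real.exp (-(4 * t))) = (Real.exp (2 * t) : ℝ) * gam (Real.exp (4 * t)) := by
  have h := RK.PhiC_even (RK.ofReal_mem_S t)
  unfold RK.PhiC at h
  unfold gam
  have e1 : (Real.pi : ℂ) * cexp (4 * -(t:ℂ)) = (Real.pi : ℂ) * ((Real.exp (-(4 * t)) : ℝ) : ℂ) := by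
    push_cast; congr 2; ring
  have e2 : (Real.pi : ℂ) * cexp (4 * (t:ℂ)) = (Real.pi : ℂ) * ((Real.exp (4 * t) : ℝ) : ℂ) := by
    push_cast; rfl
  rw [e1, e2] at h
  have e3 : ((Real.exp (2 * t) : ℝ) : ℂ) = cexp t * cexp t := by
    rw [← exp_add]; push_cast; congr 1; ring
  rw [e3]
  have h4 : cexp (-(t:ℂ)) * cexp t = 1 := by rw [← exp_add]; simp
  calc _ = (cexp (-(t:ℂ)) * cexp t) * RK.g ((Real.pi : ℂ) * ((Real.exp (-(4 * t)) : ℝ) : ℂ)) := by
        rw [h4, one_mul]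
    _ = cexp t * (cexp (-(t:ℂ)) * RK.g ((Real.pi : ℂ) * ((Real.exp (-(4 * t)) : ℝ) : ℂ))) := by ring
    _ = _ := by rw [h]; ring

lemma gam_small : ∃ A : ℝ, 0 < A ∧ ∀ v : ℝ, 0 < v → v ≤ 1 →
    ‖gam v‖ ≤ A * v ^ (-(5/2 : ℝ)) * Real.exp (-(Real.pi / v)) := by
  obtain ⟨A, hA, h⟩ := gam_bound
  refine ⟨A, hA, fun v hv hv1 => ?_⟩
  set t := -(Real.log v / 4) with ht
  have e1 : Real.exp (-(4 * t)) = v := by
    rw [ht, show -(4 * -(Real.log v / 4)) = Real.log v by ring, Real.exp_log hv]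
  have e2 : Real.exp (4 * t) = v⁻¹ := by
    rw [← e1, ← Real.exp_neg]; congr 1; ring
  have e3 : Real.exp (2 * t) = v ^ (-(1/2) : ℝ) := by
    rw [Real.rpow_def_of_pos hv, ht]; congr 1; ring
  have h1 := gam_symm (t := t)
  rw [e1, e2, e3] at h1
  rw [h1, norm_mul, norm_real, Real.norm_of_nonneg (Real.rpow_nonneg hv.le _)]
  have h2 := h v⁻¹ ((one_le_inv₀ hv).2 hv1)
  calc _ ≤ v ^ (-(1/2) : ℝ) * (A * (v⁻¹) ^ 2 * Real.exp (-(Real.pi * v⁻¹))) := by gcongr
    _ = _ := by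
      have e4 : (v⁻¹) ^ 2 = v ^ (-2 : ℝ) := by
        rw [Real.rpow_neg hv.le, inv_pow]; norm_cast
      have e5 : v ^ (-(5/2) : ℝ) = v ^ (-(1/2) : ℝ) * v ^ (-2 : ℝ) := by
        rw [← Real.rpow_add hv]; norm_num
      rw [e4, e5, div_eq_mul_inv]
      ring

lemma gam_top : gam =O[atTop] fun t : ℝ => Real.exp (-1 * t) := by
  obtain ⟨A, hA, h⟩ := gam_bound
  refine Asymptotics.IsBigO.of_bound (A * 2) ?_
  filter_upwards [eventually_ge_atTop (1 : ℝ)] with v hv
  rw [Real.norm_of_nonneg (Real.exp_pos _).le]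
  refine (h v hv).trans ?_
  have h1 : v ^ 2 ≤ 2 * Real.exp v := by
    have := Real.pow_div_factorial_le_exp v (by linarith) 2
    norm_num [Nat.factorial] at this
    linarith
  have hpi := Real.pi_gt_three
  calc A * v ^ 2 * Real.exp (-(Real.pi * v)) ≤ A * (2 * Real.exp v) * Real.exp (-(2 * v)) := by
        gcongr
        nlinarith
    _ = A * 2 * (Real.exp v * Real.exp (-(2 * v))) := by ring
    _ = _ := by rw [← Real.exp_add]; congr 2; ring

lemma gam_bot (b : ℝ) : gam =O[𝓝[>] 0] fun t : ℝ => t ^ (-b) := by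
  obtain ⟨A, hA, h⟩ := gam_small
  obtain ⟨N, hN⟩ := exists_nat_ge (5/2 - b)
  refine Asymptotics.IsBigO.of_bound (A * N.factorial) ?_
  have h1 : ∀ᶠ t : ℝ in 𝓝[>] 0, t < 1 :=
    (eventually_lt_nhds zero_lt_one).filter_mono nhdsWithin_le_nhds
  filter_upwards [h1, self_mem_nhdsWithin] with v hv1 hv
  have hv0 : (0:ℝ) < v := hv
  rw [Real.norm_of_nonneg (Real.rpow_nonneg hv0.le _)]
  refine (h v hv0 hv1.le).trans ?_
  have hpi := Real.pi_gt_three
  have h2 : Real.exp (-(Real.pi / v)) ≤ N.factorial * v ^ N := by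
    refine (exp_neg_le_pow (by positivity) N).trans ?_
    rw [div_pow, div_div_eq_mul_div]
    rw [div_le_iff₀ (by positivity)]
    have : (1:ℝ) ≤ Real.pi ^ N := one_le_pow₀ (by linarith)
    have h3 : 0 ≤ (N.factorial : ℝ) * v ^ N := by positivity
    nlinarith
  calc A * v ^ (-(5/2 : ℝ)) * Real.exp (-(Real.pi / v)) ≤ A * v ^ (-(5/2 : ℝ)) * (N.factorial * v ^ N) := by
        gcongr
    _ = A * N.factorial * (v ^ (-(5/2 : ℝ)) * v ^ (N : ℝ)) := by
        rw [Real.rpow_natCast]; ring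
    _ = A * N.factorial * v ^ (-(5/2 : ℝ) + N) := by rw [← Real.rpow_add hv0]
    _ ≤ _ := by
        apply mul_le_mul_of_nonneg_left _ (by positivity)
        apply Real.rpow_le_rpow_of_exponent_ge hv0 hv1.le
        linarith

lemma differentiable_mellin_gam : Differentiable ℂ (mellin gam) := fun s =>
  mellin_differentiableAt_of_isBigO_rpow_exp (a := 1) (b := s.re - 1) one_pos
    (continuousOn_gam.locallyIntegrableOn measurableSet_Ioi) gam_top (gam_bot _) (by linarith)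

lemma mellinConvergent_gam (s : ℂ) : MellinConvergent gam s :=
  mellinConvergent_of_isBigO_rpow_exp (a := 1) (b := s.re - 1) one_pos
    (continuousOn_gam.locallyIntegrableOn measurableSet_Ioi) gam_top (gam_bot _) (by linarith)

theorem mellin_gam (s : ℂ) : mellin gam s = s * (2 * s - 1) * completedRiemannZeta₀ (2 * s) + 1 / 2 := by
  have hΛ := differentiable_completedZeta₀
  set k : ℂ → ℂ := fun s => s * (2 * s - 1) * completedRiemannZeta₀ (2 * s) + 1 / 2 with hk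
  have hkd : Differentiable ℂ k := by
    have h2 : Differentiable ℂ fun s : ℂ => completedRiemannZeta₀ (2 * s) :=
      hΛ.comp (differentiable_id.const_mul 2)
    simp only [hk]
    fun_prop
  have hev : mellin gam =ᶠ[𝓝 (4 : ℂ)] k := by
    have : {z : ℂ | 3 < z.re} ∈ 𝓝 (4 : ℂ) :=
      (isOpen_lt continuous_const continuous_re).mem_nhds (by simp; norm_num)
    filter_upwards [this] with s hs
    have hs' : 3 < s.re := hs
    rw [mellin_gam_large hs']
    have hs20 : (2 : ℂ) * s ≠ 0 := by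
      intro h
      have := congrArg Complex.re h
      simp at this
      linarith
    have hs21 : (1 : ℂ) - 2 * s ≠ 0 := by
      intro h
      have := congrArg Complex.re h
      simp at this
      linarith
    have hg : Gammaℝ (2 * s) ≠ 0 := Gammaℝ_ne_zero_of_re_pos (by simp; linarith)
    have hg2 : Gammaℝ (2 * s) = (Real.pi : ℂ) ^ (-s) * Gamma s := by
      rw [Gammaℝ_def]
      congr 2
      · ring
      · ring
    have hs0 : s ≠ 0 := by intro h; rw [h] at hs20; simp at hs20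
    rw [← hg2, riemannZeta_def_of_ne_zero hs20, mul_div_cancel₀ _ hg, completedRiemannZeta_eq]
    simp only [hk]
    generalize completedRiemannZeta₀ (2 * s) = X
    have ha : 1 / (2 * s) * s = 1 / 2 := by field_simp
    have hb : 1 / (1 - 2 * s) * (2 * s - 1) = -1 := by
      rw [div_mul_eq_mul_div, one_mul, div_eq_iff hs21]; ring
    linear_combination (-(2 * s - 1)) * ha + (-s) * hb
  have h1 : AnalyticOnNhd ℂ (mellin gam) Set.univ :=
    differentiable_mellin_gam.differentiableOn.analyticOnNhd isOpen_univ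
  have h2 : AnalyticOnNhd ℂ k Set.univ := hkd.differentiableOn.analyticOnNhd isOpen_univ
  exact congrFun (h1.eq_of_eventuallyEq h2 hev) s

end Pool.Agent.H401R2
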