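import Pool.Agent.H401R2.Rep

set_option autoImplicit false

namespace Pool.Agent.H401R2

open Complex Filter Topology MeasureTheory
open Pool.Agent.Helper242

/-- the kernel -/
noncomputable def Kr (u : ℝ) : ℝ := 4 * RK.Phi (u / 2)

lemma Kr_even (u : ℝ) : Kr (-u) = Kr u := by
  unfold Kr; rw [neg_div, RK.Phi_even]

lemma continuous_Kr : Continuous Kr := by
  unfold Kr
  exact continuous_const.mul (RK.continuous_Phi.comp (continuous_id.div_const 2))

lemma gam_exp (u : ℝ) : gam (Real.exp (2 * u)) = cexp (-(u:ℂ) / 2) * (Kr u : ℂ) / 4 := by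
  have h := RK.PhiC_ofReal (u / 2)
  unfold RK.PhiC at h
  unfold gam Kr
  have e1 : (Real.pi : ℂ) * cexp (4 * ((u / 2 : ℝ) : ℂ)) = (Real.pi : ℂ) * ((Real.exp (2 * u) : ℝ) : ℂ) := by
    push_cast; congr 2; ring
  rw [e1] at h
  push_cast at h ⊢
  rw [← h]
  have h4 : cexp (-(u:ℂ) / 2) * cexp ((u:ℂ) / 2) = 1 := by rw [← exp_add]; ring_nf; simp
  linear_combination (-(RK.g ((Real.pi : ℂ) * cexp (2 * (u:ℂ))))) * h4

lemma Kr_bound : ∃ A : ℝ, 0 < A ∧ ∀ u : ℝ, |Kr u| ≤ A * Real.exp (9/2 * |u| - 6 * u ^ 2) := by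
  obtain ⟨A, hA, h⟩ := RK.PhiC_bound (Y := 0) le_rfl (by positivity)
  refine ⟨4 * A, by positivity, fun u => ?_⟩
  have h1 := h ((u / 2 : ℝ) : ℂ) (by simp)
  rw [RK.PhiC_ofReal, norm_real, Real.norm_eq_abs, ofReal_re, mul_zero, Real.cos_zero, mul_one] at h1
  unfold Kr
  rw [abs_mul, abs_of_pos (by norm_num : (0:ℝ) < 4)]
  have hab : |u / 2| = |u| / 2 := by rw [abs_div]; norm_num
  rw [hab] at h1
  have h2 : 1 + 2 * |u| + (2 * |u|) ^ 2 / 2 ≤ Real.exp (4 * (|u| / 2)) := by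
    rw [show 4 * (|u| / 2) = 2 * |u| by ring]
    exact Real.quadratic_le_exp_of_nonneg (by positivity)
  have hpi := Real.pi_gt_three
  have h3 : 6 * u ^ 2 ≤ Real.pi * Real.exp (4 * (|u| / 2)) := by
    have : u ^ 2 = |u| ^ 2 := (sq_abs u).symm
    rw [this]
    have h4 : 2 * |u| ^ 2 ≤ Real.exp (4 * (|u| / 2)) := by nlinarith [abs_nonneg u]
    nlinarith [abs_nonneg u, Real.exp_pos (4 * (|u| / 2))]
  calc 4 * |RK.Phi (u / 2)| ≤ 4 * (A * Real.exp (9 * (|u| / 2) - Real.pi * Real.exp (4 * (|u| / 2)))) := by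
        gcongr
    _ ≤ 4 * (A * Real.exp (9/2 * |u| - 6 * u ^ 2)) := by
        apply mul_le_mul_of_nonneg_left _ (by norm_num)
        apply mul_le_mul_of_nonneg_left _ hA.le
        apply Real.exp_le_exp.2
        linarith
    _ = _ := by ring

lemma integrable_exp_Kr (c : ℂ) : Integrable (fun u : ℝ => cexp (c * u) * (Kr u : ℂ)) := by
  obtain ⟨A, hA, h⟩ := Kr_bound
  have hg : Integrable (fun u : ℝ => A * Real.exp ((‖c‖ + 9/2) ^ 2) * Real.exp (-5 * u ^ 2)) :=
    (integrable_exp_neg_mul_sq (by norm_num : (0:ℝ) < 5)).const_mul _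
  refine hg.mono' ?_ ?_
  · exact (Continuous.mul (by fun_prop) (continuous_ofReal.comp continuous_Kr)).aestronglyMeasurable
  · refine ae_of_all _ fun u => ?_
    rw [norm_mul, norm_exp, norm_real, Real.norm_eq_abs]
    have h1 : (c * u).re ≤ ‖c‖ * |u| := by
      refine (re_le_norm _).trans ?_
      rw [norm_mul, norm_real, Real.norm_eq_abs]
    calc Real.exp (c * u).re * |Kr u| ≤ Real.exp (‖c‖ * |u|) * (A * Real.exp (9/2 * |u| - 6 * u ^ 2)) := by
          gcongr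
          exact h u
      _ = A * Real.exp (‖c‖ * |u| + (9/2 * |u| - 6 * u ^ 2)) := by rw [Real.exp_add]; ring
      _ ≤ A * Real.exp ((‖c‖ + 9/2) ^ 2 + (-5 * u ^ 2)) := by
          apply mul_le_mul_of_nonneg_left _ hA.le
          apply Real.exp_le_exp.2
          have e : u ^ 2 = |u| ^ 2 := (sq_abs u).symm
          rw [e]
          nlinarith [sq_nonneg ((‖c‖ + 9/2) - |u|), sq_nonneg (‖c‖ + 9/2), sq_nonneg (|u|), abs_nonneg u,
            norm_nonneg c]
      _ = _ := by rw [Real.exp_add]; ring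

/-- the full cosine transform -/
noncomputable def XiC (z : ℂ) : ℂ := ∫ u in Set.Ioi (0:ℝ), Complex.cos (z * u) * (Kr u : ℂ)

lemma integrable_cos_Kr (z : ℂ) : Integrable (fun u : ℝ => Complex.cos (z * u) * (Kr u : ℂ)) := by
  have h := ((integrable_exp_Kr (z * I)).add (integrable_exp_Kr (-z * I))).div_const 2
  refine h.congr (ae_of_all _ fun u => ?_)
  simp only [Pi.add_apply, Complex.cos]
  rw [show z * I * (u:ℂ) = z * u * I by ring, show -z * I * (u:ℂ) = -(z * u) * I by ring]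
  ring

lemma two_XiC (z : ℂ) : 2 * XiC z = ∫ u : ℝ, cexp (I * z * u) * (Kr u : ℂ) := by
  have i1 := integrable_exp_Kr (I * z)
  have i1' : Integrable fun u : ℝ => cexp (I * z * ((-u : ℝ) : ℂ)) * (Kr (-u) : ℂ) := i1.comp_neg
  rw [← integral_add_compl (s := Set.Ioi (0 : ℝ)) measurableSet_Ioi i1, Set.compl_Ioi]
  have h2 : ∫ u in Set.Iic (0 : ℝ), cexp (I * z * (u : ℂ)) * (Kr u : ℂ) =
      ∫ u in Set.Ioi (0 : ℝ), cexp (I * z * ((-u : ℝ) : ℂ)) * (Kr (-u) : ℂ) := by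
    have h3 := integral_comp_neg_Iic (0 : ℝ) (fun u : ℝ => cexp (I * z * ((-u : ℝ) : ℂ)) * (Kr (-u) : ℂ))
    rw [neg_zero] at h3
    rw [← h3]
    refine setIntegral_congr_fun measurableSet_Iic fun x _ => ?_
    simp only [neg_neg]
  rw [h2, ← integral_add i1.integrableOn i1'.integrableOn, XiC, ← integral_const_mul]
  refine setIntegral_congr_fun measurableSet_Ioi fun x _ => ?_
  rw [Kr_even, Complex.cos]
  rw [show z * x * I = I * z * x by ring, show -(z * x) * I = I * z * ((-x : ℝ) : ℂ) by push_cast; ring]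
  ring

theorem XiC_eq_mellin (z : ℂ) : XiC z = mellin gam (1 / 4 + I * z / 2) := by
  set s : ℂ := 1 / 4 + I * z / 2 with hs
  rw [mellin_eq_fourier, Real.fourier_real_eq_integral_exp_smul]
  have h1 : ∀ u : ℝ, cexp ((((-2 * Real.pi * u * (s.im / (2 * Real.pi)) : ℝ)) : ℂ) * I) •
      (Real.exp (-s.re * u) • gam (Real.exp (-u))) = cexp (-s * u) * gam (Real.exp (-u)) := by
    intro u
    rw [smul_eq_mul, real_smul, ← mul_assoc, ofReal_exp, ← exp_add]
    congr 2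
    have h2 : s = (s.re : ℂ) + (s.im : ℂ) * I := (re_add_im s).symm
    have h3 : (-2 * Real.pi * u * (s.im / (2 * Real.pi)) : ℝ) = -(u * s.im) := by
      field_simp
    rw [h3]
    nth_rewrite 3 [h2]
    push_cast
    ring
  simp_rw [h1]
  have h2 : ∫ u : ℝ, cexp (-s * u) * gam (Real.exp (-u)) =
      2 * ∫ t : ℝ, cexp (-s * ((-2 * t : ℝ) : ℂ)) * gam (Real.exp (-(-2 * t))) := by
    have h3 := Measure.integral_comp_mul_left
      (fun u : ℝ => cexp (-s * u) * gam (Real.exp (-u))) (-2)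
    rw [h3]
    have h4 : |(-2 : ℝ)⁻¹| = 1 / 2 := by norm_num
    rw [h4, real_smul]
    push_cast
    ring
  rw [h2]
  have h3 : ∀ t : ℝ, cexp (-s * ((-2 * t : ℝ) : ℂ)) * gam (Real.exp (-(-2 * t))) =
      (1 / 4) * (cexp (I * z * t) * (Kr t : ℂ)) := by
    intro t
    rw [show -(-2 * t) = 2 * t by ring, gam_exp]
    have h5 : cexp (-s * ((-2 * t : ℝ) : ℂ)) * cexp (-(t:ℂ) / 2) = cexp (I * z * t) := by
      rw [← exp_add]; congr 1; rw [hs]; push_cast; ring
    rw [← h5]; ring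
  simp_rw [h3]
  rw [integral_const_mul, ← two_XiC]
  ring

lemma differentiable_XiC : Differentiable ℂ XiC := by
  have h : XiC = fun z => mellin gam (1 / 4 + I * z / 2) := funext XiC_eq_mellin
  rw [h]
  exact differentiable_mellin_gam.comp (by fun_prop)

/-- on the relevant domain `XiC z = s(s-1)/2 π^(-s/2) Γ(s/2) ζ(s)` with `s = 1/2 + iz`. -/
theorem XiC_eq {z s : ℂ} (hs : s = 1 / 2 + I * z) (h0 : 0 < s.re) (h1 : s ≠ 1) :
    XiC z = s * (s - 1) / 2 * (Real.pi : ℂ) ^ (-s / 2) * Gamma (s / 2) * riemannZeta s := by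
  rw [XiC_eq_mellin, mellin_gam]
  have e1 : 2 * (1 / 4 + I * z / 2) = s := by rw [hs]; ring
  rw [e1]
  have e2 : (1 / 4 + I * z / 2) = s / 2 := by rw [hs]; ring
  rw [e2]
  have hs0 : s ≠ 0 := by intro h; rw [h] at h0; simp at h0
  have hs1 : 1 - s ≠ 0 := sub_ne_zero.2 h1.symm
  have hg : Gammaℝ s ≠ 0 := Gammaℝ_ne_zero_of_re_pos h0
  have hg2 : (Real.pi : ℂ) ^ (-s / 2) * Gamma (s / 2) = Gammaℝ s := by rw [Gammaℝ_def]
  have hc : Gammaℝ s * (completedRiemannZeta s / Gammaℝ s) = completedRiemannZeta s := by field_simp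
  rw [mul_assoc (s * (s - 1) / 2), hg2, riemannZeta_def_of_ne_zero hs0,
    mul_assoc (s * (s - 1) / 2), hc, completedRiemannZeta_eq]
  generalize completedRiemannZeta₀ s = X
  have ha : 1 / s * s = 1 := by field_simp
  have hb : 1 / (1 - s) * (s - 1) = -1 := by
    rw [div_mul_eq_mul_div, one_mul, div_eq_iff hs1]; ring
  linear_combination ((s - 1) / 2) * ha + (s / 2) * hb

end Pool.Agent.H401R2
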