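import Mathlib

set_option autoImplicit false

/-!
# Truncations of Riemann's Xi series: definitions of the problem MP_13bed0_nt
-/

namespace Pool.Agent.H401R2.XiTrunc

open Complex MeasureTheory

/-- `G(z;a,b) = 4 ∫_0^∞ cos(2zu) e^{2bu - a e^{2u}} du`. -/
noncomputable def G (z : ℂ) (a b : ℝ) : ℂ :=
  4 * ∫ u in Set.Ioi (0 : ℝ),
    Complex.cos (2 * z * u) * ((Real.exp (2 * b * u - a * Real.exp (2 * u)) : ℝ) : ℂ)

/-- `Φ_n(z) = π n² [2 π n² G(z/2; π n², 9/4) - 3 G(z/2; π n², 5/4)]`. -/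
noncomputable def Phi (n : ℕ) (z : ℂ) : ℂ :=
  (Real.pi * (n : ℂ) ^ 2) * (2 * Real.pi * (n : ℂ) ^ 2 * G (z / 2) (Real.pi * (n : ℝ) ^ 2) (9 / 4)
    - 3 * G (z / 2) (Real.pi * (n : ℝ) ^ 2) (5 / 4))

/-- `Ξ_N = Φ_1 + ... + Φ_N`. -/
noncomputable def XiN (N : ℕ) (z : ℂ) : ℂ := ∑ n ∈ Finset.Icc 1 N, Phi n z

/-- The closed first quadrant. -/
def Quadrant : Set ℂ := {z : ℂ | 0 ≤ z.re ∧ 0 ≤ z.im}

/-- `F` has monotonic zeros in `D`: the imaginary part of the zeros of `F` in `D` never decreases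
as the real part grows. -/
def MonotonicZeros (F : ℂ → ℂ) (D : Set ℂ) : Prop :=
  ∀ α ∈ D, ∀ β ∈ D, F α = 0 → F β = 0 → α.re < β.re → α.im ≤ β.im

end Pool.Agent.H401R2.XiTrunc
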