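import Pool.Agent.H401R2.Rep2
import Pool.Agent.H401R2.XiDefs

set_option autoImplicit false

namespace Pool.Agent.H401R2

open Complex Filter Topology MeasureTheory
open Pool.Agent.Helper242
open XiTrunc

lemma norm_cos_le_exp (w : ℂ) : ‖Complex.cos w‖ ≤ Real.exp |w.im| := by
  rw [Complex.cos, norm_div]
  have h1 : ‖cexp (w * I)‖ ≤ Real.exp |w.im| := by
    rw [norm_exp]; apply Real.exp_le_exp.2
    simp only [mul_re, I_re, mul_zero, I_im, mul_one, zero_sub]
    exact neg_le_abs _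
  have h2 : ‖cexp (-w * I)‖ ≤ Real.exp |w.im| := by
    rw [norm_exp]; apply Real.exp_le_exp.2
    simp only [mul_re, neg_re, I_re, mul_zero, neg_im, I_im, mul_one, zero_sub, neg_neg]
    exact le_abs_self _
  have h3 := norm_add_le (cexp (w * I)) (cexp (-w * I))
  have h4 : ‖(2:ℂ)‖ = 2 := by simp
  rw [h4]
  linarith

lemma im_mul_real (z : ℂ) {u : ℝ} (hu : 0 ≤ u) : |(z * u).im| = |z.im| * u := by
  rw [mul_im, ofReal_re, ofReal_im, mul_zero, zero_add, abs_mul, abs_of_nonneg hu]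

lemma int_cos_exp {a : ℝ} (ha : 0 < a) (c : ℝ) (z : ℂ) :
    IntegrableOn (fun u : ℝ => Complex.cos (z * u) *
      ((Real.exp (c * u - a * Real.exp (2 * u)) : ℝ) : ℂ)) (Set.Ioi 0) := by
  have hg : Integrable (fun u : ℝ => Real.exp ((|z.im| + |c|) ^ 2 / (4 * a)) * Real.exp (-a * u ^ 2)) :=
    (integrable_exp_neg_mul_sq ha).const_mul _
  refine hg.integrableOn.mono' ?_ ?_
  · exact (Continuous.mul (by fun_prop) (by fun_prop)).aestronglyMeasurable
  · refine (ae_restrict_iff' measurableSet_Ioi).2 (ae_of_all _ fun u hu => ?_)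
    have hu0 : (0:ℝ) < u := hu
    rw [norm_mul, norm_real, Real.norm_of_nonneg (Real.exp_pos _).le]
    have h1 := norm_cos_le_exp (z * u)
    rw [im_mul_real z hu0.le] at h1
    calc _ ≤ Real.exp (|z.im| * u) * Real.exp (c * u - a * Real.exp (2 * u)) := by gcongr
      _ = Real.exp (|z.im| * u + (c * u - a * Real.exp (2 * u))) := by rw [Real.exp_add]
      _ ≤ Real.exp ((|z.im| + |c|) ^ 2 / (4 * a) + (-a * u ^ 2)) := by
          apply Real.exp_le_exp.2
          have h2 : 1 + 2 * u + (2 * u) ^ 2 / 2 ≤ Real.exp (2 * u) :=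
            Real.quadratic_le_exp_of_nonneg (by positivity)
          have h3 : a * (2 * u ^ 2) ≤ a * Real.exp (2 * u) := by
            apply mul_le_mul_of_nonneg_left _ ha.le
            nlinarith
          have h4 : c * u ≤ |c| * u := mul_le_mul_of_nonneg_right (le_abs_self c) hu0.le
          have h5 : (|z.im| + |c|) * u ≤ (|z.im| + |c|) ^ 2 / (4 * a) + a * u ^ 2 := by
            have h6 : 0 ≤ ((|z.im| + |c|) - 2 * a * u) ^ 2 / (4 * a) := by positivity
            have h7 : ((|z.im| + |c|) - 2 * a * u) ^ 2 / (4 * a) =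
                (|z.im| + |c|) ^ 2 / (4 * a) + a * u ^ 2 - (|z.im| + |c|) * u := by
              field_simp; ring
            linarith
          nlinarith
      _ = _ := by rw [Real.exp_add]

/-- the n-th kernel -/
noncomputable def kk (n : ℕ) (u : ℝ) : ℝ :=
  4 * ((2 * (n : ℝ) ^ 4 * Real.pi ^ 2 * Real.exp (9 * (u / 2))
    - 3 * (n : ℝ) ^ 2 * Real.pi * Real.exp (5 * (u / 2))) *
      Real.exp (-((n : ℝ) ^ 2 * Real.pi * Real.exp (4 * (u / 2)))))

lemma kk_eq (n : ℕ) (u : ℝ) : kk n u = 8 * (Real.pi * n ^ 2) ^ 2 *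
      Real.exp (9 / 2 * u - (Real.pi * n ^ 2) * Real.exp (2 * u)) -
    12 * (Real.pi * n ^ 2) * Real.exp (5 / 2 * u - (Real.pi * n ^ 2) * Real.exp (2 * u)) := by
  unfold kk
  rw [Real.exp_sub, Real.exp_sub, Real.exp_neg]
  have e1 : 9 * (u / 2) = 9 / 2 * u := by ring
  have e2 : 5 * (u / 2) = 5 / 2 * u := by ring
  have e3 : 4 * (u / 2) = 2 * u := by ring
  have e4 : (n:ℝ) ^ 2 * Real.pi = Real.pi * n ^ 2 := by ring
  rw [e1, e2, e3, e4]
  ring

lemma int_cos_kk {n : ℕ} (hn : 1 ≤ n) (z : ℂ) :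
    IntegrableOn (fun u : ℝ => Complex.cos (z * u) * (kk n u : ℂ)) (Set.Ioi 0) := by
  have hn0 : (0:ℝ) < n := by exact_mod_cast hn
  have ha : 0 < Real.pi * (n:ℝ) ^ 2 := by positivity
  have h := ((int_cos_exp ha (9/2) z).const_mul (8 * (Real.pi * n ^ 2) ^ 2 : ℂ)).sub
    ((int_cos_exp ha (5/2) z).const_mul (12 * (Real.pi * n ^ 2) : ℂ))
  refine h.congr (ae_of_all _ fun u => ?_)
  simp only [Pi.sub_apply]
  rw [kk_eq]
  push_cast
  ring

lemma Phi_eq {n : ℕ} (hn : 1 ≤ n) (z : ℂ) :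
    Phi n z = ∫ u in Set.Ioi (0:ℝ), Complex.cos (z * u) * (kk n u : ℂ) := by
  have hn0 : (0:ℝ) < n := by exact_mod_cast hn
  have ha : 0 < Real.pi * (n:ℝ) ^ 2 := by positivity
  have h9 := int_cos_exp ha (9/2) z
  have h5 := int_cos_exp ha (5/2) z
  have e : ∫ u in Set.Ioi (0:ℝ), Complex.cos (z * u) * (kk n u : ℂ) =
      ∫ u in Set.Ioi (0:ℝ), ((8 * (Real.pi * n ^ 2) ^ 2 : ℂ) * (Complex.cos (z * u) *
      ((Real.exp (9/2 * u - (Real.pi * n ^ 2) * Real.exp (2 * u)) : ℝ) : ℂ)) -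
      (12 * (Real.pi * n ^ 2) : ℂ) * (Complex.cos (z * u) *
      ((Real.exp (5/2 * u - (Real.pi * n ^ 2) * Real.exp (2 * u)) : ℝ) : ℂ))) := by
    refine setIntegral_congr_fun measurableSet_Ioi fun u _ => ?_
    rw [kk_eq]
    push_cast
    ring
  rw [e, integral_sub (h9.const_mul _) (h5.const_mul _), integral_const_mul, integral_const_mul]
  unfold Phi G
  have e9 : ∀ u : ℝ, Complex.cos (2 * (z / 2) * u) * ((Real.exp (2 * (9/4) * u -
      Real.pi * (n:ℝ) ^ 2 * Real.exp (2 * u)) : ℝ) : ℂ) = Complex.cos (z * u) *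
      ((Real.exp (9/2 * u - (Real.pi * n ^ 2) * Real.exp (2 * u)) : ℝ) : ℂ) := by
    intro u
    rw [show 2 * (z / 2) * (u:ℂ) = z * u by ring, show (2:ℝ) * (9/4) * u = 9/2 * u by ring]
  have e5 : ∀ u : ℝ, Complex.cos (2 * (z / 2) * u) * ((Real.exp (2 * (5/4) * u -
      Real.pi * (n:ℝ) ^ 2 * Real.exp (2 * u)) : ℝ) : ℂ) = Complex.cos (z * u) *
      ((Real.exp (5/2 * u - (Real.pi * n ^ 2) * Real.exp (2 * u)) : ℝ) : ℂ) := by
    intro u
    rw [show 2 * (z / 2) * (u:ℂ) = z * u by ring, show (2:ℝ) * (5/4) * u = 5/2 * u by ring]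
  simp_rw [e9, e5]
  ring

lemma summable_kk (u : ℝ) : Summable fun n : ℕ => kk (n + 1) u := by
  have h := (RK.summable_Phi (u / 2)).mul_left 4
  refine h.congr fun n => ?_
  unfold kk
  push_cast
  rfl

lemma Kr_eq (u : ℝ) : Kr u = ∑' n : ℕ, kk (n + 1) u := by
  unfold Kr RK.Phi
  rw [← tsum_mul_left]
  refine tsum_congr fun n => ?_
  unfold kk
  push_cast
  rfl

/-- the remainder after 28 terms -/
noncomputable def Rm (u : ℝ) : ℝ := ∑' n : ℕ, kk (n + 29) u

lemma Kr_split (u : ℝ) : Kr u = (∑ n ∈ Finset.Icc 1 27, kk n u) + kk 28 u + Rm u := by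
  have h := (summable_kk u).sum_add_tsum_nat_add 28
  rw [Kr_eq, ← h]
  unfold Rm
  have e1 : ∑ i ∈ Finset.range 28, kk (i + 1) u = (∑ n ∈ Finset.Icc 1 27, kk n u) + kk 28 u := by
    rw [Finset.sum_range_succ]
    congr 1
  rw [e1]

lemma continuous_kk (n : ℕ) : Continuous (kk n) := by unfold kk; fun_prop

lemma continuous_Rm : Continuous Rm := by
  have h : Rm = fun u => Kr u - (∑ n ∈ Finset.Icc 1 27, kk n u) - kk 28 u := by
    funext u; rw [Kr_split]; ring
  rw [h]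
  exact (continuous_Kr.sub (continuous_finsetSum _ fun n _ => continuous_kk n)).sub (continuous_kk 28)

lemma kk_tail_bound {u : ℝ} (hu : 0 ≤ u) (m : ℕ) :
    |kk (m + 29) u| ≤ 10000 * Real.exp (-(784 * Real.pi)) * Real.exp (-4900 * u) *
      Real.exp (-100 * ((m : ℝ) + 1)) := by
  set n : ℝ := (m : ℝ) + 29 with hn
  have hm0 : (0:ℝ) ≤ m := Nat.cast_nonneg m
  have hn29 : 29 ≤ n := by rw [hn]; linarith
  have hpi3 := Real.pi_gt_d2
  have hpi4 := Real.pi_lt_d2
  rw [kk_eq]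
  push_cast
  rw [← hn]
  set a := Real.pi * n ^ 2 with ha
  have ha0 : 0 < a := by positivity
  have ha1 : 1 ≤ a := by nlinarith
  have h1 : |8 * a ^ 2 * Real.exp (9 / 2 * u - a * Real.exp (2 * u)) -
      12 * a * Real.exp (5 / 2 * u - a * Real.exp (2 * u))| ≤
      20 * a ^ 2 * Real.exp (9 / 2 * u - a * Real.exp (2 * u)) := by
    have p1 := Real.exp_pos (9 / 2 * u - a * Real.exp (2 * u))
    have p2 := Real.exp_pos (5 / 2 * u - a * Real.exp (2 * u))
    have h2 : Real.exp (5 / 2 * u - a * Real.exp (2 * u)) ≤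
        Real.exp (9 / 2 * u - a * Real.exp (2 * u)) := by
      apply Real.exp_le_exp.2; linarith
    have h3 : 12 * a * Real.exp (5 / 2 * u - a * Real.exp (2 * u)) ≤
        12 * a ^ 2 * Real.exp (9 / 2 * u - a * Real.exp (2 * u)) := by
      have : a ≤ a ^ 2 := by nlinarith
      gcongr
    have h4 : 0 ≤ 12 * a * Real.exp (5 / 2 * u - a * Real.exp (2 * u)) := by positivity
    have h5 : 0 ≤ 8 * a ^ 2 * Real.exp (9 / 2 * u - a * Real.exp (2 * u)) := by positivity
    rw [abs_le]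
    constructor <;> linarith
  refine h1.trans ?_
  have hexp : Real.exp (2 * u) ≥ 1 + 2 * u := by linarith [Real.add_one_le_exp (2 * u)]
  have h6 : n ^ 4 ≤ 24 * Real.exp n := by
    have := Real.pow_div_factorial_le_exp n (by linarith) 4
    norm_num [Nat.factorial] at this
    linarith
  have h7 : 20 * a ^ 2 ≤ 10000 * Real.exp n := by
    have : a ^ 2 = Real.pi ^ 2 * n ^ 4 := by rw [ha]; ring
    rw [this]
    have h8 : Real.pi ^ 2 ≤ 10 := by nlinarith
    have h9 : 0 ≤ n ^ 4 := by positivity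
    have h10 := Real.exp_pos n
    nlinarith
  have h8 : n + (9 / 2 * u - a * Real.exp (2 * u)) ≤ -(784 * Real.pi) + (-4900 * u) +
      (-100 * ((m : ℝ) + 1)) := by
    have e1 : a * Real.exp (2 * u) ≥ a + 2 * a * u := by nlinarith
    have e2 : a ≥ 784 * Real.pi + 3 * (57 * (m + 1)) := by
      have : a - 784 * Real.pi = Real.pi * ((m + 1) * (m + 57)) := by rw [ha, hn]; ring
      have e3 : (m + 1 : ℝ) * 57 ≤ (m + 1) * (m + 57) := by nlinarith
      have e4 : 3 * ((m + 1 : ℝ) * 57) ≤ Real.pi * ((m + 1) * (m + 57)) := by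
        have : 0 ≤ (m + 1 : ℝ) * (m + 57) := by positivity
        nlinarith
      linarith
    have e5 : 2 * a * u ≥ 4910 * u := by
      have : 2455 ≤ a := by nlinarith
      nlinarith
    rw [hn]
    linarith
  calc 20 * a ^ 2 * Real.exp (9 / 2 * u - a * Real.exp (2 * u))
      ≤ 10000 * Real.exp n * Real.exp (9 / 2 * u - a * Real.exp (2 * u)) := by gcongr
    _ = 10000 * Real.exp (n + (9 / 2 * u - a * Real.exp (2 * u))) := by rw [Real.exp_add n]; ring
    _ ≤ 10000 * Real.exp (-(784 * Real.pi) + (-4900 * u) + (-100 * ((m : ℝ) + 1))) := by gcongr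
    _ = _ := by rw [Real.exp_add, Real.exp_add]; ring

lemma Rm_bound {u : ℝ} (hu : 0 ≤ u) :
    |Rm u| ≤ Real.exp (-(784 * Real.pi)) * Real.exp (-4900 * u) := by
  have hs : HasSum (fun m : ℕ => Real.exp (-100) * (Real.exp (-100)) ^ m)
      (Real.exp (-100) * (1 - Real.exp (-100))⁻¹) :=
    (hasSum_geometric_of_lt_one (Real.exp_pos _).le (by
      rw [Real.exp_lt_one_iff]; norm_num)).mul_left _
  have hs' : HasSum (fun m : ℕ => 10000 * Real.exp (-(784 * Real.pi)) * Real.exp (-4900 * u) *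
      Real.exp (-100 * ((m : ℝ) + 1))) (10000 * Real.exp (-(784 * Real.pi)) * Real.exp (-4900 * u) *
      (Real.exp (-100) * (1 - Real.exp (-100))⁻¹)) := by
    refine (hs.mul_left (10000 * Real.exp (-(784 * Real.pi)) * Real.exp (-4900 * u))).congr_fun ?_
    intro m
    congr 1
    rw [← Real.exp_nat_mul, ← Real.exp_add]
    congr 1; ring
  have h1 := tsum_of_norm_bounded hs' (fun m => by
    rw [Real.norm_eq_abs]; exact kk_tail_bound hu m)
  unfold Rm
  rw [Real.norm_eq_abs] at h1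
  refine h1.trans ?_
  have e1 : Real.exp (-100) ≤ 1 / 100000 := by
    have h2 := exp_neg_le_pow (u := 100) (by norm_num) 5
    refine h2.trans ?_
    norm_num [Nat.factorial]
  have e2 : (1 - Real.exp (-100))⁻¹ ≤ 2 := by
    rw [inv_le_comm₀ (by linarith) (by norm_num)]
    linarith
  have e3 : Real.exp (-100) * (1 - Real.exp (-100))⁻¹ ≤ 1 / 10000 := by
    have := Real.exp_pos (-100)
    have e4 : 0 ≤ (1 - Real.exp (-100))⁻¹ := inv_nonneg.2 (by linarith)
    calc Real.exp (-100) * (1 - Real.exp (-100))⁻¹ ≤ (1 / 100000) * 2 := by gcongr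
      _ ≤ 1 / 10000 := by norm_num
  have p1 := Real.exp_pos (-(784 * Real.pi))
  have p2 := Real.exp_pos (-4900 * u)
  calc _ ≤ 10000 * Real.exp (-(784 * Real.pi)) * Real.exp (-4900 * u) * (1 / 10000) := by gcongr
    _ = _ := by ring

end Pool.Agent.H401R2
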