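import Pool.Agent.H401R2.Tail

set_option autoImplicit false

namespace Pool.Agent.H401R2

open Complex Filter Topology MeasureTheory
open XiTrunc

lemma exp_rem {x : ℝ} (hx : 0 ≤ x) : Real.exp x - 1 - x ≤ x ^ 2 / 2 * Real.exp x := by
  set f : ℝ → ℝ := fun x => x ^ 2 / 2 * Real.exp x - Real.exp x + 1 + x with hf
  have hd : ∀ x, HasDerivAt f ((x + x ^ 2 / 2 - 1) * Real.exp x + 1) x := by
    intro x
    have h1 := ((((hasDerivAt_id x).pow 2).div_const 2).mul (Real.hasDerivAt_exp x)).sub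
      (Real.hasDerivAt_exp x)
    have h2 := (h1.add_const 1).add (hasDerivAt_id x)
    refine h2.congr_deriv ?_
    simp
    ring
  have hmono : MonotoneOn f (Set.Ici 0) := by
    apply monotoneOn_of_deriv_nonneg (convex_Ici 0)
    · exact fun x _ => (hd x).continuousAt.continuousWithinAt
    · exact fun x _ => (hd x).differentiableAt.differentiableWithinAt
    · intro x hx
      rw [interior_Ici] at hx
      have hx0 : (0:ℝ) < x := hx
      rw [(hd x).deriv]
      have h1 : 1 - x ≤ Real.exp (-x) := by linarith [Real.add_one_le_exp (-x)]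
      have h2 : Real.exp (-x) * Real.exp x = 1 := by rw [← Real.exp_add]; simp
      nlinarith [Real.exp_pos x]
  have := hmono (Set.mem_Ici.2 le_rfl) (Set.mem_Ici.2 hx) hx
  simp only [hf] at this
  norm_num at this
  linarith

lemma int_sq {r : ℝ} (hr : 0 < r) :
    IntegrableOn (fun u : ℝ => u ^ 2 * Real.exp (-(r * u))) (Set.Ioi 0) ∧
    ∫ u in Set.Ioi (0:ℝ), u ^ 2 * Real.exp (-(r * u)) = 2 / r ^ 3 := by
  constructor
  · have h := integrableOn_rpow_mul_exp_neg_mul_rpow (p := 1) (s := 2) (b := r) (by norm_num)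
      (by norm_num) hr
    refine h.congr_fun (fun u _ => ?_) measurableSet_Ioi
    simp only [Real.rpow_one]
    rw [show (2:ℝ) = ((2:ℕ):ℝ) by norm_num, Real.rpow_natCast, neg_mul]
  · have h := Real.integral_rpow_mul_exp_neg_mul_Ioi (a := 3) (r := r) (by norm_num) hr
    have e : ∫ u in Set.Ioi (0:ℝ), u ^ 2 * Real.exp (-(r * u)) =
        ∫ u in Set.Ioi (0:ℝ), u ^ ((3:ℝ) - 1) * Real.exp (-(r * u)) := by
      refine setIntegral_congr_fun measurableSet_Ioi fun u _ => ?_
      rw [show (3:ℝ) - 1 = ((2:ℕ):ℝ) by norm_num, Real.rpow_natCast]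
    rw [e, h]
    have h3 : Real.Gamma 3 = 2 := by
      have h4 := Real.Gamma_nat_eq_factorial 2
      rw [show (3:ℝ) = ((2:ℕ):ℝ) + 1 by norm_num, h4]
      norm_num [Nat.factorial]
    rw [h3, show (3:ℝ) = ((3:ℕ):ℝ) by norm_num, Real.rpow_natCast]
    field_simp

lemma J_bound {a c : ℝ} {z : ℂ} (ha : 0 < a) (hr : 0 < 2 * a - c - |z.im| - 2) :
    ‖(∫ u in Set.Ioi (0:ℝ), Complex.cos (z * u) *
      ((Real.exp (c * u - a * (Real.exp (2 * u) - 1)) : ℝ) : ℂ)) -
      (2 * a - c) / ((2 * a - c) ^ 2 + z ^ 2)‖ ≤ 4 * a / (2 * a - c - |z.im| - 2) ^ 3 := by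
  set D : ℝ := 2 * a - c with hD
  set r : ℝ := D - |z.im| - 2 with hrr
  have hDz : |z.im| < D := by linarith
  have hy0 := abs_nonneg z.im
  have hre1 : (I * z - D : ℂ).re < 0 := by
    simp
    linarith [neg_abs_le z.im]
  have hre2 : (-(I * z) - D : ℂ).re < 0 := by
    simp
    linarith [le_abs_self z.im]
  have hne1 : (I * z - D : ℂ) ≠ 0 := by intro h; rw [h] at hre1; simp at hre1
  have hne2 : (-(I * z) - D : ℂ) ≠ 0 := by intro h; rw [h] at hre2; simp at hre2
  have i1 := integrableOn_exp_mul_complex_Ioi hre1 0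
  have i2 := integrableOn_exp_mul_complex_Ioi hre2 0
  have hmain : ∫ u in Set.Ioi (0:ℝ), Complex.cos (z * u) * ((Real.exp (-D * u) : ℝ) : ℂ) =
      D / (D ^ 2 + z ^ 2) := by
    have e : ∫ u in Set.Ioi (0:ℝ), Complex.cos (z * u) * ((Real.exp (-D * u) : ℝ) : ℂ) =
        ∫ u in Set.Ioi (0:ℝ), (1/2 : ℂ) * (cexp ((I * z - D) * u) + cexp ((-(I * z) - D) * u)) := by
      refine setIntegral_congr_fun measurableSet_Ioi fun u _ => ?_
      rw [Complex.cos]
      have e1 : cexp ((I * z - D) * u) = cexp (z * u * I) * cexp (-D * u) := by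
        rw [← exp_add]; congr 1; ring
      have e2 : cexp ((-(I * z) - D) * u) = cexp (-(z * u) * I) * cexp (-D * u) := by
        rw [← exp_add]; congr 1; ring
      rw [e1, e2]
      push_cast
      ring
    rw [e, integral_const_mul, integral_add i1 i2, integral_exp_mul_complex_Ioi hre1,
      integral_exp_mul_complex_Ioi hre2]
    simp only [ofReal_zero, mul_zero, exp_zero]
    have h3 : (D ^ 2 + z ^ 2 : ℂ) = (I * z - D) * (-(I * z) - D) := by
      ring_nf; rw [I_sq]; ring
    rw [h3]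
    field_simp
    ring
  have hi0 : IntegrableOn (fun u : ℝ => Complex.cos (z * u) * ((Real.exp (-D * u) : ℝ) : ℂ))
      (Set.Ioi 0) := by
    refine ((i1.add i2).const_mul (1/2 : ℂ)).congr (ae_of_all _ fun u => ?_)
    simp only [Pi.add_apply]
    rw [Complex.cos]
    have e1 : cexp ((I * z - D) * u) = cexp (z * u * I) * cexp (-D * u) := by
      rw [← exp_add]; congr 1; ring
    have e2 : cexp ((-(I * z) - D) * u) = cexp (-(z * u) * I) * cexp (-D * u) := by
      rw [← exp_add]; congr 1; ring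
    rw [e1, e2]
    push_cast
    ring
  have hi1 : IntegrableOn (fun u : ℝ => Complex.cos (z * u) *
      ((Real.exp (c * u - a * (Real.exp (2 * u) - 1)) : ℝ) : ℂ)) (Set.Ioi 0) := by
    refine ((int_cos_exp ha c z).const_mul ((Real.exp a : ℝ) : ℂ)).congr (ae_of_all _ fun u => ?_)
    simp only
    rw [show c * u - a * (Real.exp (2 * u) - 1) = a + (c * u - a * Real.exp (2 * u)) by ring,
      Real.exp_add]
    push_cast
    ring
  obtain ⟨hint, hval⟩ := int_sq hr
  rw [show ((2:ℂ) * a - c) = (D : ℂ) by rw [hD]; push_cast; ring, ← hmain, ← integral_sub hi1 hi0]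
  have hb : ∀ᵐ (u : ℝ) ∂(volume.restrict (Set.Ioi (0:ℝ))), ‖Complex.cos (z * u) *
      ((Real.exp (c * u - a * (Real.exp (2 * u) - 1)) : ℝ) : ℂ) -
      Complex.cos (z * u) * ((Real.exp (-D * u) : ℝ) : ℂ)‖ ≤
      (2 * a) * (u ^ 2 * Real.exp (-(r * u))) := by
    refine (ae_restrict_iff' measurableSet_Ioi).2 (ae_of_all _ fun u hu => ?_)
    have hu0 : (0:ℝ) < u := hu
    rw [← mul_sub, norm_mul, ← ofReal_sub, norm_real, Real.norm_eq_abs]
    have h1 := norm_cos_le_exp (z * u)
    rw [im_mul_real z hu0.le] at h1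
    have h2 := exp_rem (x := 2 * u) (by positivity)
    have h3 : 0 ≤ Real.exp (2 * u) - 1 - 2 * u := by linarith [Real.add_one_le_exp (2 * u)]
    have e1 : Real.exp (c * u - a * (Real.exp (2 * u) - 1)) - Real.exp (-D * u) =
        - (Real.exp (-D * u) * (1 - Real.exp (-(a * (Real.exp (2 * u) - 1 - 2 * u))))) := by
      have e0 : Real.exp (-D * u) * Real.exp (-(a * (Real.exp (2 * u) - 1 - 2 * u))) =
          Real.exp (c * u - a * (Real.exp (2 * u) - 1)) := by
        rw [← Real.exp_add]; congr 1; rw [hD]; ring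
      rw [← e0]; ring
    have h4 : 1 - Real.exp (-(a * (Real.exp (2 * u) - 1 - 2 * u))) ≤ a * (Real.exp (2 * u) - 1 - 2 * u) := by
      linarith [Real.add_one_le_exp (-(a * (Real.exp (2 * u) - 1 - 2 * u)))]
    have h5 : 0 ≤ 1 - Real.exp (-(a * (Real.exp (2 * u) - 1 - 2 * u))) := by
      have : Real.exp (-(a * (Real.exp (2 * u) - 1 - 2 * u))) ≤ 1 := by
        rw [Real.exp_le_one_iff]
        have := mul_nonneg ha.le h3
        linarith
      linarith
    rw [e1, abs_neg, abs_of_nonneg (mul_nonneg (Real.exp_pos _).le h5)]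
    have h6 : 1 - Real.exp (-(a * (Real.exp (2 * u) - 1 - 2 * u))) ≤ a * (2 * u ^ 2 * Real.exp (2 * u)) := by
      refine h4.trans ?_
      apply mul_le_mul_of_nonneg_left _ ha.le
      refine h2.trans (le_of_eq ?_)
      ring
    calc _ ≤ Real.exp (|z.im| * u) * (Real.exp (-D * u) * (a * (2 * u ^ 2 * Real.exp (2 * u)))) := by
          gcongr
      _ = (2 * a) * (u ^ 2 * (Real.exp (|z.im| * u) * Real.exp (-D * u) * Real.exp (2 * u))) := by ring
      _ = _ := by
        rw [← Real.exp_add, ← Real.exp_add]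
        congr 3
        rw [hrr]; ring
  have h := norm_integral_le_of_norm_le (hint.const_mul (2 * a)) hb
  rw [integral_const_mul, hval] at h
  refine h.trans (le_of_eq ?_)
  ring

/-- bound for the remainder integral -/
lemma Rm_int {z : ℂ} (h3 : |z.im| ≤ 1 / 2) :
    ‖∫ u in Set.Ioi (0:ℝ), Complex.cos (z * u) * (Rm u : ℂ)‖ ≤ Real.exp (-(784 * Real.pi)) / 1000 := by
  have hb : ∀ᵐ (u : ℝ) ∂(volume.restrict (Set.Ioi (0:ℝ))), ‖Complex.cos (z * u) * (Rm u : ℂ)‖ ≤
      Real.exp (-(784 * Real.pi)) * Real.exp (-1000 * u) := by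
    refine (ae_restrict_iff' measurableSet_Ioi).2 (ae_of_all _ fun u hu => ?_)
    have hu0 : (0:ℝ) < u := hu
    rw [norm_mul, norm_real, Real.norm_eq_abs]
    have h1 := norm_cos_le_exp (z * u)
    rw [im_mul_real z hu0.le] at h1
    have h2 := Rm_bound hu0.le
    calc _ ≤ Real.exp (|z.im| * u) * (Real.exp (-(784 * Real.pi)) * Real.exp (-4900 * u)) := by gcongr
      _ = Real.exp (-(784 * Real.pi)) * Real.exp (|z.im| * u + -4900 * u) := by
        rw [Real.exp_add]; ring
      _ ≤ _ := by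
        gcongr
        nlinarith
  have hi : IntegrableOn (fun u : ℝ => Real.exp (-1000 * u)) (Set.Ioi 0) :=
    integrableOn_exp_mul_Ioi (by norm_num) 0
  have h := norm_integral_le_of_norm_le (hi.const_mul (Real.exp (-(784 * Real.pi)))) hb
  rw [integral_const_mul, integral_exp_mul_Ioi (by norm_num)] at h
  refine h.trans (le_of_eq ?_)
  norm_num
  ring

lemma int_cos_Rm {z : ℂ} (h3 : |z.im| ≤ 1 / 2) :
    IntegrableOn (fun u : ℝ => Complex.cos (z * u) * (Rm u : ℂ)) (Set.Ioi 0) := by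
  have hi : IntegrableOn (fun u : ℝ => Real.exp (-1000 * u)) (Set.Ioi 0) :=
    integrableOn_exp_mul_Ioi (by norm_num) 0
  refine Integrable.mono' (hi.const_mul (Real.exp (-(784 * Real.pi)))) ?_ ?_
  · exact (Continuous.mul (by fun_prop) (continuous_ofReal.comp continuous_Rm)).aestronglyMeasurable
  · refine (ae_restrict_iff' measurableSet_Ioi).2 (ae_of_all _ fun u hu => ?_)
    have hu0 : (0:ℝ) < u := hu
    rw [norm_mul, norm_real, Real.norm_eq_abs]
    have h1 := norm_cos_le_exp (z * u)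
    rw [im_mul_real z hu0.le] at h1
    have h2 := Rm_bound hu0.le
    calc _ ≤ Real.exp (|z.im| * u) * (Real.exp (-(784 * Real.pi)) * Real.exp (-4900 * u)) := by gcongr
      _ = Real.exp (-(784 * Real.pi)) * Real.exp (|z.im| * u + -4900 * u) := by
        rw [Real.exp_add]; ring
      _ ≤ _ := by
        gcongr
        nlinarith

/-- the tail -/
noncomputable def Tl (z : ℂ) : ℂ := XiC z - XiN 27 z

lemma Tl_eq {z : ℂ} (h3 : |z.im| ≤ 1 / 2) :
    Tl z = (∫ u in Set.Ioi (0:ℝ), Complex.cos (z * u) * (kk 28 u : ℂ)) +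
      ∫ u in Set.Ioi (0:ℝ), Complex.cos (z * u) * (Rm u : ℂ) := by
  have h27 : XiN 27 z = ∫ u in Set.Ioi (0:ℝ), ∑ n ∈ Finset.Icc 1 27, Complex.cos (z * u) * (kk n u : ℂ) := by
    rw [integral_finsetSum]
    · unfold XiN
      refine Finset.sum_congr rfl fun n hn => ?_
      exact Phi_eq (Finset.mem_Icc.1 hn).1 z
    · intro n hn
      exact int_cos_kk (Finset.mem_Icc.1 hn).1 z
  have hi27 : IntegrableOn (fun u : ℝ => ∑ n ∈ Finset.Icc 1 27, Complex.cos (z * u) * (kk n u : ℂ))
      (Set.Ioi 0) := by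
    apply integrable_finsetSum
    intro n hn
    exact int_cos_kk (Finset.mem_Icc.1 hn).1 z
  have hi28 := int_cos_kk (n := 28) (by norm_num) z
  have hiR := int_cos_Rm h3
  unfold Tl
  have hX : XiC z = (∫ u in Set.Ioi (0:ℝ), ∑ n ∈ Finset.Icc 1 27, Complex.cos (z * u) * (kk n u : ℂ)) +
      ((∫ u in Set.Ioi (0:ℝ), Complex.cos (z * u) * (kk 28 u : ℂ)) +
      ∫ u in Set.Ioi (0:ℝ), Complex.cos (z * u) * (Rm u : ℂ)) := by
    have e1 := integral_add hi28 hiR
    have e2 := integral_add hi27 (hi28.add hiR)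
    simp only [Pi.add_apply] at e2
    rw [← e1, ← e2]
    unfold XiC
    refine setIntegral_congr_fun measurableSet_Ioi fun u _ => ?_
    rw [Kr_split, ← Finset.mul_sum]
    push_cast
    ring
  rw [hX, h27]
  ring

end Pool.Agent.H401R2
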