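import Pool.Agent.H401R2.Tail2

set_option autoImplicit false

namespace Pool.Agent.H401R2

open Complex Filter Topology MeasureTheory
open XiTrunc

lemma quot_bound {N D A : ℝ} {z : ℂ} {x y B L : ℝ} (hx : z.re = x) (hy : z.im = y)
    (hL : 0 < L) (hW : L ≤ D ^ 2 + (x ^ 2 - y ^ 2))
    (hB : |N - A * (D ^ 2 + (x ^ 2 - y ^ 2))| + |A| * (2 * |x| * |y|) ≤ B) :
    ‖(N : ℂ) / ((D : ℂ) ^ 2 + z ^ 2) - A‖ ≤ B / L := by
  set W : ℂ := (D : ℂ) ^ 2 + z ^ 2 with hWd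
  have hz : z = (x : ℂ) + y * I := by rw [← hx, ← hy, re_add_im]
  have hWre : W.re = D ^ 2 + (x ^ 2 - y ^ 2) := by
    rw [hWd, hz]
    simp [pow_two]
  have hWim : W.im = 2 * x * y := by
    rw [hWd, hz]
    simp [pow_two]
    ring
  have hWn : L ≤ ‖W‖ := by
    have := Complex.re_le_norm W
    rw [hWre] at this
    linarith
  have hW0 : W ≠ 0 := by
    intro h; rw [h, norm_zero] at hWn; linarith
  have e : (N : ℂ) / W - A = ((N : ℂ) - A * W) / W := by field_simp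
  rw [e, norm_div]
  have h1 : ‖(N : ℂ) - A * W‖ ≤ B := by
    refine (Complex.norm_le_abs_re_add_abs_im _).trans ?_
    have e1 : ((N : ℂ) - A * W).re = N - A * (D ^ 2 + (x ^ 2 - y ^ 2)) := by
      simp [hWre]
    have e2 : ((N : ℂ) - A * W).im = - (A * (2 * x * y)) := by
      simp [hWim]
    rw [e1, e2, abs_neg, abs_mul, abs_mul, abs_mul, abs_of_pos (by norm_num : (0:ℝ) < 2)]
    exact hB
  have hB0 : 0 ≤ B := (norm_nonneg _).trans h1
  exact div_le_div₀ hB0 h1 hL hWn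

theorem tail_main {z : ℂ} (h1 : 3143 ≤ z.re) (h2 : z.re ≤ 3151) (h3 : |z.im| ≤ 1 / 2) :
    ‖((Real.exp (784 * Real.pi) : ℝ) : ℂ) * Tl z - 7000‖ ≤ 16 := by
  have p1 := Real.pi_gt_d6
  have p2 := Real.pi_lt_d6
  set a : ℝ := 784 * Real.pi with ha
  have ha1 : 2463.008 ≤ a := by rw [ha]; linarith
  have ha2 : a ≤ 2463.009 := by rw [ha]; linarith
  have ha0 : 0 < a := by linarith
  set x := z.re with hx
  set y := z.im with hy
  have hy0 := abs_nonneg y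
  have hJ9 := J_bound (a := a) (c := 9/2) (z := z) ha0 (by rw [← hy]; linarith)
  have hJ5 := J_bound (a := a) (c := 5/2) (z := z) ha0 (by rw [← hy]; linarith)
  set J9 := ∫ u in Set.Ioi (0:ℝ), Complex.cos (z * u) *
      ((Real.exp (9/2 * u - a * (Real.exp (2 * u) - 1)) : ℝ) : ℂ) with hJ9d
  set J5 := ∫ u in Set.Ioi (0:ℝ), Complex.cos (z * u) *
      ((Real.exp (5/2 * u - a * (Real.exp (2 * u) - 1)) : ℝ) : ℂ) with hJ5d
  have hpi28 : Real.pi * (28:ℝ) ^ 2 = a := by rw [ha]; ring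
  have h28 : ((Real.exp a : ℝ) : ℂ) * ∫ u in Set.Ioi (0:ℝ), Complex.cos (z * u) * (kk 28 u : ℂ) =
      (8 * a ^ 2 : ℝ) * J9 - (12 * a : ℝ) * J5 := by
    rw [hJ9d, hJ5d, ← integral_const_mul, ← integral_const_mul, ← integral_const_mul, ← integral_sub]
    · refine setIntegral_congr_fun measurableSet_Ioi fun u _ => ?_
      rw [kk_eq]
      push_cast
      have e28 : ((Real.pi : ℂ) * 28 ^ 2) = (a : ℂ) := by rw [ha]; push_cast; ring
      rw [e28]
      have e1 : ∀ c : ℂ, cexp a * cexp (c * u - a * cexp (2 * u)) =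
          cexp (c * u - a * (cexp (2 * u) - 1)) := by
        intro c; rw [← exp_add]; congr 1; ring
      rw [← e1 (9/2), ← e1 (5/2)]
      have e3 : Real.pi * 28 ^ 2 = a := hpi28
      ring
    · refine ((int_cos_exp ha0 (9/2) z).const_mul ((8 * a ^ 2 : ℝ) * (Real.exp a : ℝ) : ℂ)).congr
        (ae_of_all _ fun u => ?_)
      simp only
      rw [show 9/2 * u - a * (Real.exp (2 * u) - 1) = a + (9/2 * u - a * Real.exp (2 * u)) by ring,
        Real.exp_add]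
      push_cast
      ring
    · refine ((int_cos_exp ha0 (5/2) z).const_mul ((12 * a : ℝ) * (Real.exp a : ℝ) : ℂ)).congr
        (ae_of_all _ fun u => ?_)
      simp only
      rw [show 5/2 * u - a * (Real.exp (2 * u) - 1) = a + (5/2 * u - a * Real.exp (2 * u)) by ring,
        Real.exp_add]
      push_cast
      ring
  rw [Tl_eq h3, mul_add, h28]
  set Rr := ∫ u in Set.Ioi (0:ℝ), Complex.cos (z * u) * (Rm u : ℂ) with hRr
  have hR := Rm_int h3
  rw [← hRr] at hR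
  have hR' : ‖((Real.exp a : ℝ) : ℂ) * Rr‖ ≤ 1 / 1000 := by
    rw [norm_mul, norm_real, Real.norm_of_nonneg (Real.exp_pos _).le]
    calc Real.exp a * ‖Rr‖ ≤ Real.exp a * (Real.exp (-(784 * Real.pi)) / 1000) := by gcongr
      _ = (Real.exp a * Real.exp (-a)) / 1000 := by rw [ha]; ring
      _ = _ := by rw [← Real.exp_add]; simp
  -- main terms
  have hx2a : 9878449 ≤ x ^ 2 := by nlinarith
  have hx2b : x ^ 2 ≤ 9928801 := by nlinarith
  have hy2 : y ^ 2 ≤ 1 / 4 := by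
    rw [← sq_abs]; nlinarith
  have hy2' : 0 ≤ y ^ 2 := sq_nonneg y
  have ha2a : 6066408 ≤ a ^ 2 := by nlinarith
  have ha2b : a ^ 2 ≤ 6066414 := by nlinarith
  have hD9 : (2 * (a:ℂ) - ((9/2 : ℝ) : ℂ)) = ((2 * a - 9/2 : ℝ) : ℂ) := by push_cast; ring
  have hD5 : (2 * (a:ℂ) - ((5/2 : ℝ) : ℂ)) = ((2 * a - 5/2 : ℝ) : ℂ) := by push_cast; ring
  rw [hD9] at hJ9
  rw [hD5] at hJ5
  set D9 : ℝ := 2 * a - 9/2 with hD9d
  set D5 : ℝ := 2 * a - 5/2 with hD5d
  have hxa : |x| ≤ 3151 := by rw [abs_of_nonneg (by linarith)]; linarith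
  have q9 : ‖((8 * a ^ 2 * D9 : ℝ) : ℂ) / ((D9 : ℂ) ^ 2 + z ^ 2) - (7000 : ℝ)‖ ≤ 228000000 / 34000000 := by
    apply quot_bound (x := x) (y := y) rfl rfl (by norm_num)
    · rw [hD9d]; nlinarith
    · have hD9a : 4921.516 ≤ D9 := by rw [hD9d]; linarith
      have hD9b : D9 ≤ 4921.518 := by rw [hD9d]; linarith
      have n1 : 8 * a ^ 2 * D9 ≤ 238847800000 := by
        calc 8 * a ^ 2 * D9 ≤ 8 * 6066414 * 4921.518 := by gcongr
          _ ≤ _ := by norm_num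
      have n2 : 238847300000 ≤ 8 * a ^ 2 * D9 := by
        calc (238847300000:ℝ) ≤ 8 * 6066408 * 4921.516 := by norm_num
          _ ≤ _ := by gcongr
      have d1 : 24221319 ≤ D9 ^ 2 := by nlinarith
      have d2 : D9 ^ 2 ≤ 24221340 := by nlinarith
      have t1 : |8 * a ^ 2 * D9 - 7000 * (D9 ^ 2 + (x ^ 2 - y ^ 2))| ≤ 205000000 := by
        rw [abs_le]
        constructor <;> linarith
      have t2 : |(7000:ℝ)| * (2 * |x| * |y|) ≤ 23000000 := by
        rw [abs_of_pos (by norm_num)]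
        have : |x| * |y| ≤ 3151 * (1/2) := by gcongr
        nlinarith
      linarith
  have q5 : ‖((12 * a * D5 : ℝ) : ℂ) / ((D5 : ℂ) ^ 2 + z ^ 2) - (0 : ℝ)‖ ≤ 146000000 / 34000000 := by
    apply quot_bound (x := x) (y := y) rfl rfl (by norm_num)
    · rw [hD5d]; nlinarith
    · have : D5 ≤ 4923.518 := by rw [hD5d]; linarith
      have hD50 : 0 ≤ D5 := by rw [hD5d]; linarith
      have t1 : 12 * a * D5 ≤ 146000000 := by
        calc 12 * a * D5 ≤ 12 * 2463.009 * 4923.518 := by gcongr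
          _ ≤ _ := by norm_num
      simp only [zero_mul, sub_zero, abs_zero, add_zero]
      rw [abs_of_nonneg (by positivity)]
      exact t1
  have r9 : 4919 ≤ 2 * a - 9/2 - |y| - 2 := by linarith
  have r5 : 4919 ≤ 2 * a - 5/2 - |y| - 2 := by linarith
  have k9 : 4 * a / (2 * a - 9/2 - |y| - 2) ^ 3 ≤ 0.0000000828 := by
    have hden : (4919:ℝ) ^ 3 ≤ (2 * a - 9/2 - |y| - 2) ^ 3 := pow_le_pow_left₀ (by norm_num) r9 3
    rw [div_le_iff₀ (by linarith [show (0:ℝ) < 4919 ^ 3 by norm_num])]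
    have : 4 * a ≤ 0.0000000828 * 4919 ^ 3 := by norm_num; linarith
    linarith
  have k5 : 4 * a / (2 * a - 5/2 - |y| - 2) ^ 3 ≤ 0.0000000828 := by
    have hden : (4919:ℝ) ^ 3 ≤ (2 * a - 5/2 - |y| - 2) ^ 3 := pow_le_pow_left₀ (by norm_num) r5 3
    rw [div_le_iff₀ (by linarith [show (0:ℝ) < 4919 ^ 3 by norm_num])]
    have : 4 * a ≤ 0.0000000828 * 4919 ^ 3 := by norm_num; linarith
    linarith
  have e9 := hJ9.trans k9
  have e5 := hJ5.trans k5
  set E9 : ℂ := J9 - (D9 : ℂ) / ((D9 : ℂ) ^ 2 + z ^ 2) with hE9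
  set E5 : ℂ := J5 - (D5 : ℂ) / ((D5 : ℂ) ^ 2 + z ^ 2) with hE5
  have b9 : ‖((8 * a ^ 2 : ℝ) : ℂ) * E9‖ ≤ 4.02 := by
    rw [norm_mul, norm_real, Real.norm_of_nonneg (by positivity)]
    have := mul_le_mul (mul_le_mul_of_nonneg_left ha2b (by norm_num : (0:ℝ) ≤ 8)) e9 (norm_nonneg _)
      (by norm_num)
    refine this.trans ?_
    norm_num
  have b5 : ‖((12 * a : ℝ) : ℂ) * E5‖ ≤ 0.01 := by
    rw [norm_mul, norm_real, Real.norm_of_nonneg (by positivity)]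
    have := mul_le_mul (mul_le_mul_of_nonneg_left ha2 (by norm_num : (0:ℝ) ≤ 12)) e5 (norm_nonneg _)
      (by norm_num)
    refine this.trans ?_
    norm_num
  have hfin : ((8 * a ^ 2 : ℝ) : ℂ) * J9 - ((12 * a : ℝ) : ℂ) * J5 + ((Real.exp a : ℝ) : ℂ) * Rr - 7000 =
      (((8 * a ^ 2 * D9 : ℝ) : ℂ) / ((D9 : ℂ) ^ 2 + z ^ 2) - (7000 : ℝ)) -
      (((12 * a * D5 : ℝ) : ℂ) / ((D5 : ℂ) ^ 2 + z ^ 2) - (0 : ℝ)) +
      ((8 * a ^ 2 : ℝ) : ℂ) * E9 - ((12 * a : ℝ) : ℂ) * E5 +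
      ((Real.exp a : ℝ) : ℂ) * Rr := by
    rw [hE9, hE5]
    push_cast
    ring
  rw [hfin]
  refine (norm_add_le _ _).trans ?_
  refine (add_le_add (norm_sub_le _ _) hR').trans ?_
  refine (add_le_add (add_le_add (norm_add_le _ _) b5) le_rfl).trans ?_
  refine (add_le_add (add_le_add (add_le_add (norm_sub_le _ _) b9) le_rfl) le_rfl).trans ?_
  linarith

end Pool.Agent.H401R2
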