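import Pool.Agent.H401R2.Disc

set_option autoImplicit false

namespace Pool.Agent.H401R2

open Complex Finset

lemma lam_norm : ‖lam‖ ≤ 3.206 := by
  unfold lam
  apply norm_le_of_sq (by norm_num)
  have p2 := Real.pi_lt_d20
  have p0 := Real.pi_pos
  have hl := abs_le.1 ell_c
  rw [← ellc] at hl
  obtain ⟨hl1, hl2⟩ := hl
  have h1 : (-ellc / 2) ^ 2 ≤ 3.1076 ^ 2 := by
    apply sq_le_sq'
    · norm_num at hl1 hl2 ⊢; linarith
    · norm_num at hl1 hl2 ⊢; linarith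
  have h2 : (-Real.pi / 4) ^ 2 ≤ 0.7855 ^ 2 := by
    apply sq_le_sq'
    · norm_num at p2 ⊢; linarith
    · norm_num at p2 ⊢; linarith
  refine (add_le_add h1 h2).trans ?_
  norm_num

lemma Bc_norm : ‖Bc‖ ≤ 0.5173 := by
  have h4 : ‖(((0.47326:ℝ):ℂ) + ((0.20808:ℝ):ℂ) * I)‖ ≤ 0.517 := norm_le_of_sq (by norm_num) (by norm_num)
  have e : Bc = (Bc - (((0.47326:ℝ):ℂ) + ((0.20808:ℝ):ℂ) * I)) + (((0.47326:ℝ):ℂ) + ((0.20808:ℝ):ℂ) * I) := by ring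
  rw [e]
  refine (norm_add_le _ _).trans ((add_le_add Bc_num h4).trans ?_)
  norm_num

lemma g0_num : ‖Sw 0 - Bc‖ ≤ 0.00152 := by
  have h := diff_le 0.4739645 0.2071373 0.47326 0.20808
  have h' : ‖(((0.4739645:ℝ):ℂ) + ((0.2071373:ℝ):ℂ) * I) - (((0.47326:ℝ):ℂ) + ((0.20808:ℝ):ℂ) * I)‖ ≤ 0.00118 := by
    have e : (((0.4739645:ℝ):ℂ) + ((0.2071373:ℝ):ℂ) * I) - (((0.47326:ℝ):ℂ) + ((0.20808:ℝ):ℂ) * I) =
      (((0.4739645 - 0.47326 : ℝ):ℂ) + ((0.2071373 - 0.20808 : ℝ):ℂ) * I) := by push_cast; ring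
    rw [e]
    exact norm_le_of_sq (by norm_num) (by norm_num)
  have e : Sw 0 - Bc = (Sw 0 - (((0.4739645:ℝ):ℂ) + ((0.2071373:ℝ):ℂ) * I)) -
    (Bc - (((0.47326:ℝ):ℂ) + ((0.20808:ℝ):ℂ) * I)) +
    ((((0.4739645:ℝ):ℂ) + ((0.2071373:ℝ):ℂ) * I) - (((0.47326:ℝ):ℂ) + ((0.20808:ℝ):ℂ) * I)) := by ring
  rw [e]
  refine (norm_add_le _ _).trans ((add_le_add ((norm_sub_le _ _).trans (add_le_add S0_num Bc_num)) h').trans ?_)
  norm_num

/-- the numerical slope -/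
noncomputable def G1 : ℂ := ((1.7832 : ℝ) : ℂ) + ((1.1417 : ℝ) : ℂ) * I

lemma g1_num : ‖-Sw 1 - lam * Bc - G1‖ ≤ 0.002 := by
  have p1 := Real.pi_gt_d20
  have p2 := Real.pi_lt_d20
  have hl := abs_le.1 ell_c
  rw [← ellc] at hl
  obtain ⟨hl1, hl2⟩ := hl
  set B0 : ℂ := (((0.47326:ℝ):ℂ) + ((0.20808:ℝ):ℂ) * I) with hB0
  set L0 : ℂ := (((-3.1075631:ℝ):ℂ) + ((-0.7853982:ℝ):ℂ) * I) with hL0
  have h4 : ‖B0‖ ≤ 0.517 := norm_le_of_sq (by norm_num) (by norm_num)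
  have hlam : ‖lam - L0‖ ≤ 1e-6 := by
    unfold lam
    refine (diff_le _ _ _ _).trans ?_
    have h1 : |-ellc / 2 - -3.1075631| ≤ 5e-7 := by
      rw [abs_le]; norm_num at hl1 hl2 ⊢; constructor <;> linarith
    have h2 : |-Real.pi / 4 - -0.7853982| ≤ 5e-7 := by
      rw [abs_le]; norm_num at p1 p2 ⊢; constructor <;> linarith
    refine (add_le_add h1 h2).trans ?_
    norm_num
  have hG : ‖-(((-0.4759277:ℝ):ℂ) + ((-0.1233688:ℝ):ℂ) * I) - L0 * B0 - G1‖ ≤ 5e-5 := by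
    have e : -(((-0.4759277:ℝ):ℂ) + ((-0.1233688:ℝ):ℂ) * I) - L0 * B0 - G1 =
      (((0.4759277 - (-3.1075631 * 0.47326 - (-0.7853982) * 0.20808) - 1.7832 : ℝ) : ℂ) +
      ((0.1233688 - (-3.1075631 * 0.20808 + (-0.7853982) * 0.47326) - 1.1417 : ℝ) : ℂ) * I) := by
      rw [hB0, hL0, G1]
      push_cast
      linear_combination (-(-0.7853982 : ℂ) * 0.20808) * I_sq
    rw [e]
    apply norm_le_of_sq (by norm_num)
    norm_num
  have e : -Sw 1 - lam * Bc - G1 = -(Sw 1 - (((-0.4759277:ℝ):ℂ) + ((-0.1233688:ℝ):ℂ) * I)) -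
      lam * (Bc - B0) - (lam - L0) * B0 + (-(((-0.4759277:ℝ):ℂ) + ((-0.1233688:ℝ):ℂ) * I) - L0 * B0 - G1) := by ring
  rw [e]
  have k1 : ‖lam * (Bc - B0)‖ ≤ 3.206 * 2e-4 := by
    rw [norm_mul]
    exact mul_le_mul lam_norm Bc_num (norm_nonneg _) (by norm_num)
  have k2 : ‖(lam - L0) * B0‖ ≤ 1e-6 * 0.517 := by
    rw [norm_mul]
    exact mul_le_mul hlam h4 (norm_nonneg _) (by norm_num)
  have k3 : ‖-(Sw 1 - (((-0.4759277:ℝ):ℂ) + ((-0.1233688:ℝ):ℂ) * I))‖ ≤ 1.1e-3 := by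
    rw [norm_neg]; exact S1_num
  refine (norm_add_le _ _).trans ((add_le_add ((norm_sub_le _ _).trans (add_le_add ((norm_sub_le _ _).trans
    (add_le_add k3 k1)) k2)) hG).trans ?_)
  norm_num

lemma Bf_near {h : ℂ} (hh : ‖h‖ ≤ 0.03) : ‖Bf (sc + h) - Bc * (1 + lam * h)‖ ≤ 0.0023 + 5.33 * ‖h‖ ^ 2 := by
  have hsq : h.re ^ 2 + h.im ^ 2 ≤ 0.0009 := by
    have h1 : ‖h‖ ^ 2 = h.re ^ 2 + h.im ^ 2 := by rw [Complex.sq_norm, normSq_apply]; ring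
    have h2 : ‖h‖ ^ 2 ≤ 0.03 ^ 2 := by gcongr
    rw [← h1]
    refine h2.trans ?_
    norm_num
  have hr1 : |h.re| ≤ 0.03 := (abs_re_le_norm h).trans hh
  have hi1 : |h.im| ≤ 0.03 := (abs_im_le_norm h).trans hh
  obtain ⟨a1, a2⟩ := abs_le.1 hr1
  obtain ⟨b1, b2⟩ := abs_le.1 hi1
  obtain ⟨ε, hε, hB⟩ := Bf_model (σ := 0.815 + h.re) (t := 3143.2207 + h.im)
    (by norm_num at a1 ⊢; linarith) (by norm_num at a2 ⊢; linarith)
    (by norm_num at b1 ⊢; linarith) (by norm_num at b2 ⊢; linarith)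
  have es : ((0.815 + h.re : ℝ) : ℂ) + ((3143.2207 + h.im : ℝ) : ℂ) * I = sc + h := by
    unfold sc
    conv_rhs => rw [← re_add_im h]
    push_cast
    ring
  rw [es] at hB
  have hsh := bf_shift hsq
  rw [re_add_im] at hsh
  set δ : ℂ := bf (0.815 + h.re) (3143.2207 + h.im) - bf 0.815 3143.2207 - lam * h with hδ
  have e1 : exp (bf (0.815 + h.re) (3143.2207 + h.im)) = Bc * exp (lam * h + δ) := by
    unfold Bc
    rw [← exp_add]
    congr 1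
    rw [hδ]; ring
  set w : ℂ := lam * h + δ with hw
  have hwn : ‖w‖ ≤ 3.206 * ‖h‖ + 2.5e-5 := by
    rw [hw]
    refine (norm_add_le _ _).trans (add_le_add ?_ hsh)
    rw [norm_mul]
    exact mul_le_mul_of_nonneg_right lam_norm (norm_nonneg _)
  have hwn2 : ‖w‖ ≤ 0.0963 := by
    refine hwn.trans ?_
    have : 3.206 * ‖h‖ ≤ 3.206 * 0.03 := by gcongr
    norm_num at this ⊢
    linarith
  have hw1 : ‖w‖ ≤ 1 := hwn2.trans (by norm_num)
  have hexp2 := norm_exp_sub_one_sub_id_le hw1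
  have hexp1 := norm_exp_sub_one_le hw1
  have hexpn : ‖exp w‖ ≤ 1.2 := by
    have e : exp w = (exp w - 1) + 1 := by ring
    rw [e]
    refine (norm_add_le _ _).trans ?_
    rw [norm_one]
    norm_num at hexp1 hwn2 ⊢
    linarith
  rw [hB, e1]
  have e2 : Bc * exp w * (1 + ε) - Bc * (1 + lam * h) = Bc * ((exp w - 1 - w) + δ + exp w * ε) := by
    rw [hw]; ring
  rw [e2, norm_mul]
  have k1 : ‖(exp w - 1 - w) + δ + exp w * ε‖ ≤ (10.2785 * ‖h‖ ^ 2 + 5e-6) + 2.5e-5 + 1.2 * 0.0036 := by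
    refine (norm_add_le _ _).trans (add_le_add ((norm_add_le _ _).trans (add_le_add ?_ hsh)) ?_)
    · refine hexp2.trans ?_
      have h0 : 0 ≤ ‖h‖ := norm_nonneg _
      calc ‖w‖ ^ 2 ≤ (3.206 * ‖h‖ + 2.5e-5) ^ 2 := by gcongr
        _ = 3.206 ^ 2 * ‖h‖ ^ 2 + 2 * 3.206 * 2.5e-5 * ‖h‖ + 2.5e-5 ^ 2 := by ring
        _ ≤ 3.206 ^ 2 * ‖h‖ ^ 2 + 2 * 3.206 * 2.5e-5 * 0.03 + 2.5e-5 ^ 2 := by gcongr
        _ ≤ 10.2785 * ‖h‖ ^ 2 + 5e-6 := by
            have : 0 ≤ ‖h‖ ^ 2 := by positivity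
            norm_num
            linarith
    · rw [norm_mul]
      exact mul_le_mul hexpn hε (norm_nonneg _) (by norm_num)
  calc ‖Bc‖ * ‖(exp w - 1 - w) + δ + exp w * ε‖ ≤ 0.5173 * ((10.2785 * ‖h‖ ^ 2 + 5e-6) + 2.5e-5 + 1.2 * 0.0036) := by
        have := Bc_norm
        gcongr
    _ ≤ 0.0023 + 5.33 * ‖h‖ ^ 2 := by
        have : 0 ≤ ‖h‖ ^ 2 := by positivity
        norm_num
        linarith

theorem Hf_near {h : ℂ} (hh : ‖h‖ ≤ 0.03) : ‖Hf (sc + h) - G1 * h‖ ≤ 0.0102 + 29.1 * ‖h‖ ^ 2 := by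
  have hr1 : |h.re| ≤ 0.03 := (abs_re_le_norm h).trans hh
  have hi1 : |h.im| ≤ 0.03 := (abs_im_le_norm h).trans hh
  obtain ⟨a1, a2⟩ := abs_le.1 hr1
  obtain ⟨b1, b2⟩ := abs_le.1 hi1
  have hre : (sc + h).re = 0.815 + h.re := by simp [sc]
  have him : (sc + h).im = 3143.2207 + h.im := by simp [sc]
  have k1 := zeta_near (s := sc + h) (by rw [hre]; norm_num at a1 ⊢; linarith)
    (by rw [hre]; norm_num at a2 ⊢; linarith) (by rw [him]; norm_num at b1 ⊢; linarith)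
    (by rw [him]; norm_num at b2 ⊢; linarith)
  have k2 := D_taylor hh
  have k3 := Bf_near hh
  have k4 := g0_num
  have k5 := g1_num
  have k6 := S2_num
  have h0 : 0 ≤ ‖h‖ := norm_nonneg h
  have k7 : ‖Sw 2 * h ^ 2 / 2‖ ≤ 0.7 * ‖h‖ ^ 2 := by
    rw [norm_div, norm_mul, norm_pow]
    have : ‖(2:ℂ)‖ = 2 := by simp
    rw [this]
    have h8 : ‖Sw 2‖ * ‖h‖ ^ 2 ≤ 1.4 * ‖h‖ ^ 2 := by gcongr
    norm_num at h8 ⊢
    linarith
  have k8 : ‖(-Sw 1 - lam * Bc - G1) * h‖ ≤ 0.002 * 0.03 := by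
    rw [norm_mul]
    gcongr
  have e : Hf (sc + h) - G1 * h = (riemannZeta (sc + h) - ZU.DN 3000 (sc + h)) +
      (ZU.DN 3000 (sc + h) - (Sw 0 - Sw 1 * h + Sw 2 * h ^ 2 / 2)) + Sw 2 * h ^ 2 / 2 -
      (Bf (sc + h) - Bc * (1 + lam * h)) + (Sw 0 - Bc) + (-Sw 1 - lam * Bc - G1) * h := by
    unfold Hf; ring
  rw [e]
  refine (norm_add_le _ _).trans ((add_le_add ((norm_add_le _ _).trans (add_le_add ((norm_sub_le _ _).trans
    (add_le_add ((norm_add_le _ _).trans (add_le_add ((norm_add_le _ _).trans (add_le_add k1 k2)) k7)) k3)) k4)) k8).trans ?_)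
  have h9 : ‖h‖ ^ 3 ≤ 0.03 * ‖h‖ ^ 2 := by
    rw [pow_succ, mul_comm]
    gcongr
  have h10 : 0 ≤ ‖h‖ ^ 2 := by positivity
  norm_num at h9 ⊢
  linarith

lemma G1_norm : 2.117 ≤ ‖G1‖ := le_norm_of_sq (by norm_num)

/-- there is a zero of `Hf` in the disc of radius `0.03` around `sc` -/
theorem exists_zero_Hf : ∃ s : ℂ, ‖s - sc‖ ≤ 0.03 ∧ Hf s = 0 := by
  by_contra hcon
  push Not at hcon
  have hcen : ‖Hf sc‖ ≤ 0.0102 := by
    have h := Hf_near (h := 0) (by simp; norm_num)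
    simpa using h
  have hsph : ∀ s : ℂ, ‖s - sc‖ = 0.03 → 0.027 ≤ ‖Hf s‖ := by
    intro s hs
    have h := Hf_near (h := s - sc) hs.le
    rw [add_sub_cancel] at h
    have h2 := norm_sub_norm_le (G1 * (s - sc)) (G1 * (s - sc) - Hf s)
    rw [sub_sub_cancel, norm_mul, norm_sub_rev (G1 * (s - sc)) (Hf s), hs] at h2
    rw [hs] at h
    have h3 : 2.117 * 0.03 ≤ ‖G1‖ * 0.03 := by
      have := G1_norm
      gcongr
    norm_num at h h2 h3 ⊢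
    linarith
  have hdom : ∀ s : ℂ, ‖s - sc‖ ≤ 0.03 → 0 < s.re ∧ s ≠ 1 := by
    intro s hs
    have hr1 : |(s - sc).re| ≤ 0.03 := (abs_re_le_norm _).trans hs
    have hi1 : |(s - sc).im| ≤ 0.03 := (abs_im_le_norm _).trans hs
    rw [sub_re] at hr1
    rw [sub_im] at hi1
    have hre : sc.re = 0.815 := by simp [sc]
    have him : sc.im = 3143.2207 := by simp [sc]
    rw [hre] at hr1
    rw [him] at hi1
    obtain ⟨a1, a2⟩ := abs_le.1 hr1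
    obtain ⟨b1, b2⟩ := abs_le.1 hi1
    constructor
    · norm_num at a1; linarith
    · intro h
      rw [h, one_im] at b1
      norm_num at b1
  set g : ℂ → ℂ := fun s => (Hf s)⁻¹ with hg
  have hcl : closure (Metric.ball sc (0.03:ℝ)) = Metric.closedBall sc 0.03 := closure_ball sc (by norm_num)
  have hfr : frontier (Metric.ball sc (0.03:ℝ)) = Metric.sphere sc 0.03 := frontier_ball sc (by norm_num)
  have hd : DiffContOnCl ℂ g (Metric.ball sc (0.03:ℝ)) := by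
    apply DifferentiableOn.diffContOnCl
    rw [hcl]
    intro s hs
    have hs' : ‖s - sc‖ ≤ 0.03 := by simpa [dist_eq_norm] using hs
    obtain ⟨q1, q2⟩ := hdom s hs'
    exact ((differentiableAt_Hf q1 q2).inv (hcon s hs')).differentiableWithinAt
  have hmax := Complex.norm_le_of_forall_mem_frontier_norm_le (C := (0.027:ℝ)⁻¹) Metric.isBounded_ball hd (by
    intro s hs
    rw [hfr] at hs
    have hs' : ‖s - sc‖ = 0.03 := by simpa [dist_eq_norm] using hs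
    rw [hg]
    simp only [norm_inv]
    have := hsph s hs'
    gcongr) (z := sc) (by
      rw [hcl]
      exact Metric.mem_closedBall_self (by norm_num))
  rw [hg] at hmax
  simp only [norm_inv] at hmax
  have hne : Hf sc ≠ 0 := hcon sc (by simp; norm_num)
  have hpos : 0 < ‖Hf sc‖ := norm_pos_iff.2 hne
  have h5 : (0.027:ℝ) ≤ ‖Hf sc‖ := (inv_le_inv₀ hpos (by norm_num)).1 hmax
  norm_num at h5 hcen
  linarith

end Pool.Agent.H401R2
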